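import Pool.Agent.UUB.CTS

/-!
# INV: isomorphic invariance, general facts on bases

* `IsUncBasis.map`: the expansions of `w : F` in `e (x j)` correspond under `e` to the expansions of
  `e.symm w` in `x j` (`ContinuousLinearEquiv.hasSum`, or map a `HasSum` by `e` and by `e.symm`).
* `SemiNormalized.map`: `‖v‖ ≤ ‖e.symm‖ ‖e v‖` and `‖e v‖ ≤ ‖e‖ ‖v‖`.
* `summable_map_iff`: `ContinuousLinearEquiv.summable` or map by `e` and by `e.symm`.
* `HasUUB.congr`: existence by `map`; for two bases of `F` transport both to `E` by `e.symm` and use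
  `summable_map_iff`.
* `infinite_index`: if `J` were finite, every vector would be a linear combination of the finitely many
  `x j`, so `E` would be finite dimensional.
-/

namespace Pool.Agent.UUB

open Filter Topology Set

variable {𝕜 : Type*} [RCLike 𝕜] {E : Type*} [NormedAddCommGroup E] [NormedSpace 𝕜 E]
  {F : Type*} [NormedAddCommGroup F] [NormedSpace 𝕜 F] {J I : Type}

theorem IsUncBasis.map {x : J → E} (hx : IsUncBasis 𝕜 x) (e : E ≃L[𝕜] F) :
    IsUncBasis 𝕜 (fun j => e (x j)) := by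
  refine ⟨hx.1, fun w => ?_⟩
  have key : ∀ a : J → 𝕜, HasSum (fun j => a j • e (x j)) w ↔
      HasSum (fun j => a j • x j) (e.symm w) := by
    intro a
    have : (fun j => a j • e (x j)) = fun j => e (a j • x j) := by
      funext j; rw [map_smul]
    rw [this]
    exact e.hasSum
  obtain ⟨a, ha, hu⟩ := hx.2 (e.symm w)
  exact ⟨a, (key a).2 ha, fun a' ha' => hu a' ((key a').1 ha')⟩

theorem SemiNormalized.map {x : J → E} (hx : SemiNormalized x) (e : E ≃L[𝕜] F) :
    SemiNormalized (fun j => e (x j)) := by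
  obtain ⟨c, C, hc, h⟩ := hx
  refine ⟨c / (‖(e.symm : F →L[𝕜] E)‖ + 1), ‖(e : E →L[𝕜] F)‖ * C, by positivity, fun j => ⟨?_, ?_⟩⟩
  · rw [div_le_iff₀ (by positivity)]
    have h1 : ‖x j‖ ≤ ‖(e.symm : F →L[𝕜] E)‖ * ‖e (x j)‖ := by
      have := (e.symm : F →L[𝕜] E).le_opNorm (e (x j))
      simpa using this
    have h2 := (h j).1
    nlinarith [norm_nonneg (e (x j))]
  · have h1 : ‖e (x j)‖ ≤ ‖(e : E →L[𝕜] F)‖ * ‖x j‖ := (e : E →L[𝕜] F).le_opNorm (x j)
    have h2 := (h j).2
    exact h1.trans (mul_le_mul_of_nonneg_left h2 (norm_nonneg _))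

theorem summable_map_iff (e : E ≃L[𝕜] F) (x : J → E) (a : J → 𝕜) :
    (Summable fun j => a j • e (x j)) ↔ (Summable fun j => a j • x j) := by
  have : (fun j => a j • e (x j)) = fun j => e (a j • x j) := by
    funext j; rw [map_smul]
  rw [this]
  exact e.summable

theorem HasUUB.congr (h : HasUUB 𝕜 E) (e : E ≃L[𝕜] F) : HasUUB 𝕜 F := by
  obtain ⟨⟨J, x, hx, hx'⟩, hu⟩ := h
  refine ⟨⟨J, fun j => e (x j), hx.map e, hx'.map e⟩, ?_⟩
  intro J I x y hx hx' hy hy'
  obtain ⟨π, hπ⟩ := hu J I (fun j => e.symm (x j)) (fun i => e.symm (y i)) (hx.map e.symm)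
    (hx'.map e.symm) (hy.map e.symm) (hy'.map e.symm)
  refine ⟨π, fun a => ?_⟩
  rw [← summable_map_iff e.symm x a, hπ a, summable_map_iff e.symm (fun j => y (π j)) a]

theorem infinite_index (h : ¬ FiniteDimensional 𝕜 E) {x : J → E} (hx : IsUncBasis 𝕜 x) :
    Infinite J := by
  by_contra hJ
  rw [not_infinite_iff_finite] at hJ
  have := Fintype.ofFinite J
  apply h
  refine Module.Finite.of_surjective (Fintype.linearCombination 𝕜 x) ?_
  intro v
  obtain ⟨a, ha, -⟩ := hx.2 v
  refine ⟨a, ?_⟩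
  have h1 := hasSum_fintype (fun j => a j • x j)
  rw [Fintype.linearCombination_apply]
  exact h1.unique ha

/-- the vectors of a Schauder basis are linearly independent (`b.linearIndependent`) -/
theorem not_finite_of_basis (b : UnconditionalSchauderBasis ℕ 𝕜 E) :
    ¬ FiniteDimensional 𝕜 E := by
  intro h
  have := b.linearIndependent.finite
  exact not_finite ℕ

/-- A characterization of the summable families invariant under bijections gives uniqueness. -/
theorem hasUUB_of_char (h : ¬ FiniteDimensional 𝕜 E)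
    (hex : ∃ x : ℕ → E, IsUncBasis 𝕜 x ∧ SemiNormalized x)
    (Q : (J : Type) → (J → 𝕜) → Prop)
    (hQ : ∀ (J I : Type) (π : J ≃ I) (a : I → 𝕜), Q J (fun j => a (π j)) ↔ Q I a)
    (hchar : ∀ (J : Type) (x : J → E), IsUncBasis 𝕜 x → SemiNormalized x → ∀ a : J → 𝕜,
      (Summable fun j => a j • x j) ↔ Q J a) : HasUUB 𝕜 E := by
  obtain ⟨x, hx, hx'⟩ := hex
  refine ⟨⟨ℕ, x, hx, hx'⟩, ?_⟩
  intro J I x y hx hx' hy hy'
  have := infinite_index h hx
  have := infinite_index h hy
  have := hx.1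
  have := hy.1
  obtain ⟨π⟩ := nonempty_equiv_of_countable (α := J) (β := I)
  refine ⟨π, fun a => ?_⟩
  rw [hchar J x hx hx' a]
  have h1 := hQ J I π (fun i => a (π.symm i))
  simp only [Equiv.symm_apply_apply] at h1
  rw [h1, ← hchar I y hy hy']
  rw [← π.summable_iff]
  simp [Function.comp_def]

end Pool.Agent.UUB
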