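import Pool.Agent.UUB.INV

/-!
# PRB: the basis of a direct sum

* `prod_basis`: for `(v, w)` with coefficient families `a`, `c` the coefficient family is `Sum.elim a c`. A
  family on a sum type has sum `s + t` if the two restrictions have sums `s`, `t`
  (`HasSum.sum`-type lemma or `hasSum_sum_type`-like; one may use
  `Function.Injective.hasSum_iff` for `Sum.inl`, `Sum.inr` and add). Uniqueness: project to the two
  factors (`HasSum.map`/`ContinuousLinearMap.hasSum` with `fst`, `snd`); the terms from the other summand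
  vanish, so the restriction of the family to `Sum.inl` has sum `v`
  (`Function.Injective.hasSum_iff`). Countability: `instCountableSum`.
* `semi_prod`: `‖(x j, 0)‖ = ‖x j‖`; take the minimum and the maximum of the constants.
-/

namespace Pool.Agent.UUB

open Filter Topology Set

variable {𝕜 : Type*} [RCLike 𝕜] {E : Type*} [NormedAddCommGroup E] [NormedSpace 𝕜 E]
  {F : Type*} [NormedAddCommGroup F] [NormedSpace 𝕜 F] {J I : Type}

private theorem prb_hasSum_iff (x : J → E) (y : I → F) (a : J ⊕ I → 𝕜) (v : E) (w : F) :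
    HasSum (fun j => a j • (Sum.elim (fun j => (x j, (0 : F))) (fun i => ((0 : E), y i)) :
      J ⊕ I → E × F) j) (v, w) ↔
    HasSum (fun j => a (Sum.inl j) • x j) v ∧ HasSum (fun i => a (Sum.inr i) • y i) w := by
  constructor
  · intro h
    constructor
    · have h1 := h.mapL (ContinuousLinearMap.fst 𝕜 E F)
      have h2 := (Function.Injective.hasSum_iff (Sum.inl_injective (α := J) (β := I))
        (f := fun j => (ContinuousLinearMap.fst 𝕜 E F) (a j •
          (Sum.elim (fun j => (x j, (0 : F))) (fun i => ((0 : E), y i)) : J ⊕ I → E × F) j))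
        (a := (ContinuousLinearMap.fst 𝕜 E F) (v, w)) ?_).mpr h1
      · simpa [Function.comp_def] using h2
      · intro j hj
        rcases j with j | i
        · exact absurd ⟨j, rfl⟩ hj
        · simp
    · have h1 := h.mapL (ContinuousLinearMap.snd 𝕜 E F)
      have h2 := (Function.Injective.hasSum_iff (Sum.inr_injective (α := J) (β := I))
        (f := fun j => (ContinuousLinearMap.snd 𝕜 E F) (a j •
          (Sum.elim (fun j => (x j, (0 : F))) (fun i => ((0 : E), y i)) : J ⊕ I → E × F) j))
        (a := (ContinuousLinearMap.snd 𝕜 E F) (v, w)) ?_).mpr h1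
      · simpa [Function.comp_def] using h2
      · intro j hj
        rcases j with j | i
        · simp
        · exact absurd ⟨i, rfl⟩ hj
  · rintro ⟨h1, h2⟩
    have h3 := h1.mapL (ContinuousLinearMap.inl 𝕜 E F)
    have h4 := h2.mapL (ContinuousLinearMap.inr 𝕜 E F)
    have h5 := HasSum.sum (f := fun j => a j •
      (Sum.elim (fun j => (x j, (0 : F))) (fun i => ((0 : E), y i)) : J ⊕ I → E × F) j)
      (a := (ContinuousLinearMap.inl 𝕜 E F) v) (b := (ContinuousLinearMap.inr 𝕜 E F) w)
      (by simpa [Function.comp_def] using h3) (by simpa [Function.comp_def] using h4)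
    simpa using h5

theorem prod_basis {x : J → E} {y : I → F} (hx : IsUncBasis 𝕜 x) (hy : IsUncBasis 𝕜 y) :
    IsUncBasis 𝕜 (Sum.elim (fun j => (x j, (0 : F))) (fun i => ((0 : E), y i)) : J ⊕ I → E × F) := by
  obtain ⟨hJ, hx⟩ := hx
  obtain ⟨hI, hy⟩ := hy
  refine ⟨inferInstance, ?_⟩
  rintro ⟨v, w⟩
  obtain ⟨a, ha, hau⟩ := hx v
  obtain ⟨c, hc, hcu⟩ := hy w
  refine ⟨Sum.elim a c, ?_, ?_⟩
  · exact (prb_hasSum_iff x y _ v w).mpr ⟨ha, hc⟩
  · intro b hb
    obtain ⟨h1, h2⟩ := (prb_hasSum_iff x y b v w).mp hb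
    have e1 := hau _ h1
    have e2 := hcu _ h2
    funext j
    rcases j with j | i
    · exact congrFun e1 j
    · exact congrFun e2 i

theorem semi_prod {x : J → E} {y : I → F} (hx : SemiNormalized x) (hy : SemiNormalized y) :
    SemiNormalized (Sum.elim (fun j => (x j, (0 : F))) (fun i => ((0 : E), y i)) :
      J ⊕ I → E × F) := by
  obtain ⟨c, C, hc, h⟩ := hx
  obtain ⟨c', C', hc', h'⟩ := hy
  refine ⟨min c c', max C C', lt_min hc hc', ?_⟩
  intro j
  rcases j with j | i
  · have e : ‖((x j, (0 : F)) : E × F)‖ = ‖x j‖ := by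
      simp [Prod.norm_def]
    simp only [Sum.elim_inl, e]
    exact ⟨le_trans (min_le_left _ _) (h j).1, le_trans (h j).2 (le_max_left _ _)⟩
  · have e : ‖(((0 : E), y i) : E × F)‖ = ‖y i‖ := by
      simp [Prod.norm_def]
    simp only [Sum.elim_inr, e]
    exact ⟨le_trans (min_le_right _ _) (h' i).1, le_trans (h' i).2 (le_max_right _ _)⟩

end Pool.Agent.UUB
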