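import Pool.Agent.UUB.Defs

/-!
# CTS: automatic continuity of the coordinate functionals

PROOF of `exists_schauder`. Let `a v : J → 𝕜` be the coefficients of `v` (choice from `∃!`);
by uniqueness `a` is linear in `v`, and `a (x j) = Pi.single j 1`; `x j ≠ 0` (otherwise two
expansions of 0). Let `B := lp (fun _ : Finset J => E) ∞` (or `BoundedContinuousFunction (Finset J) E`
with the discrete topology; a Banach space). Define the linear map `T : E → B`,
`(T v) A = ∑ j ∈ A, a v j • x j`; the values are bounded because the net of finite partial sums of an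
unconditionally convergent series is bounded (`summable_iff_vanishing_norm`: choose `A₀` for `ε = 1`;
a finite set `A` is `(A ∩ A₀) ∪ (A \ A₀)`; compare the proof of
`UnconditionalSchauderBasis.exists_norm_proj_le` in Mathlib, file Analysis/Normed/Module/Bases.lean).
`T` has closed graph: let `v_n → v` and `T v_n → F` in `B`. Then `a v_n j • x j → F {j}`, so
`a v_n j → α j` for some `α j` with `F {j} = α j • x j` (the line spanned by `x j ≠ 0` is closed), hence
`F A = ∑ j ∈ A, α j • x j` for all finite `A`, and `HasSum (α j • x j) v`: given `ε` take `n` with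
`‖T v_n - F‖ ≤ ε`, `‖v_n - v‖ ≤ ε` and then `A₀` with `‖(T v_n) A - v_n‖ ≤ ε` for `A ⊇ A₀`; so
`‖F A - v‖ ≤ 3 ε` for `A ⊇ A₀`. By uniqueness `α = a v`, so `F = T v`. Closed graph theorem
(`LinearMap.continuous_of_isClosed_graph` / `..._of_seq_closed_graph`): `T` is continuous, so
`‖a v j‖ ‖x j‖ = ‖(T v) {j}‖ ≤ C ‖v‖` and the coordinates are continuous linear functionals.
`isUncBasis_of_schauder`: existence is `b.expansion`; uniqueness: apply the continuous functional
`b.coord i` to the series and use `b.ortho`.
-/

namespace Pool.Agent.UUB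

open Filter Topology Set

variable {𝕜 : Type*} [RCLike 𝕜] {E : Type*} [NormedAddCommGroup E] [NormedSpace 𝕜 E] {J : Type}

private theorem cts_bdd [CompleteSpace E] {f : J → E} (hf : Summable f) :
    ∃ C : ℝ, ∀ A : Finset J, ‖∑ j ∈ A, f j‖ ≤ C := by
  classical
  obtain ⟨A₀, hA₀⟩ := summable_iff_vanishing_norm.mp hf 1 zero_lt_one
  refine ⟨∑ j ∈ A₀, ‖f j‖ + 1, fun A => ?_⟩
  have h1 : ∑ j ∈ A, f j = ∑ j ∈ A ∩ A₀, f j + ∑ j ∈ A \ A₀, f j := by
    rw [← Finset.sum_union (Finset.disjoint_sdiff_inter A A₀).symm, Finset.union_comm,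
      Finset.sdiff_union_inter]
  rw [h1]
  refine (norm_add_le _ _).trans (add_le_add ?_ (hA₀ (A \ A₀) Finset.sdiff_disjoint).le)
  refine (norm_sum_le _ _).trans ?_
  exact Finset.sum_le_sum_of_subset_of_nonneg Finset.inter_subset_right
    (fun j _ _ => norm_nonneg _)

theorem exists_schauder [CompleteSpace E] {x : J → E} (hx : IsUncBasis 𝕜 x) :
    ∃ b : UnconditionalSchauderBasis J 𝕜 E, ∀ j, b j = x j := by
  classical
  obtain ⟨-, hx⟩ := hx
  choose a ha hauniq using hx
  simp only at ha hauniq
  have hadd : ∀ v w, a (v + w) = fun j => a v j + a w j := by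
    intro v w
    symm
    apply hauniq (v + w)
    have h := (ha v).add (ha w)
    simpa only [← add_smul] using h
  have hsmul : ∀ (r : 𝕜) v, a (r • v) = fun j => r * a v j := by
    intro r v
    symm
    apply hauniq (r • v)
    have h := (ha v).const_smul r
    simpa only [smul_smul] using h
  have hsingle : ∀ j, a (x j) = Pi.single j 1 := by
    intro j
    symm
    apply hauniq (x j)
    have h : HasSum (fun i => (Pi.single j (1 : 𝕜) : J → 𝕜) i • x i)
        ((Pi.single j (1 : 𝕜) : J → 𝕜) j • x j) := by
      apply hasSum_single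
      intro i hi
      rw [Pi.single_eq_of_ne hi, zero_smul]
    rwa [Pi.single_eq_same, one_smul] at h
  have hx0 : ∀ j, x j ≠ 0 := by
    intro j h0
    have h1 := hsingle j
    have h2 : a (0 : E) = fun _ => 0 := by
      symm
      apply hauniq 0
      simp only [zero_smul]
      exact hasSum_zero
    rw [h0, h2] at h1
    have h3 := congrFun h1 j
    rw [Pi.single_eq_same] at h3
    exact zero_ne_one h3
  -- the space of bounded functions
  have hmem : ∀ v : E, Memℓp (fun A : Finset J => ∑ j ∈ A, a v j • x j) ⊤ := by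
    intro v
    obtain ⟨C, hC⟩ := cts_bdd (ha v).summable
    apply memℓp_infty
    refine ⟨C, ?_⟩
    rintro _ ⟨A, rfl⟩
    exact hC A
  let T : E →ₗ[𝕜] lp (fun _ : Finset J => E) ⊤ :=
    { toFun := fun v => ⟨fun A => ∑ j ∈ A, a v j • x j, hmem v⟩
      map_add' := by
        intro v w
        apply lp.ext
        funext A
        rw [lp.coeFn_add]
        simp only [Pi.add_apply, hadd, add_smul, Finset.sum_add_distrib]
      map_smul' := by
        intro r v
        apply lp.ext
        funext A
        rw [RingHom.id_apply, lp.coeFn_smul]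
        simp only [Pi.smul_apply, hsmul, mul_smul, Finset.smul_sum] }
  have hT : ∀ v (A : Finset J), (T v : Finset J → E) A = ∑ j ∈ A, a v j • x j := fun v A => rfl
  have hcont : Continuous T := by
    apply LinearMap.continuous_of_seq_closed_graph
    intro u v F hu hF
    -- pointwise convergence
    have hpt : ∀ A : Finset J, Tendsto (fun n => ∑ j ∈ A, a (u n) j • x j) atTop
        (𝓝 ((F : Finset J → E) A)) := by
      intro A
      rw [tendsto_iff_norm_sub_tendsto_zero]
      have h1 := tendsto_iff_norm_sub_tendsto_zero.mp hF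
      refine squeeze_zero (fun n => norm_nonneg _) (fun n => ?_) h1
      have h2 := lp.norm_apply_le_norm ENNReal.top_ne_zero ((⇑T ∘ u) n - F) A
      rw [lp.coeFn_sub] at h2
      exact h2
    have hline : ∀ j, ∃ α : 𝕜, (F : Finset J → E) {j} = α • x j := by
      intro j
      have hcl : IsClosed ((Submodule.span 𝕜 {x j} : Submodule 𝕜 E) : Set E) :=
        Submodule.closed_of_finiteDimensional _
      have h1 := hpt {j}
      have h2 : (F : Finset J → E) {j} ∈ (Submodule.span 𝕜 {x j} : Submodule 𝕜 E) := by
        refine hcl.mem_of_tendsto h1 (Filter.Eventually.of_forall fun n => ?_)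
        rw [Finset.sum_singleton]
        exact Submodule.smul_mem _ _ (Submodule.mem_span_singleton_self _)
      obtain ⟨α, hα⟩ := Submodule.mem_span_singleton.mp h2
      exact ⟨α, hα.symm⟩
    choose α hα using hline
    have hFA : ∀ A : Finset J, (F : Finset J → E) A = ∑ j ∈ A, α j • x j := by
      intro A
      have h1 : Tendsto (fun n => ∑ j ∈ A, a (u n) j • x j) atTop
          (𝓝 (∑ j ∈ A, (F : Finset J → E) {j})) := by
        apply tendsto_finsetSum
        intro j _
        have h2 := hpt {j}
        simpa only [Finset.sum_singleton] using h2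
      rw [tendsto_nhds_unique (hpt A) h1]
      exact Finset.sum_congr rfl fun j _ => hα j
    have hsumα : HasSum (fun j => α j • x j) v := by
      rw [HasSum, SummationFilter.unconditional_filter, Metric.tendsto_atTop]
      intro ε hε
      have hε3 : 0 < ε / 3 := by positivity
      have hn1 := (Metric.tendsto_atTop.mp hu) (ε / 3) hε3
      have hn2 := (Metric.tendsto_atTop.mp hF) (ε / 3) hε3
      obtain ⟨N1, hN1⟩ := hn1
      obtain ⟨N2, hN2⟩ := hn2
      set n := max N1 N2 with hn
      have h1 := hN1 n (le_max_left _ _)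
      have h2 := hN2 n (le_max_right _ _)
      have h3 := ha (u n)
      rw [HasSum, SummationFilter.unconditional_filter, Metric.tendsto_atTop] at h3
      obtain ⟨A₀, hA₀⟩ := h3 (ε / 3) hε3
      refine ⟨A₀, fun A hA => ?_⟩
      have h4 := hA₀ A hA
      have h5 : dist (∑ j ∈ A, α j • x j) (∑ j ∈ A, a (u n) j • x j) < ε / 3 := by
        rw [← hFA A, dist_comm, dist_eq_norm]
        have h6 := lp.norm_apply_le_norm ENNReal.top_ne_zero ((⇑T ∘ u) n - F) A
        rw [lp.coeFn_sub] at h6
        rw [dist_eq_norm] at h2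
        exact h6.trans_lt h2
      calc dist (∑ j ∈ A, α j • x j) v ≤ dist (∑ j ∈ A, α j • x j) (∑ j ∈ A, a (u n) j • x j) +
            dist (∑ j ∈ A, a (u n) j • x j) (u n) + dist (u n) v := dist_triangle4 _ _ _ _
        _ < ε / 3 + ε / 3 + ε / 3 := by gcongr
        _ = ε := by ring
    have hαa : α = a v := hauniq v α hsumα
    apply lp.ext
    funext A
    rw [hFA, hT, hαa]
  -- the coordinates
  have hcoord : ∀ j, ∃ f : StrongDual 𝕜 E, ∀ v, f v = a v j := by
    intro j
    let T' : E →L[𝕜] lp (fun _ : Finset J => E) ⊤ := ⟨T, hcont⟩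
    have hxj : 0 < ‖x j‖ := norm_pos_iff.mpr (hx0 j)
    let f : E →ₗ[𝕜] 𝕜 :=
      { toFun := fun v => a v j
        map_add' := by
          intro v w
          rw [hadd]
        map_smul' := by
          intro r v
          rw [hsmul, RingHom.id_apply, smul_eq_mul] }
    refine ⟨f.mkContinuous (‖T'‖ / ‖x j‖) ?_, fun v => rfl⟩
    intro v
    have h1 : ‖a v j‖ * ‖x j‖ ≤ ‖T'‖ * ‖v‖ := by
      have h2 := lp.norm_apply_le_norm ENNReal.top_ne_zero (T v) {j}
      rw [hT, Finset.sum_singleton, norm_smul] at h2
      exact h2.trans (T'.le_opNorm v)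
    show ‖a v j‖ ≤ ‖T'‖ / ‖x j‖ * ‖v‖
    rw [div_mul_eq_mul_div, le_div_iff₀ hxj]
    exact h1
  choose f hf using hcoord
  refine ⟨{ basis := x, coord := f, ortho := ?_, expansion := ?_ }, fun j => rfl⟩
  · intro i j
    rw [hf, hsingle]
  · intro v
    simp only [hf]
    exact ha v

theorem isUncBasis_of_schauder [Countable J] (b : UnconditionalSchauderBasis J 𝕜 E) :
    IsUncBasis 𝕜 (fun j => b j) := by
  classical
  refine ⟨inferInstance, fun v => ⟨fun j => b.coord j v, b.expansion v, ?_⟩⟩
  intro a ha
  funext i
  have ha' : HasSum (fun j => a j • b j) v := ha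
  have h1 := ha'.mapL (b.coord i)
  have h2 : HasSum (fun j => b.coord i (a j • b j)) (a i) := by
    have h3 : (fun j => b.coord i (a j • b j)) = fun j => if j = i then a i else 0 := by
      funext j
      rw [map_smul, b.ortho, smul_eq_mul, Pi.single_apply]
      by_cases hij : j = i
      · subst hij
        simp
      · rw [if_neg hij, if_neg (fun h => hij h.symm), mul_zero]
    rw [h3]
    exact hasSum_ite_eq i _
  exact (h1.unique h2).symm

end Pool.Agent.UUB
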