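import Pool.Agent.UUB.MU2

/-!
# MU3: strong continuity and tails of compact operators

* `tendsto_mulOp_finset`: `mulOp_finset` and `hasSum_mulOp` (the finite partial sums of the series of
  `mulOp b c w`).
* `tendsto_S_compl`: `S b Aᶜ w = w - S b A w` and `b.expansion` (`S_finset`, `S_compl`).
* `continuous_mulOp_sgn`: let `K` be from `exists_norm_mulOp_le`. Fix `w` and `ε₀`. Given `η > 0`
  choose finite `A` with `‖S b Aᶜ w‖ ≤ η`. If `ε` agrees with `ε₀` on `A` (a neighbourhood of `ε₀` in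
  the product `J → Bool`), then `mulOp (sgn ε) w - mulOp (sgn ε₀) w = mulOp (sgn ε - sgn ε₀) w` only
  involves coordinates off `A`: it equals `mulOp (sgn ε - sgn ε₀) (S b Aᶜ w)`, of norm `≤ 2 K η`.
* `tendsto_S_compl_compact`: the image of the unit ball under the compact operator `T` lies in a
  compact set `C` (`IsCompactOperator.isCompact_closure_image_closedBall` or similar); the operators
  `S b Aᶜ` are bounded by `K` and tend to `0` pointwise along `atTop`, hence uniformly on `C` (finite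
  `η`-net of `C`): for large `A`, `‖S b Aᶜ (T w)‖ ≤ (K + 1) η` for all `‖w‖ ≤ 1`.
* `tendsto_R_compact`: the same argument: `R b n w → 0` along `cofinite` for each `w` (terms of a
  summable family, `Summable.tendsto_cofinite_zero`), `‖R b n‖ ≤ K`.
* `isCompactOperator_of_finiteDimensional`: a bounded operator with finite dimensional range is compact.
-/

namespace Pool.Agent.UUB

open Filter Topology Set

variable {𝕜 : Type*} [RCLike 𝕜] {W : Type*} [NormedAddCommGroup W] [NormedSpace 𝕜 W]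
  [CompleteSpace W] {J : Type} (b : UnconditionalSchauderBasis J 𝕜 W)

omit [CompleteSpace W] in
private theorem mu3_unif {ι : Type*} {l : Filter ι} (U : ι → W →L[𝕜] W) {K : ℝ}
    (hK : ∀ i, ‖U i‖ ≤ K) (hU : ∀ w, Tendsto (fun i => U i w) l (𝓝 0)) {T : W →L[𝕜] W}
    (hT : IsCompactOperator T) : Tendsto (fun i => ‖U i * T‖) l (𝓝 0) := by
  have hC : IsCompact (closure (T '' Metric.closedBall 0 1)) :=
    IsCompactOperator.isCompact_closure_image_closedBall (f := (T : W →ₗ[𝕜] W)) hT 1
  rw [Metric.tendsto_nhds]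
  intro η hη
  by_cases hne : Nonempty ι
  swap
  · rw [not_nonempty_iff] at hne
    exact Filter.Eventually.of_forall fun i => (hne.false i).elim
  have hK0 : 0 ≤ K := by
    obtain ⟨i⟩ := hne
    exact (norm_nonneg _).trans (hK i)
  set δ : ℝ := η / (2 * (K + 1)) with hδ
  have hδ0 : 0 < δ := by positivity
  obtain ⟨t, htf, ht⟩ := Metric.totallyBounded_iff.mp hC.totallyBounded δ hδ0
  have hev : ∀ᶠ i in l, ∀ x ∈ t, ‖U i x‖ < δ := by
    rw [Filter.eventually_all_finite htf]
    intro x _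
    have := (Metric.tendsto_nhds.mp (hU x)) δ hδ0
    simpa [dist_eq_norm] using this
  filter_upwards [hev] with i hi
  have hb : ‖U i * T‖ ≤ (K + 1) * δ := by
    refine ContinuousLinearMap.opNorm_le_bound _ (by positivity) fun w => ?_
    by_cases hw : w = 0
    · subst hw
      simp
    · have hw0 : 0 < ‖w‖ := norm_pos_iff.mpr hw
      set u : W := ((‖w‖⁻¹ : ℝ) : 𝕜) • w with hu
      have hun : ‖u‖ = 1 := by
        rw [hu, norm_smul, RCLike.norm_ofReal, abs_of_pos (inv_pos.mpr hw0),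
          inv_mul_cancel₀ hw0.ne']
      have hmem : T u ∈ closure (T '' Metric.closedBall 0 1) :=
        subset_closure ⟨u, by rw [mem_closedBall_zero_iff, hun], rfl⟩
      obtain ⟨x, hx, hxd⟩ := Set.mem_iUnion₂.mp (ht hmem)
      rw [Metric.mem_ball, dist_eq_norm] at hxd
      have h1 : ‖U i (T u)‖ ≤ (K + 1) * δ := by
        calc ‖U i (T u)‖ = ‖U i (T u - x) + U i x‖ := by rw [map_sub, sub_add_cancel]
          _ ≤ ‖U i (T u - x)‖ + ‖U i x‖ := norm_add_le _ _
          _ ≤ K * δ + δ := by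
              refine add_le_add (((U i).le_opNorm _).trans ?_) (hi x hx).le
              exact mul_le_mul (hK i) hxd.le (norm_nonneg _) hK0
          _ = (K + 1) * δ := by ring
      have hwu : w = ((‖w‖ : ℝ) : 𝕜) • u := by
        rw [hu, smul_smul, ← RCLike.ofReal_mul, mul_inv_cancel₀ hw0.ne', RCLike.ofReal_one,
          one_smul]
      have h2 : (U i * T) w = ((‖w‖ : ℝ) : 𝕜) • U i (T u) := by
        change U i (T w) = _
        conv_lhs => rw [hwu]
        rw [map_smul, map_smul]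
      rw [h2, norm_smul, RCLike.norm_ofReal, abs_of_pos hw0, mul_comm]
      exact mul_le_mul_of_nonneg_right h1 hw0.le
  rw [dist_zero_right, norm_norm]
  refine hb.trans_lt ?_
  rw [hδ]
  have : (K + 1) * (η / (2 * (K + 1))) = η / 2 := by
    field_simp
  rw [this]
  linarith

private theorem mu3_norm_S : ∃ K : ℝ, 1 ≤ K ∧ ∀ M : Set J, ‖S b M‖ ≤ K := by
  classical
  obtain ⟨K, hK1, hK⟩ := exists_norm_mulOp_le b
  refine ⟨K, hK1, fun M => ?_⟩
  have := hK (M.indicator fun _ => (1 : 𝕜)) 1 zero_le_one (fun j => by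
    by_cases h : j ∈ M
    · simp [h]
    · simp [h])
  rw [mul_one] at this
  exact this

omit [CompleteSpace W] in
private theorem mu3_exp (w : W) :
    Tendsto (fun A : Finset J => ∑ j ∈ A, b.coord j w • b j) atTop (𝓝 w) := by
  have h := b.expansion w
  simpa [HasSum] using h

theorem tendsto_mulOp_finset [DecidableEq J] {c : J → 𝕜} (hc : Bdd c) (w : W) :
    Tendsto (fun Φ : Finset J => (∑ j ∈ Φ, c j • R b j) w) atTop (𝓝 (mulOp b c w)) := by
  have h := hasSum_mulOp b hc w
  have h2 : Tendsto (fun Φ : Finset J => ∑ j ∈ Φ, (c j * b.coord j w) • b j) atTop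
      (𝓝 (mulOp b c w)) := by
    simpa [HasSum] using h
  refine h2.congr fun Φ => ?_
  rw [ContinuousLinearMap.sum_apply]
  refine Finset.sum_congr rfl fun j _ => ?_
  rw [ContinuousLinearMap.smul_apply, R_apply, smul_smul]

theorem tendsto_S_compl (w : W) :
    Tendsto (fun A : Finset J => S b ((A : Set J)ᶜ) w) atTop (𝓝 0) := by
  have h := (tendsto_const_nhds (x := w)).sub (mu3_exp b w)
  rw [sub_self] at h
  refine h.congr fun A => ?_
  rw [S_compl, S_finset, ContinuousLinearMap.sub_apply, ContinuousLinearMap.sum_apply]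
  rfl

theorem continuous_mulOp_sgn (w : W) :
    Continuous fun ε : J → Bool => mulOp b (sgn 𝕜 ε) w := by
  classical
  obtain ⟨K, hK1, hK⟩ := exists_norm_mulOp_le b
  rw [continuous_iff_continuousAt]
  intro ε₀
  unfold ContinuousAt
  rw [Metric.tendsto_nhds]
  intro η hη
  set δ : ℝ := η / (2 * K + 1) with hδ
  have hδ0 : 0 < δ := by positivity
  obtain ⟨A, hA⟩ := ((Metric.tendsto_nhds.mp (tendsto_S_compl b w)) δ hδ0).exists
  rw [dist_zero_right] at hA
  have hnb : ∀ᶠ ε : J → Bool in 𝓝 ε₀, ∀ j ∈ A, ε j = ε₀ j := by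
    rw [Filter.eventually_all_finset]
    intro j _
    have hc : ContinuousAt (fun ε : J → Bool => ε j) ε₀ := (continuous_apply j).continuousAt
    exact hc.eventually (eventually_of_mem (IsOpen.mem_nhds (isOpen_discrete {ε₀ j}) rfl)
      fun x hx => hx)
  filter_upwards [hnb] with ε hε
  have hs : ∀ ε : J → Bool, ‖mulOp b (sgn 𝕜 ε)‖ ≤ K := by
    intro ε
    have := hK (sgn 𝕜 ε) 1 zero_le_one (fun j => (norm_sgn (𝕜 := 𝕜) ε j).le)
    rw [mul_one] at this
    exact this
  have hd : mulOp b (sgn 𝕜 ε) w - mulOp b (sgn 𝕜 ε₀) w =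
      mulOp b (sgn 𝕜 ε) (S b ((A : Set J)ᶜ) w) - mulOp b (sgn 𝕜 ε₀) (S b ((A : Set J)ᶜ) w) := by
    refine ext_coord b fun j => ?_
    rw [map_sub, map_sub, coord_mulOp b (bdd_sgn ε), coord_mulOp b (bdd_sgn ε₀),
      coord_mulOp b (bdd_sgn ε), coord_mulOp b (bdd_sgn ε₀)]
    by_cases hj : j ∈ A
    · rw [coord_S_notMem b (show j ∉ ((A : Set J)ᶜ) from fun h => h (by simpa using hj))]
      have : sgn 𝕜 ε j = sgn 𝕜 ε₀ j := by
        unfold sgn
        rw [hε j hj]
      rw [this]
      ring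
    · rw [coord_S_mem b (show j ∈ ((A : Set J)ᶜ) from fun h => hj (by simpa using h))]
  rw [dist_eq_norm, hd]
  have hk : ∀ ε : J → Bool, ‖mulOp b (sgn 𝕜 ε) (S b ((A : Set J)ᶜ) w)‖ ≤ K * δ := by
    intro ε
    refine ((mulOp b (sgn 𝕜 ε)).le_opNorm _).trans ?_
    exact mul_le_mul (hs ε) hA.le (norm_nonneg _) (by linarith)
  calc _ ≤ ‖mulOp b (sgn 𝕜 ε) (S b ((A : Set J)ᶜ) w)‖ +
        ‖mulOp b (sgn 𝕜 ε₀) (S b ((A : Set J)ᶜ) w)‖ := norm_sub_le _ _
    _ ≤ K * δ + K * δ := add_le_add (hk ε) (hk ε₀)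
    _ < (2 * K + 1) * δ := by nlinarith
    _ = η := by rw [hδ]; field_simp

theorem tendsto_S_compl_compact {T : W →L[𝕜] W} (hT : IsCompactOperator T) :
    Tendsto (fun A : Finset J => ‖S b ((A : Set J)ᶜ) * T‖) atTop (𝓝 0) := by
  obtain ⟨K, _, hK⟩ := mu3_norm_S b
  exact mu3_unif (fun A : Finset J => S b ((A : Set J)ᶜ)) (fun A => hK _)
    (fun w => tendsto_S_compl b w) hT

theorem tendsto_R_compact {T : W →L[𝕜] W} (hT : IsCompactOperator T) :
    Tendsto (fun n : J => ‖R b n * T‖) cofinite (𝓝 0) := by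
  obtain ⟨K, _, hK⟩ := exists_norm_R_le b
  exact mu3_unif (fun n : J => R b n) hK
    (fun w => (b.expansion w).summable.tendsto_cofinite_zero) hT

omit [CompleteSpace W] in
theorem isCompactOperator_of_finiteDimensional {T : W →L[𝕜] W}
    (hT : FiniteDimensional 𝕜 (Rg T)) : IsCompactOperator T := by
  have hp : ProperSpace (Rg T) := FiniteDimensional.proper_rclike 𝕜 (Rg T)
  have h1 : IsCompactOperator (T.codRestrict (Rg T) (fun x => ⟨x, rfl⟩)) :=
    isCompactOperator_of_locallyCompactSpace_dom _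
  exact h1.clm_comp (Submodule.subtypeL (Rg T))

end Pool.Agent.UUB
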