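import Pool.Agent.UUB.MU2

/-!
# ABS: squares and absorption

PROOF of `square`. For `i ∈ {0, 1}` apply `hb.up` with `A k = {2 k + i}`, `z k = b (2 k + i)`: `U_i` with
`U_i (b k) = b (2 k + i)`; and `hb.down` with the same sets and `φ k = b.coord (2 k + i)` (norm `≤ 1`:
`‖b.coord n y‖ = ‖S b {n} y‖ ≤ ‖y‖`): `V_i` with `b.coord k (V_i y) = b.coord (2 k + i) y`. Two continuous
functionals which agree on all `b k` are equal (`b.expansion`), so `b.coord (2 k + i) (U_i y) = b.coord k y`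
and `b.coord (2 k + 1 - i) (U_i y) = 0`. Comparing coordinates (`ext_coord`): `V_i (U_i y) = y`,
`V_i (U_{1-i} y) = 0`, `U_0 (V_0 y) + U_1 (V_1 y) = y`. So `y ↦ (V_0 y, V_1 y)` is an isomorphism with
inverse `(y, y') ↦ U_0 y + U_1 y'`.

PROOF of `absorb`. `X ≃ ker q × Y` by `x ↦ (x - j (q x), q x)`, inverse `(k, y) ↦ k + j y`. So
`X × Y ≃ ker q × (Y × Y) ≃ ker q × Y ≃ X`.
-/

namespace Pool.Agent.UUB

open Filter Topology Set

variable {𝕜 : Type*} [RCLike 𝕜] {X : Type*} [NormedAddCommGroup X] [NormedSpace 𝕜 X]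
  {Y : Type*} [NormedAddCommGroup Y] [NormedSpace 𝕜 Y]

theorem abs_fun_ext {J : Type} (b : UnconditionalSchauderBasis J 𝕜 Y) (f g : StrongDual 𝕜 Y)
    (h : ∀ m, f (b m) = g (b m)) (y : Y) : f y = g y := by
  have h1 := (b.expansion y).mapL f
  have h2 := (b.expansion y).mapL g
  have h3 : (fun i => f (b.coord i y • b i)) = fun i => g (b.coord i y • b i) := by
    funext i
    simp [h i]
  rw [h3] at h1
  exact h1.unique h2

theorem abs_coord_norm [CompleteSpace Y] (b : UnconditionalSchauderBasis ℕ 𝕜 Y)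
    (hb : BlockBasis b) (n : ℕ) : ‖b.coord n‖ ≤ 1 := by
  refine ContinuousLinearMap.opNorm_le_bound _ zero_le_one fun y => ?_
  have h1 : S b (({n} : Finset ℕ) : Set ℕ) y = b.coord n y • b n := by
    rw [S_finset, Finset.sum_singleton, R_apply]
  have h2 : ‖S b (({n} : Finset ℕ) : Set ℕ) y‖ = ‖b.coord n y‖ := by
    rw [h1, norm_smul, hb.norm_basis, mul_one]
  rw [← h2]
  refine (ContinuousLinearMap.le_opNorm _ _).trans ?_
  exact mul_le_mul_of_nonneg_right (hb.supp _) (norm_nonneg _)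

theorem abs_ortho (b : UnconditionalSchauderBasis ℕ 𝕜 Y) (m k : ℕ) :
    b.coord m (b k) = if m = k then 1 else 0 := by
  simp [b.ortho, Pi.single_apply]

theorem abs_exists_UV [CompleteSpace Y] (b : UnconditionalSchauderBasis ℕ 𝕜 Y)
    (hb : BlockBasis b) (i : ℕ) (hi : i < 2) : ∃ U V : Y →L[𝕜] Y,
      (∀ k y, b.coord (2 * k + i) (U y) = b.coord k y) ∧
      (∀ k l y, l < 2 → l ≠ i → b.coord (2 * k + l) (U y) = 0) ∧
      (∀ k y, b.coord k (V y) = b.coord (2 * k + i) y) := by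
  have hdis : ∀ k l : ℕ, k ≠ l → Disjoint (({2 * k + i} : Finset ℕ)) ({2 * l + i} : Finset ℕ) := by
    intro k l hkl
    rw [Finset.disjoint_singleton]
    omega
  obtain ⟨U, -, hU⟩ := hb.up (fun k => {2 * k + i}) (fun k => b (2 * k + i)) hdis
    (fun k => (hb.norm_basis _).le) (fun k => by
      apply S_basis_mem
      simp)
  obtain ⟨V, -, hV⟩ := hb.down (fun k => {2 * k + i}) (fun k => b.coord (2 * k + i)) hdis
    (fun k => abs_coord_norm b hb _) (fun k y => by
      apply coord_S_mem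
      simp)
  refine ⟨U, V, fun k y => ?_, fun k l y hl hli => ?_, hV⟩
  · refine abs_fun_ext b ((b.coord (2 * k + i)).comp U) (b.coord k) (fun m => ?_) y
    rw [ContinuousLinearMap.comp_apply, hU, abs_ortho, abs_ortho]
    by_cases hkm : k = m
    · rw [if_pos hkm, if_pos (by omega)]
    · rw [if_neg hkm, if_neg (by omega)]
  · refine abs_fun_ext b ((b.coord (2 * k + l)).comp U) 0 (fun m => ?_) y
    rw [ContinuousLinearMap.comp_apply, hU, abs_ortho, if_neg (by omega)]
    rfl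

theorem square [CompleteSpace Y] (b : UnconditionalSchauderBasis ℕ 𝕜 Y) (hb : BlockBasis b) :
    Nonempty (Y ≃L[𝕜] (Y × Y)) := by
  obtain ⟨U₀, V₀, h00, h01, hV0⟩ := abs_exists_UV b hb 0 (by norm_num)
  obtain ⟨U₁, V₁, h11, h10, hV1⟩ := abs_exists_UV b hb 1 (by norm_num)
  have e01 : ∀ k y, b.coord (2 * k + 1) (U₀ y) = 0 := fun k y => h01 k 1 y (by norm_num) (by norm_num)
  have e10 : ∀ k y, b.coord (2 * k + 0) (U₁ y) = 0 := fun k y => h10 k 0 y (by norm_num) (by norm_num)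
  refine ⟨ContinuousLinearEquiv.equivOfInverse (V₀.prod V₁) (U₀.coprod U₁) ?_ ?_⟩
  · intro y
    rw [ContinuousLinearMap.prod_apply, ContinuousLinearMap.coprod_apply]
    apply ext_coord b
    intro j
    rw [map_add]
    rcases Nat.even_or_odd' j with ⟨k, rfl | rfl⟩
    · have a1 := h00 k (V₀ y)
      have a2 := e10 k (V₁ y)
      have a3 := hV0 k y
      rw [Nat.add_zero] at a1 a2 a3
      rw [a1, a2, a3, add_zero]
    · rw [e01, h11, hV1, zero_add]
  · rintro ⟨y, y'⟩
    rw [ContinuousLinearMap.coprod_apply, ContinuousLinearMap.prod_apply]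
    refine Prod.ext ?_ ?_
    · apply ext_coord b
      intro k
      show b.coord k (V₀ (U₀ y + U₁ y')) = b.coord k y
      rw [hV0, map_add, h00, e10, add_zero]
    · apply ext_coord b
      intro k
      show b.coord k (V₁ (U₀ y + U₁ y')) = b.coord k y'
      rw [hV1, map_add, e01, h11, zero_add]

theorem absorb (h : Nonempty (Y ≃L[𝕜] (Y × Y))) (j : Y →L[𝕜] X) (q : X →L[𝕜] Y)
    (hjq : q.comp j = ContinuousLinearMap.id 𝕜 Y) : Nonempty ((X × Y) ≃L[𝕜] X) := by
  obtain ⟨e⟩ := h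
  have hr : Function.RightInverse j q := fun y => by
    have := DFunLike.congr_fun hjq y
    simpa using this
  let E := ContinuousLinearEquiv.equivOfRightInverse q j hr
  -- `X × Y ≃ (Y × K) × Y ≃ (K × Y) × Y ≃ K × (Y × Y) ≃ K × Y ≃ Y × K ≃ X`
  exact ⟨(((((E.prodCongr (ContinuousLinearEquiv.refl 𝕜 Y)).trans
    ((ContinuousLinearEquiv.prodComm 𝕜 _ _).prodCongr (ContinuousLinearEquiv.refl 𝕜 Y))).trans
    (ContinuousLinearEquiv.prodAssoc 𝕜 _ _ _)).trans
    ((ContinuousLinearEquiv.refl 𝕜 _).prodCongr e.symm)).trans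
    (ContinuousLinearEquiv.prodComm 𝕜 _ _)).trans E.symm⟩

end Pool.Agent.UUB
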