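import Pool.Agent.UUB.MU3

/-!
# ADJ: moving finitely many basis vectors

* `kr_S`: `Kr (S b M) = Rg (S b Mᶜ)`: `S b M w = 0` iff `w = S b Mᶜ w` (`S_compl`, `S_idem`).
* `move`: for a finite set `Φ` disjoint from `M`: `Rg (S b (M ∪ Φ)) ≃ Rg (S b M) × Rg (S b Φ)` by
  `w ↦ (S b M w, S b Φ w)`, inverse the sum (`S b (M ∪ Φ) = S b M + S b Φ`; compare coordinates), and
  `Rg (S b Φ)` has dimension `Φ.card`: the `b j`, `j ∈ Φ`, are linearly independent
  (`b.linearIndependent`) and span it (`S_finset`; see also `GeneralSchauderBasis.finrank_range_proj`,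
  `GeneralSchauderBasis.proj` is the same sum). Then `ContinuousLinearEquiv.ofFinrankEq`.
* `exists_sub`: if `M` is infinite, take any `k` elements (`Set.Infinite.exists_subset_card_eq`). If `M` is
  finite, `Rg (S b M)` has dimension `M.ncard` (as above) and, being isomorphic to `A × 𝕜^k`, dimension
  `≥ k`; take a subset of size `k`.
-/

namespace Pool.Agent.UUB

open Filter Topology Set

variable {𝕜 : Type*} [RCLike 𝕜] {W : Type*} [NormedAddCommGroup W] [NormedSpace 𝕜 W]
  [CompleteSpace W] {J : Type} (b : UnconditionalSchauderBasis J 𝕜 W)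

private theorem adj_empty : S b (∅ : Set J) = 0 := by
  ext w
  refine ext_coord b fun j => ?_
  rw [coord_S_notMem b (Set.notMem_empty j)]
  simp

private theorem adj_union {M N : Set J} (h : Disjoint M N) : S b (M ∪ N) = S b M + S b N := by
  ext w
  refine ext_coord b fun j => ?_
  rw [add_apply, map_add]
  by_cases hM : j ∈ M
  · have hN : j ∉ N := fun hN => Set.disjoint_left.1 h hM hN
    rw [coord_S_mem b (Set.mem_union_left _ hM), coord_S_mem b hM, coord_S_notMem b hN, add_zero]
  · by_cases hN : j ∈ N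
    · rw [coord_S_mem b (Set.mem_union_right _ hN), coord_S_mem b hN, coord_S_notMem b hM,
        zero_add]
    · have hMN : j ∉ M ∪ N := by
        rintro (h | h)
        · exact hM h
        · exact hN h
      rw [coord_S_notMem b hMN, coord_S_notMem b hM, coord_S_notMem b hN, add_zero]

private theorem adj_sub_apply {M N : Set J} (h : M ⊆ N) (w : W) : S b N (S b M w) = S b M w := by
  have h1 := S_mul_S b N M
  rw [Set.inter_eq_self_of_subset_right h] at h1
  exact DFunLike.congr_fun h1 w

private theorem adj_disj_apply {M N : Set J} (h : Disjoint M N) (w : W) : S b N (S b M w) = 0 := by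
  have h1 := S_mul_S b N M
  rw [Set.disjoint_iff_inter_eq_empty.1 h.symm, adj_empty] at h1
  exact DFunLike.congr_fun h1 w

private theorem adj_S_proj (A : Finset J) : S b (A : Set J) = b.proj A := by
  rw [S_finset]; rfl

private theorem adj_finrank (A : Finset J) :
    Module.finrank 𝕜 (Rg (S b (A : Set J))) = A.card := by
  have h := GeneralSchauderBasis.finrank_range_proj b A
  rw [← adj_S_proj] at h
  exact h

theorem kr_S (M : Set J) : Kr (S b M) = Rg (S b Mᶜ) := by
  ext w
  constructor
  · intro h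
    have h1 : S b M w = 0 := h
    refine ⟨w, ?_⟩
    change S b Mᶜ w = w
    rw [S_compl]
    simp [h1]
  · rintro ⟨v, rfl⟩
    change S b M (S b Mᶜ v) = 0
    exact adj_disj_apply b disjoint_compl_left v

private noncomputable def adjF (M N : Set J) :
    Rg (S b (M ∪ N)) →L[𝕜] (Rg (S b M) × Rg (S b N)) :=
  (((S b M).codRestrict (Rg (S b M)) (fun w => ⟨w, rfl⟩)).prod
    ((S b N).codRestrict (Rg (S b N)) (fun w => ⟨w, rfl⟩))).comp (Rg (S b (M ∪ N))).subtypeL

private theorem adj_mem (M N : Set J) (p : Rg (S b M) × Rg (S b N)) :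
    (p.1 : W) + (p.2 : W) ∈ Rg (S b (M ∪ N)) := by
  obtain ⟨⟨_, v, rfl⟩, ⟨_, w, rfl⟩⟩ := p
  refine ⟨S b M v + S b N w, ?_⟩
  change S b (M ∪ N) (S b M v + S b N w) = S b M v + S b N w
  rw [map_add, adj_sub_apply b Set.subset_union_left, adj_sub_apply b Set.subset_union_right]

private noncomputable def adjG (M N : Set J) :
    (Rg (S b M) × Rg (S b N)) →L[𝕜] Rg (S b (M ∪ N)) :=
  ((Rg (S b M)).subtypeL.coprod (Rg (S b N)).subtypeL).codRestrict (Rg (S b (M ∪ N)))
    (fun p => adj_mem b M N p)

private noncomputable def adjE {M N : Set J} (h : Disjoint M N) :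
    Rg (S b (M ∪ N)) ≃L[𝕜] (Rg (S b M) × Rg (S b N)) :=
  ContinuousLinearEquiv.equivOfInverse (adjF b M N) (adjG b M N)
    (by
      rintro ⟨_, w, rfl⟩
      apply Subtype.ext
      change S b M (S b (M ∪ N) w) + S b N (S b (M ∪ N) w) = S b (M ∪ N) w
      have h1 : (S b M + S b N) (S b (M ∪ N) w) = S b (M ∪ N) w := by
        rw [← adj_union b h]
        exact adj_sub_apply b subset_rfl w
      exact h1)
    (by
      rintro ⟨⟨_, v, rfl⟩, ⟨_, w, rfl⟩⟩
      apply Prod.ext
      · apply Subtype.ext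
        change S b M (S b M v + S b N w) = S b M v
        rw [map_add, adj_sub_apply b subset_rfl, adj_disj_apply b h.symm, add_zero]
      · apply Subtype.ext
        change S b N (S b M v + S b N w) = S b N w
        rw [map_add, adj_sub_apply b subset_rfl, adj_disj_apply b h, zero_add])

theorem move (M : Set J) (Φ : Finset J) (h : Disjoint M (Φ : Set J)) :
    Nonempty (Rg (S b (M ∪ Φ)) ≃L[𝕜] (Rg (S b M) × (Fin Φ.card → 𝕜))) := by
  have hfin : FiniteDimensional 𝕜 (Rg (S b (Φ : Set J))) := finiteDimensional_S_finset b Φ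
  have e2 : Rg (S b (Φ : Set J)) ≃L[𝕜] (Fin Φ.card → 𝕜) :=
    ContinuousLinearEquiv.ofFinrankEq (by rw [adj_finrank, Module.finrank_fin_fun])
  exact ⟨(adjE b h).trans ((ContinuousLinearEquiv.refl 𝕜 _).prodCongr e2)⟩

theorem exists_sub (M : Set J) {A : Type*} [NormedAddCommGroup A] [NormedSpace 𝕜 A] {k : ℕ}
    (e : Rg (S b M) ≃L[𝕜] (A × (Fin k → 𝕜))) :
    ∃ Φ : Finset J, (Φ : Set J) ⊆ M ∧ Φ.card = k := by
  by_cases hM : M.Finite
  · have hA : ((hM.toFinset : Finset J) : Set J) = M := hM.coe_toFinset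
    have hfin : FiniteDimensional 𝕜 (Rg (S b M)) := by
      have := finiteDimensional_S_finset b hM.toFinset
      rwa [hA] at this
    have hrk : Module.finrank 𝕜 (Rg (S b M)) = hM.toFinset.card := by
      have := adj_finrank b hM.toFinset
      rwa [hA] at this
    have hle : Module.finrank 𝕜 (Fin k → 𝕜) ≤ Module.finrank 𝕜 (Rg (S b M)) := by
      refine LinearMap.finrank_le_finrank_of_injective
        (f := e.symm.toLinearEquiv.toLinearMap ∘ₗ LinearMap.inr 𝕜 A (Fin k → 𝕜)) ?_
      intro x y hxy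
      have h1 : e.symm ((0 : A), x) = e.symm ((0 : A), y) := hxy
      have h2 := e.symm.injective h1
      exact (Prod.mk.inj h2).2
    rw [hrk, Module.finrank_fin_fun] at hle
    obtain ⟨Φ, hΦ, hc⟩ := Finset.exists_subset_card_eq hle
    refine ⟨Φ, ?_, hc⟩
    rw [← hA]
    exact_mod_cast hΦ
  · obtain ⟨t, ht, hc⟩ := Set.Infinite.exists_subset_card_eq hM k
    exact ⟨t, ht, hc⟩

end Pool.Agent.UUB
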