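import Pool.Agent.UUB.MU3

/-!
# ALG: the algebra of the two idempotents

Products of operators are compositions. `Frame` collects the data of the construction.

`H` commutes with `P`: `P * (1 - T) = P - T = (1 - T) * P`; multiply by `H` on both sides.

With `p = P - π` (`p * p = p`, `P * p = p = p * P`), `E = Qd * p * H * P` and `Γ = (1 - E) * Qd`:
`E * E = Qd * p * (H * P * Qd * p) * H * P = Qd * p * p * H * P = E`; `Qd * E = E`;
`Γ * Γ = (1 - E) * (Qd - E) * Qd = (1 - E) * (1 - E) * Qd = Γ` (as `Qd - E = (1 - E)` after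
multiplication by `Qd` on the right with `Qd * Qd = Qd`: `(Qd - E) * Qd = Qd - E * Qd`), `Qd * Γ = Γ`,
`Γ * Qd = Γ`, `E * Γ = 0`, `Γ * E = (1 - E) * Qd * E = (1 - E) * E = 0`.
`p * H * P * E = p * (H * P * Qd * p) * H * P = p * H * P`, so `p * H * P * (1 - E) = 0` and
`p * H * P * Γ = 0`. As `H * P = P * H * P` this says `H * P * Γ = π * H * P * Γ`; multiply by
`(1 - T)` on the left: `P * Γ = (1 - T) * π * H * P * Γ`, which has finite dimensional range.
(`noncomm_ring` may help; otherwise apply both sides to a vector or use `calc` with the rules.)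
-/

namespace Pool.Agent.UUB

open Filter Topology Set

variable {𝕜 : Type*} [RCLike 𝕜] {W : Type*} [NormedAddCommGroup W] [NormedSpace 𝕜 W]

structure Frame (P Qd T H π : W →L[𝕜] W) : Prop where
  hP : P * P = P
  hQ : Qd * Qd = Qd
  hπ : π * π = π
  Pπ : P * π = π
  πP : π * P = π
  PT : P * T = T
  TP : T * P = T
  HT : H * (1 - T) = 1
  TH : (1 - T) * H = 1
  key : H * P * Qd * (P - π) = P - π
  fin : FiniteDimensional 𝕜 (Rg π)

/-- The idempotent `E`. -/
def Eop (P Qd H π : W →L[𝕜] W) : W →L[𝕜] W := Qd * (P - π) * H * P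

/-- The idempotent `Γ`. -/
def Gop (P Qd H π : W →L[𝕜] W) : W →L[𝕜] W := (1 - Eop P Qd H π) * Qd

namespace Frame

variable {P Qd T H π : W →L[𝕜] W} (F : Frame P Qd T H π)

include F

theorem HP : H * P = P * H := by
  have h1 : P * (1 - T) = (1 - T) * P := by
    rw [mul_sub, sub_mul, F.PT, F.TP, mul_one, one_mul]
  calc H * P = H * P * ((1 - T) * H) := by rw [F.TH, mul_one]
    _ = H * (P * (1 - T)) * H := by simp only [mul_assoc]
    _ = H * ((1 - T) * P) * H := by rw [h1]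
    _ = (H * (1 - T)) * (P * H) := by simp only [mul_assoc]
    _ = P * H := by rw [F.HT, one_mul]

theorem p_idem : (P - π) * (P - π) = P - π := by
  rw [mul_sub, sub_mul, sub_mul, F.hP, F.πP, F.Pπ, F.hπ, sub_self, sub_zero]

theorem E_idem : Eop P Qd H π * Eop P Qd H π = Eop P Qd H π := by
  unfold Eop
  calc Qd * (P - π) * H * P * (Qd * (P - π) * H * P)
      = Qd * (P - π) * (H * P * Qd * (P - π)) * H * P := by simp only [mul_assoc]
    _ = Qd * ((P - π) * (P - π)) * H * P := by rw [F.key]; simp only [mul_assoc]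
    _ = Qd * (P - π) * H * P := by rw [F.p_idem]

theorem Q_E : Qd * Eop P Qd H π = Eop P Qd H π := by
  unfold Eop
  calc Qd * (Qd * (P - π) * H * P) = (Qd * Qd) * (P - π) * H * P := by simp only [mul_assoc]
    _ = _ := by rw [F.hQ]

private theorem one_sub_E : (1 - Eop P Qd H π) * (1 - Eop P Qd H π) = 1 - Eop P Qd H π := by
  rw [mul_sub, mul_one, sub_mul, one_mul, F.E_idem, sub_self, sub_zero]

theorem Q_G : Qd * Gop P Qd H π = Gop P Qd H π := by
  unfold Gop
  calc Qd * ((1 - Eop P Qd H π) * Qd) = (Qd - Qd * Eop P Qd H π) * Qd := by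
        rw [← mul_assoc, mul_sub, mul_one]
    _ = (Qd - Eop P Qd H π) * Qd := by rw [F.Q_E]
    _ = (1 - Eop P Qd H π) * Qd := by rw [sub_mul, sub_mul, F.hQ, one_mul]

theorem G_idem : Gop P Qd H π * Gop P Qd H π = Gop P Qd H π := by
  have h1 := F.Q_G
  calc Gop P Qd H π * Gop P Qd H π = (1 - Eop P Qd H π) * (Qd * Gop P Qd H π) := by
        rw [← mul_assoc]; rfl
    _ = (1 - Eop P Qd H π) * Gop P Qd H π := by rw [h1]
    _ = (1 - Eop P Qd H π) * (1 - Eop P Qd H π) * Qd := by unfold Gop; rw [mul_assoc]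
    _ = Gop P Qd H π := by rw [F.one_sub_E]; rfl

theorem G_Q : Gop P Qd H π * Qd = Gop P Qd H π := by
  unfold Gop
  rw [mul_assoc, F.hQ]

theorem E_G : Eop P Qd H π * Gop P Qd H π = 0 := by
  unfold Gop
  rw [← mul_assoc, mul_sub, mul_one, F.E_idem, sub_self, zero_mul]

theorem G_E : Gop P Qd H π * Eop P Qd H π = 0 := by
  unfold Gop
  rw [mul_assoc, F.Q_E, sub_mul, one_mul, F.E_idem, sub_self]

theorem P_G : P * Gop P Qd H π = (1 - T) * π * H * P * Gop P Qd H π := by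
  have h1 : (P - π) * H * P * Eop P Qd H π = (P - π) * H * P := by
    unfold Eop
    calc (P - π) * H * P * (Qd * (P - π) * H * P)
        = (P - π) * (H * P * Qd * (P - π)) * H * P := by simp only [mul_assoc]
      _ = ((P - π) * (P - π)) * H * P := by rw [F.key]
      _ = (P - π) * H * P := by rw [F.p_idem]
  have h2 : (P - π) * H * P * Gop P Qd H π = 0 := by
    unfold Gop
    rw [← mul_assoc, mul_sub, mul_one, h1, sub_self, zero_mul]
  have h3 : P * H * P = H * P := by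
    rw [← F.HP, mul_assoc, F.hP]
  have h4 : H * P * Gop P Qd H π = π * H * P * Gop P Qd H π := by
    have h5 : (P - π) * H * P * Gop P Qd H π =
        P * H * P * Gop P Qd H π - π * H * P * Gop P Qd H π := by
      rw [sub_mul, sub_mul, sub_mul]
    rw [h5, h3] at h2
    exact sub_eq_zero.1 h2
  calc P * Gop P Qd H π = ((1 - T) * H) * (P * Gop P Qd H π) := by rw [F.TH, one_mul]
    _ = (1 - T) * (H * P * Gop P Qd H π) := by simp only [mul_assoc]
    _ = (1 - T) * (π * H * P * Gop P Qd H π) := by rw [h4]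
    _ = _ := by simp only [mul_assoc]

theorem finite_PG : FiniteDimensional 𝕜 (Rg (P * Gop P Qd H π)) := by
  have hf := F.fin
  rw [F.P_G]
  have h1 : Rg ((1 - T) * π * H * P * Gop P Qd H π) ≤
      (Rg π).map (1 - T : W →L[𝕜] W).toLinearMap := by
    rintro _ ⟨w, rfl⟩
    refine ⟨π (H (P (Gop P Qd H π w))), ⟨_, rfl⟩, rfl⟩
  exact Submodule.finiteDimensional_of_le h1

/-- `‖H‖ ≤ 2` and `‖H - 1‖ ≤ 2 ‖T‖` when `‖T‖ ≤ 1 / 2` (`H = 1 + T * H`, `‖1‖ ≤ 1`) -/
theorem norm_H (hT : ‖T‖ ≤ 1 / 2) : ‖H‖ ≤ 2 ∧ ‖H - 1‖ ≤ 2 * ‖T‖ := by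
  have h1 : H - 1 = T * H := by
    have h2 := F.TH
    rw [sub_mul, one_mul] at h2
    rw [← h2]
    abel
  have h3 : ‖T * H‖ ≤ ‖T‖ * ‖H‖ := ContinuousLinearMap.opNorm_comp_le T H
  have h4 : ‖H‖ ≤ 1 + ‖T * H‖ := by
    have h5 : H = 1 + T * H := by
      rw [← h1]
      abel
    calc ‖H‖ = ‖1 + T * H‖ := by rw [← h5]
      _ ≤ ‖(1 : W →L[𝕜] W)‖ + ‖T * H‖ := norm_add_le _ _
      _ ≤ 1 + ‖T * H‖ := by
        have : ‖(1 : W →L[𝕜] W)‖ ≤ 1 := ContinuousLinearMap.norm_id_le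
        linarith
  have h6 : ‖T‖ * ‖H‖ ≤ 1 / 2 * ‖H‖ := mul_le_mul_of_nonneg_right hT (norm_nonneg _)
  have h7 : ‖H‖ ≤ 2 := by linarith
  refine ⟨h7, ?_⟩
  rw [h1]
  calc ‖T * H‖ ≤ ‖T‖ * ‖H‖ := h3
    _ ≤ ‖T‖ * 2 := mul_le_mul_of_nonneg_left h7 (norm_nonneg _)
    _ = 2 * ‖T‖ := mul_comm _ _

end Frame

end Pool.Agent.UUB
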