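import Pool.Agent.UUB.ALG

/-!
# ALX: existence of a frame

PROOF of `exists_frame`. Since `‖T‖ ≤ 1 / 2` and `W` is complete, `1 - T` is invertible with a two-sided
inverse `H` (`Units.oneSub`, `NormedRing`; or a Neumann series). `R'` has finite dimensional range, so
there is a continuous linear `σ : Rg R' → W` with `R' (σ y) = y` for `y ∈ Rg R'` (a linear section of the
surjection `W → Rg R'` exists, `LinearMap.exists_rightInverse_of_surjective`, and linear maps on finite
dimensional spaces are continuous, `LinearMap.toContinuousLinearMap`). Put `π w = P (σ (R' w))`. Then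
`R' * π = R'` because `R' * P = R'`, hence `π * π = π`; `P * π = π` and `π * P = π` are clear; the range of
`π` is contained in the image under `P ∘ σ` of the finite dimensional `Rg R'`.
`key`: `P * Qd * P = P - P * (1 - Qd) * P = P - T - R'` and `T = T * P`, so with `p = P - π`
(`P * p = p`, `R' * p = R' * P - R' * π = 0`) `P * Qd * p = P * Qd * P * p = p - T * p = (1 - T) * p`,
and multiply by `H`.
-/

namespace Pool.Agent.UUB

open Filter Topology Set

variable {𝕜 : Type*} [RCLike 𝕜] {W : Type*} [NormedAddCommGroup W] [NormedSpace 𝕜 W]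

theorem exists_frame [CompleteSpace W] {P Qd T R' : W →L[𝕜] W} (hP : P * P = P)
    (hQ : Qd * Qd = Qd) (h : P * (1 - Qd) * P = T + R') (hT : ‖T‖ ≤ 1 / 2) (h1 : P * T = T)
    (h2 : T * P = T) (h3 : P * R' = R') (h4 : R' * P = R') (h5 : FiniteDimensional 𝕜 (Rg R')) :
    ∃ H π : W →L[𝕜] W, Frame P Qd T H π := by
  have hT1 : ‖T‖ < 1 := lt_of_le_of_lt hT (by norm_num)
  set u : (W →L[𝕜] W)ˣ := Units.oneSub T hT1 with hu
  have huv : (u : W →L[𝕜] W) = 1 - T := by rw [hu, Units.val_oneSub]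
  have hHT : (↑u⁻¹ : W →L[𝕜] W) * (1 - T) = 1 := by rw [← huv, Units.inv_mul]
  have hTH : (1 - T) * (↑u⁻¹ : W →L[𝕜] W) = 1 := by rw [← huv, Units.mul_inv]
  -- a section of `R'`
  have hsurj : Function.Surjective (LinearMap.rangeRestrict R'.toLinearMap) :=
    LinearMap.surjective_rangeRestrict _
  obtain ⟨g, hg⟩ := LinearMap.exists_rightInverse_of_surjective
    (LinearMap.rangeRestrict R'.toLinearMap) (LinearMap.range_eq_top.mpr hsurj)
  have := h5
  let σ : Rg R' →L[𝕜] W := LinearMap.toContinuousLinearMap g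
  let ρ : W →L[𝕜] Rg R' := R'.codRestrict (Rg R') (fun w => ⟨w, rfl⟩)
  have hρ : ∀ w, ((ρ w : Rg R') : W) = R' w := fun w => rfl
  have hσ : ∀ y : Rg R', R' (σ y) = (y : W) := by
    intro y
    have h := LinearMap.congr_fun hg y
    have h' := congrArg Subtype.val h
    exact h'
  let π : W →L[𝕜] W := P * (σ.comp ρ)
  have hπ_apply : ∀ w, π w = P (σ (ρ w)) := fun w => rfl
  have hRπ : R' * π = R' := by
    ext w
    have h6 : R' (P (σ (ρ w))) = R' (σ (ρ w)) := by
      have := DFunLike.congr_fun h4 (σ (ρ w))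
      exact this
    rw [mul_apply_eq_comp, hπ_apply, h6, hσ, hρ]
  have hρP : ∀ w, ρ (P w) = ρ w := by
    intro w
    apply Subtype.ext
    rw [hρ, hρ]
    exact DFunLike.congr_fun h4 w
  have hρπ : ∀ w, ρ (π w) = ρ w := by
    intro w
    apply Subtype.ext
    rw [hρ, hρ]
    exact DFunLike.congr_fun hRπ w
  have hππ : π * π = π := by
    ext w
    rw [mul_apply_eq_comp, hπ_apply, hρπ, ← hπ_apply]
  have hPπ : P * π = π := by
    change P * (P * (σ.comp ρ)) = P * (σ.comp ρ)
    rw [← mul_assoc, hP]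
  have hπP : π * P = π := by
    ext w
    rw [mul_apply_eq_comp, hπ_apply, hρP, ← hπ_apply]
  have hfin : FiniteDimensional 𝕜 (Rg π) := by
    have hle : Rg π ≤ LinearMap.range ((P * 1).comp σ : Rg R' →L[𝕜] W).toLinearMap := by
      rintro _ ⟨w, rfl⟩
      exact ⟨ρ w, by simp [π]⟩
    exact Submodule.finiteDimensional_of_le hle
  have hPp : P * (P - π) = P - π := by rw [mul_sub, hP, hPπ]
  have hRp : R' * (P - π) = 0 := by rw [mul_sub, h4, hRπ, sub_self]
  have hkey0 : P * Qd * (P - π) = (1 - T) * (P - π) := by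
    have e1 : P * (1 - Qd) * P = P * P - P * Qd * P := by noncomm_ring
    have e2 : P * Qd * P = P - T - R' := by
      rw [e1, hP] at h
      calc P * Qd * P = P - (P - P * Qd * P) := by abel
        _ = P - (T + R') := by rw [h]
        _ = P - T - R' := by abel
    calc P * Qd * (P - π) = P * Qd * (P * (P - π)) := by rw [hPp]
      _ = (P * Qd * P) * (P - π) := by rw [← mul_assoc]
      _ = (P - T - R') * (P - π) := by rw [e2]
      _ = P * (P - π) - T * (P - π) - R' * (P - π) := by rw [sub_mul, sub_mul]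
      _ = (P - π) - T * (P - π) := by rw [hPp, hRp, sub_zero]
      _ = (1 - T) * (P - π) := by rw [sub_mul, one_mul]
  refine ⟨↑u⁻¹, π, hP, hQ, hππ, hPπ, hπP, h1, h2, hHT, hTH, ?_, hfin⟩
  calc (↑u⁻¹ : W →L[𝕜] W) * P * Qd * (P - π) = (↑u⁻¹ : W →L[𝕜] W) * (P * Qd * (P - π)) := by
        rw [mul_assoc, mul_assoc, mul_assoc]
    _ = (↑u⁻¹ : W →L[𝕜] W) * ((1 - T) * (P - π)) := by rw [hkey0]
    _ = ((↑u⁻¹ : W →L[𝕜] W) * (1 - T)) * (P - π) := by rw [mul_assoc]
    _ = P - π := by rw [hHT, one_mul]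

end Pool.Agent.UUB
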