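import Pool.Agent.UUB.MU3

/-!
# BAI: a Baire category argument on the Cantor cube

* `continuous_mulOp_sgn_comp`: let `K` be from `exists_norm_mulOp_le` (signs have modulus `1`,
  `norm_sgn`). Then `‖D_t (v t) - D_s (v s)‖ ≤ K ‖v t - v s‖ + ‖D_t (v s) - D_s (v s)‖` where
  `D_t = mulOp b (sgn 𝕜 (e t))`; the second term tends to `0` as `t → s` by
  `continuous_mulOp_sgn b (v s)` composed with `e`.
* `baire_tail`: PROOF. Let `K ≥ 1` bound `‖S b M‖` for all `M` (`exists_norm_mulOp_le` with the indicator,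
  `C = 1`) and put `δ' = δ / K`. For a finite set `A ⊆ J` let
  `C_A = {ε | ‖S b Aᶜ * F ε‖ ≤ δ'}`. It is closed: it is the intersection over `w` of the sets
  `{ε | ‖S b Aᶜ (F ε w)‖ ≤ δ' * ‖w‖}` (`ContinuousLinearMap.opNorm_le_iff`), closed by `hF`.
  By `tendsto_S_compl_compact` every `ε` lies in some `C_A`. `J` is countable, so there are countably
  many `A`, and `I → Bool` is compact Hausdorff, hence a nonempty Baire space: some `C_A` has an interior
  point `ε₀` (`nonempty_interior_of_iUnion_of_closed`). A basic neighbourhood of `ε₀` in the product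
  topology contains `{ε | ∀ i ∈ B, ε i = ε₀ i}` for a finite set `B`. For `A ⊆ A'`,
  `S b A'ᶜ * F ε = S b A'ᶜ * (S b Aᶜ * F ε)` (`S_mul_S`), of norm `≤ K δ' = δ`.
-/

namespace Pool.Agent.UUB

open Filter Topology Set

variable {𝕜 : Type*} [RCLike 𝕜] {W : Type*} [NormedAddCommGroup W] [NormedSpace 𝕜 W]
  [CompleteSpace W] {J : Type} (b : UnconditionalSchauderBasis J 𝕜 W)

theorem continuous_mulOp_sgn_comp {Z : Type*} [TopologicalSpace Z] {e : Z → J → Bool}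
    (he : Continuous e) {v : Z → W} (hv : Continuous v) :
    Continuous fun t => mulOp b (sgn 𝕜 (e t)) (v t) := by
  obtain ⟨K, hK1, hK⟩ := exists_norm_mulOp_le b
  have hs : ∀ ε : J → Bool, ‖mulOp b (sgn 𝕜 ε)‖ ≤ K := by
    intro ε
    have := hK (sgn 𝕜 ε) 1 zero_le_one (fun j => (norm_sgn (𝕜 := 𝕜) ε j).le)
    rw [mul_one] at this
    exact this
  rw [continuous_iff_continuousAt]
  intro s
  have h1 : Tendsto (fun t => mulOp b (sgn 𝕜 (e t)) (v s)) (𝓝 s)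
      (𝓝 (mulOp b (sgn 𝕜 (e s)) (v s))) :=
    ((continuous_mulOp_sgn b (v s)).comp he).continuousAt
  have h2 : Tendsto (fun t => K * ‖v t - v s‖) (𝓝 s) (𝓝 0) := by
    have h3 : Tendsto (fun t => v t - v s) (𝓝 s) (𝓝 0) := by
      have hvs : Tendsto v (𝓝 s) (𝓝 (v s)) := hv.continuousAt
      have := hvs.sub (tendsto_const_nhds (x := v s))
      rw [sub_self] at this
      exact this
    have h4 := h3.norm.const_mul K
    rw [norm_zero, mul_zero] at h4
    exact h4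
  have h5 : Tendsto (fun t => mulOp b (sgn 𝕜 (e t)) (v t - v s)) (𝓝 s) (𝓝 0) := by
    refine squeeze_zero_norm (fun t => ?_) h2
    exact ((mulOp b (sgn 𝕜 (e t))).le_opNorm _).trans
      (mul_le_mul_of_nonneg_right (hs _) (norm_nonneg _))
  have h6 := h5.add h1
  rw [zero_add] at h6
  refine h6.congr fun t => ?_
  rw [map_sub, sub_add_cancel]

theorem exists_norm_S_le : ∃ K : ℝ, 1 ≤ K ∧ ∀ M : Set J, ‖S b M‖ ≤ K := by
  classical
  obtain ⟨K, hK1, hK⟩ := exists_norm_mulOp_le b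
  refine ⟨K, hK1, fun M => ?_⟩
  have := hK (M.indicator fun _ => (1 : 𝕜)) 1 zero_le_one (fun j => by
    by_cases h : j ∈ M
    · simp [h]
    · simp [h])
  rw [mul_one] at this
  exact this

theorem baire_tail [Countable J] {I : Type} (F : (I → Bool) → (W →L[𝕜] W))
    (hF : ∀ w, Continuous fun ε => F ε w) (hK : ∀ ε, IsCompactOperator (F ε))
    {δ : ℝ} (hδ : 0 < δ) :
    ∃ (ε₀ : I → Bool) (B : Finset I) (A : Finset J), ∀ ε : I → Bool, (∀ i ∈ B, ε i = ε₀ i) →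
      ∀ A' : Finset J, A ⊆ A' → ‖S b ((A' : Set J)ᶜ) * F ε‖ ≤ δ := by
  classical
  have hKc := hK
  obtain ⟨K, hK1, hK⟩ := exists_norm_S_le b
  have hK0 : 0 < K := lt_of_lt_of_le zero_lt_one hK1
  have hδ' : 0 < δ / K := div_pos hδ hK0
  have hclosed : ∀ A : Finset J,
      IsClosed {ε : I → Bool | ‖S b ((A : Set J)ᶜ) * F ε‖ ≤ δ / K} := by
    intro A
    have : {ε : I → Bool | ‖S b ((A : Set J)ᶜ) * F ε‖ ≤ δ / K} =
        ⋂ w : W, {ε : I → Bool | ‖S b ((A : Set J)ᶜ) (F ε w)‖ ≤ δ / K * ‖w‖} := by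
      ext ε
      simp only [Set.mem_ofPred_eq, Set.mem_iInter]
      rw [ContinuousLinearMap.opNorm_le_iff hδ'.le]
      rfl
    rw [this]
    refine isClosed_iInter fun w => ?_
    exact isClosed_le (((S b ((A : Set J)ᶜ)).continuous.comp (hF w)).norm) continuous_const
  have hcover : (⋃ A : Finset J, {ε : I → Bool | ‖S b ((A : Set J)ᶜ) * F ε‖ ≤ δ / K}) =
      Set.univ := by
    refine Set.eq_univ_of_forall fun ε => ?_
    obtain ⟨A, hA⟩ := ((tendsto_S_compl_compact b (hKc ε)).eventually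
      (gt_mem_nhds hδ')).exists
    exact Set.mem_iUnion.mpr ⟨A, le_of_lt hA⟩
  obtain ⟨A, hA⟩ := nonempty_interior_of_iUnion_of_closed hclosed hcover
  obtain ⟨ε₀, hε₀⟩ := hA
  have hnhds : {ε : I → Bool | ‖S b ((A : Set J)ᶜ) * F ε‖ ≤ δ / K} ∈ 𝓝 ε₀ :=
    mem_interior_iff_mem_nhds.mp hε₀
  rw [nhds_pi, Filter.mem_pi] at hnhds
  obtain ⟨Bs, hBs, t, ht, hsub⟩ := hnhds
  refine ⟨ε₀, hBs.toFinset, A, fun ε hε A' hA' => ?_⟩
  have hmem : ε ∈ {ε : I → Bool | ‖S b ((A : Set J)ᶜ) * F ε‖ ≤ δ / K} := by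
    apply hsub
    intro i hi
    rw [hε i (hBs.mem_toFinset.mpr hi)]
    exact mem_of_mem_nhds (ht i)
  have hAA : ((A' : Set J)ᶜ) ∩ ((A : Set J)ᶜ) = ((A' : Set J)ᶜ) :=
    Set.inter_eq_left.mpr (Set.compl_subset_compl.mpr (by exact_mod_cast hA'))
  have h1 : S b ((A' : Set J)ᶜ) * F ε =
      S b ((A' : Set J)ᶜ) * (S b ((A : Set J)ᶜ) * F ε) := by
    rw [← mul_assoc, S_mul_S, hAA]
  rw [h1]
  calc ‖S b ((A' : Set J)ᶜ) * (S b ((A : Set J)ᶜ) * F ε)‖
      ≤ ‖S b ((A' : Set J)ᶜ)‖ * ‖S b ((A : Set J)ᶜ) * F ε‖ := norm_mul_le _ _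
    _ ≤ K * (δ / K) := mul_le_mul (hK _) hmem (norm_nonneg _) hK0.le
    _ = δ := by field_simp

end Pool.Agent.UUB
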