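import Pool.Agent.UUB.MU2

/-!
# BCA: the unit vector basis of `c_0`

`c_0` is `ZeroAtInftyContinuousMap ℕ 𝕜`, the space of all sequences tending to `0` (`ℕ` is discrete), with the
supremum norm (`ZeroAtInftyContinuousMap.norm_toBCF_eq_norm`, `BoundedContinuousFunction.norm_le`); its
members tend to `0` along `cocompact ℕ = cofinite`.
* `exists_c0_basis`: `b k` is the function `n ↦ if n = k then 1 else 0`, `coord k f = f k`; the expansion:
  for `η > 0` the set `{n | η ≤ ‖f n‖}` is finite, and for finite sets `A` containing it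
  `f - ∑ k ∈ A, f k • b k` has norm `≤ η`.
-/

namespace Pool.Agent.UUB

open Filter Topology Set

variable {𝕜 : Type*} [RCLike 𝕜]

theorem bca_norm_le (f : ZeroAtInftyContinuousMap ℕ 𝕜) {C : ℝ} (hC : 0 ≤ C) :
    ‖f‖ ≤ C ↔ ∀ n, ‖f n‖ ≤ C := by
  rw [← ZeroAtInftyContinuousMap.norm_toBCF_eq_norm, BoundedContinuousFunction.norm_le hC]
  rfl

theorem bca_apply_le (f : ZeroAtInftyContinuousMap ℕ 𝕜) (n : ℕ) : ‖f n‖ ≤ ‖f‖ :=
  (bca_norm_le f (norm_nonneg f)).1 le_rfl n

/-- A sequence tending to `0` as a member of `c_0`. -/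
def bcaMk (f : ℕ → 𝕜) (h : Tendsto f cofinite (𝓝 0)) : ZeroAtInftyContinuousMap ℕ 𝕜 where
  toFun := f
  continuous_toFun := continuous_of_discreteTopology
  zero_at_infty' := by rw [cocompact_eq_cofinite]; exact h

@[simp] theorem bcaMk_apply (f : ℕ → 𝕜) (h : Tendsto f cofinite (𝓝 0)) (n : ℕ) :
    bcaMk f h n = f n := rfl

theorem bca_tendsto (f : ZeroAtInftyContinuousMap ℕ 𝕜) : Tendsto (fun n => f n) cofinite (𝓝 0) := by
  rw [← cocompact_eq_cofinite]
  exact f.zero_at_infty'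

theorem bca_finite (f : ZeroAtInftyContinuousMap ℕ 𝕜) {η : ℝ} (hη : 0 < η) :
    {n : ℕ | η ≤ ‖f n‖}.Finite := by
  have h := (bca_tendsto f).norm
  rw [norm_zero] at h
  have h1 : ∀ᶠ n in cofinite, ‖f n‖ < η := h.eventually_lt_const hη
  refine (Filter.eventually_cofinite.1 h1).subset fun n hn => ?_
  exact not_lt.2 hn

/-- A sequence vanishing off a finite set tends to `0`. -/
theorem bca_tendsto_of_finite {f : ℕ → 𝕜} (A : Set ℕ) (hA : A.Finite) (h : ∀ n, n ∉ A → f n = 0) :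
    Tendsto f cofinite (𝓝 0) := by
  refine tendsto_const_nhds.congr' ?_
  rw [EventuallyEq, Filter.eventually_cofinite]
  refine hA.subset fun n hn => ?_
  by_contra h1
  exact hn (h n h1).symm

/-- Criterion for convergence to `0`. -/
theorem bca_tendsto_of {f : ℕ → 𝕜} (h : ∀ η : ℝ, 0 < η → {n : ℕ | η ≤ ‖f n‖}.Finite) :
    Tendsto f cofinite (𝓝 0) := by
  rw [Metric.tendsto_nhds]
  intro ε hε
  rw [Filter.eventually_cofinite]
  refine (h ε hε).subset fun n hn => ?_
  have h1 : ¬ dist (f n) 0 < ε := hn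
  rw [dist_zero_right, not_lt] at h1
  exact h1

/-- The evaluation functional. -/
noncomputable def bcaEv (k : ℕ) : StrongDual 𝕜 (ZeroAtInftyContinuousMap ℕ 𝕜) :=
  LinearMap.mkContinuous
    { toFun := fun f => f k
      map_add' := fun _ _ => rfl
      map_smul' := fun _ _ => rfl } 1 fun f => by
    rw [one_mul]
    exact bca_apply_le f k

@[simp] theorem bcaEv_apply (k : ℕ) (f : ZeroAtInftyContinuousMap ℕ 𝕜) : bcaEv k f = f k := rfl

/-- The unit vectors. -/
noncomputable def bcaE (k : ℕ) : ZeroAtInftyContinuousMap ℕ 𝕜 :=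
  bcaMk (fun n => if n = k then 1 else 0)
    (bca_tendsto_of_finite {k} (finite_singleton k) fun n hn => by
      rw [if_neg]; exact hn)

@[simp] theorem bcaE_apply (k n : ℕ) :
    (bcaE k : ZeroAtInftyContinuousMap ℕ 𝕜) n = if n = k then 1 else 0 := rfl

theorem bca_sum_apply (f : ZeroAtInftyContinuousMap ℕ 𝕜) (A : Finset ℕ) (n : ℕ) :
    (∑ k ∈ A, f k • (bcaE k : ZeroAtInftyContinuousMap ℕ 𝕜)) n = if n ∈ A then f n else 0 := by
  have h := map_sum (bcaEv (𝕜 := 𝕜) n) (fun k => f k • (bcaE k : ZeroAtInftyContinuousMap ℕ 𝕜)) A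
  rw [bcaEv_apply] at h
  rw [h]
  simp

/-- The unit vector basis. -/
noncomputable def bcaBasis :
    UnconditionalSchauderBasis ℕ 𝕜 (ZeroAtInftyContinuousMap ℕ 𝕜) where
  basis := bcaE
  coord := bcaEv
  ortho i j := by simp [Pi.single_apply]
  expansion f := by
    rw [HasSum, SummationFilter.unconditional_filter, Metric.tendsto_atTop]
    intro η hη
    refine ⟨(bca_finite f (half_pos hη)).toFinset, fun A hA => ?_⟩
    rw [dist_eq_norm]
    refine lt_of_le_of_lt ((bca_norm_le _ (half_pos hη).le).2 fun n => ?_) (half_lt_self hη)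
    have h1 : (∑ k ∈ A, bcaEv k f • (bcaE k : ZeroAtInftyContinuousMap ℕ 𝕜) - f) n =
        (if n ∈ A then f n else 0) - f n := by
      rw [ZeroAtInftyContinuousMap.sub_apply]
      congr 1
      exact bca_sum_apply f A n
    rw [h1]
    split_ifs with h2
    · rw [sub_self, norm_zero]; exact (half_pos hη).le
    · rw [zero_sub, norm_neg]
      by_contra h3
      refine h2 (hA ?_)
      rw [Finite.mem_toFinset]
      exact (not_le.1 h3).le

theorem exists_c0_basis :
    ∃ b : UnconditionalSchauderBasis ℕ 𝕜 (ZeroAtInftyContinuousMap ℕ 𝕜),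
      (∀ k n, b k n = if n = k then 1 else 0) ∧ ∀ k f, b.coord k f = f k :=
  ⟨bcaBasis, fun _ _ => rfl, fun _ _ => rfl⟩

theorem c0_norm_le (f : ZeroAtInftyContinuousMap ℕ 𝕜) {C : ℝ} (hC : 0 ≤ C) :
    ‖f‖ ≤ C ↔ ∀ n, ‖f n‖ ≤ C :=
  bca_norm_le f hC

end Pool.Agent.UUB
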