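import Pool.Agent.UUB.BCA

/-!
# BCB: disjoint blocks in `c_0`

PROOF. `(S b M f) n` is `f n` for `n ∈ M` and `0` otherwise (`coord_S_mem`, `coord_S_notMem`, `h2`), so
`‖S b M‖ ≤ 1` (`c0_norm_le`), and `‖b k‖ = 1`.
`up`: `(U f) n = f k * z k n` if `n ∈ A k` (at most one `k`), and `0` if `n` is in no `A k`. It tends to `0`:
for `η > 0` only finitely many `k` have `‖f k‖ ≥ η`, and the corresponding `A k` are finite. Linear, norm
`≤ 1`, and `U (b k) = z k` because `z k` is supported on `A k`.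
`down`: `(V y) k = φ k y = φ k (S b (A k) y)`, so `‖φ k y‖ ≤ ‖S b (A k) y‖ ≤ max over A k of ‖y n‖`. It tends to
`0` as `k → ∞`: for `η > 0` the set `{n | η ≤ ‖y n‖}` is finite, so it meets only finitely many of the
disjoint sets `A k`.
-/

namespace Pool.Agent.UUB

open Filter Topology Set

variable {𝕜 : Type*} [RCLike 𝕜]

open Classical in
/-- The values of the operator `U` in `up`. -/
noncomputable def bcbU (A : ℕ → Finset ℕ) (z : ℕ → ZeroAtInftyContinuousMap ℕ 𝕜)
    (f : ZeroAtInftyContinuousMap ℕ 𝕜) (n : ℕ) : 𝕜 :=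
  if h : ∃ k, n ∈ A k then f h.choose * z h.choose n else 0

theorem bcb_unique {A : ℕ → Finset ℕ} (hA : ∀ i j, i ≠ j → Disjoint (A i) (A j)) {n i j : ℕ}
    (hi : n ∈ A i) (hj : n ∈ A j) : i = j := by
  by_contra h
  exact Finset.disjoint_left.1 (hA i j h) hi hj

theorem bcbU_mem {A : ℕ → Finset ℕ} (hA : ∀ i j, i ≠ j → Disjoint (A i) (A j))
    (z : ℕ → ZeroAtInftyContinuousMap ℕ 𝕜) (f : ZeroAtInftyContinuousMap ℕ 𝕜) {n k : ℕ}
    (h : n ∈ A k) : bcbU A z f n = f k * z k n := by
  have h1 : ∃ k, n ∈ A k := ⟨k, h⟩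
  have h2 : h1.choose = k := bcb_unique hA h1.choose_spec h
  rw [bcbU, dif_pos h1, h2]

theorem bcbU_notMem (A : ℕ → Finset ℕ) (z : ℕ → ZeroAtInftyContinuousMap ℕ 𝕜)
    (f : ZeroAtInftyContinuousMap ℕ 𝕜) {n : ℕ} (h : ∀ k, n ∉ A k) : bcbU A z f n = 0 := by
  rw [bcbU, dif_neg]
  rintro ⟨k, hk⟩
  exact h k hk

theorem c0_block (b : UnconditionalSchauderBasis ℕ 𝕜 (ZeroAtInftyContinuousMap ℕ 𝕜))
    (h1 : ∀ k n, b k n = if n = k then 1 else 0) (h2 : ∀ k f, b.coord k f = f k) :
    BlockBasis b := by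
  have hS1 : ∀ (M : Set ℕ) (n : ℕ), n ∈ M → ∀ f, (S b M f) n = f n := fun M n hn f => by
    rw [← h2, coord_S_mem b hn, h2]
  have hS2 : ∀ (M : Set ℕ) (n : ℕ), n ∉ M → ∀ f, (S b M f) n = 0 := fun M n hn f => by
    rw [← h2, coord_S_notMem b hn]
  refine ⟨fun k => ?_, fun M => ?_, ?_, ?_⟩
  · refine le_antisymm ((c0_norm_le _ zero_le_one).2 fun n => ?_) ?_
    · rw [h1]
      split_ifs <;> simp
    · have h3 := bca_apply_le (b k) k
      rw [h1, if_pos rfl, norm_one] at h3
      exact h3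
  · refine ContinuousLinearMap.opNorm_le_bound _ zero_le_one fun f => ?_
    rw [one_mul]
    refine (c0_norm_le _ (norm_nonneg f)).2 fun n => ?_
    by_cases hn : n ∈ M
    · rw [hS1 M n hn]; exact bca_apply_le f n
    · rw [hS2 M n hn, norm_zero]; exact norm_nonneg f
  · intro A z hA hz hzA
    have hle : ∀ (f : ZeroAtInftyContinuousMap ℕ 𝕜) (n k : ℕ), n ∈ A k →
        ‖bcbU A z f n‖ ≤ ‖f k‖ := by
      intro f n k hn
      rw [bcbU_mem hA z f hn, norm_mul]
      exact mul_le_of_le_one_right (norm_nonneg _) ((bca_apply_le (z k) n).trans (hz k))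
    have htend : ∀ f : ZeroAtInftyContinuousMap ℕ 𝕜, Tendsto (bcbU A z f) cofinite (𝓝 0) := by
      intro f
      refine bca_tendsto_of fun η hη => ?_
      refine ((bca_finite f hη).biUnion (t := fun k => (A k : Set ℕ))
        fun k _ => (A k).finite_toSet).subset fun n hn => ?_
      have hn' : η ≤ ‖bcbU A z f n‖ := hn
      by_cases h : ∃ k, n ∈ A k
      · obtain ⟨k, hk⟩ := h
        exact mem_biUnion (x := k) (hn'.trans (hle f n k hk) : η ≤ ‖f k‖) (Finset.mem_coe.2 hk)
      · push Not at h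
        rw [bcbU_notMem A z f h, norm_zero] at hn'
        exact absurd hn' (not_le.2 hη)
    let U0 : ZeroAtInftyContinuousMap ℕ 𝕜 →ₗ[𝕜] ZeroAtInftyContinuousMap ℕ 𝕜 :=
      { toFun := fun f => bcaMk (bcbU A z f) (htend f)
        map_add' := fun f g => by
          ext n
          rw [ZeroAtInftyContinuousMap.add_apply, bcaMk_apply, bcaMk_apply, bcaMk_apply]
          by_cases h : ∃ k, n ∈ A k
          · obtain ⟨k, hk⟩ := h
            rw [bcbU_mem hA z _ hk, bcbU_mem hA z _ hk, bcbU_mem hA z _ hk,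
              ZeroAtInftyContinuousMap.add_apply, add_mul]
          · push Not at h
            rw [bcbU_notMem A z _ h, bcbU_notMem A z _ h, bcbU_notMem A z _ h, add_zero]
        map_smul' := fun c f => by
          ext n
          rw [RingHom.id_apply, ZeroAtInftyContinuousMap.smul_apply, bcaMk_apply, bcaMk_apply]
          by_cases h : ∃ k, n ∈ A k
          · obtain ⟨k, hk⟩ := h
            rw [bcbU_mem hA z _ hk, bcbU_mem hA z _ hk,
              ZeroAtInftyContinuousMap.smul_apply, smul_eq_mul, smul_eq_mul, mul_assoc]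
          · push Not at h
            rw [bcbU_notMem A z _ h, bcbU_notMem A z _ h, smul_zero] }
    refine ⟨U0.mkContinuous 1 fun f => ?_, ?_, fun k => ?_⟩
    · rw [one_mul]
      refine (c0_norm_le _ (norm_nonneg f)).2 fun n => ?_
      show ‖bcbU A z f n‖ ≤ ‖f‖
      by_cases h : ∃ k, n ∈ A k
      · obtain ⟨k, hk⟩ := h
        exact (hle f n k hk).trans (bca_apply_le f k)
      · push Not at h
        rw [bcbU_notMem A z _ h, norm_zero]
        exact norm_nonneg f
    · exact LinearMap.mkContinuous_norm_le _ zero_le_one _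
    · ext n
      show bcbU A z (b k) n = z k n
      by_cases h : ∃ j, n ∈ A j
      · obtain ⟨j, hj⟩ := h
        rw [bcbU_mem hA z _ hj, h1]
        by_cases hjk : j = k
        · rw [if_pos hjk, one_mul, hjk]
        · rw [if_neg hjk, zero_mul]
          have h3 : n ∉ (A k : Set ℕ) := fun h4 => hjk (bcb_unique hA hj (Finset.mem_coe.1 h4))
          have h5 := hS2 (A k : Set ℕ) n h3 (z k)
          rw [hzA k] at h5
          exact h5.symm
      · push Not at h
        rw [bcbU_notMem A z _ h]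
        have h3 : n ∉ (A k : Set ℕ) := fun h4 => h k (Finset.mem_coe.1 h4)
        have h5 := hS2 (A k : Set ℕ) n h3 (z k)
        rw [hzA k] at h5
        exact h5.symm
  · intro A φ hA hφ hφA
    have hle : ∀ (k : ℕ) (y : ZeroAtInftyContinuousMap ℕ 𝕜), ‖φ k y‖ ≤ ‖y‖ := fun k y =>
      (ContinuousLinearMap.le_opNorm _ _).trans (mul_le_of_le_one_left (norm_nonneg _) (hφ k))
    have htend : ∀ y : ZeroAtInftyContinuousMap ℕ 𝕜,
        Tendsto (fun k => φ k y) cofinite (𝓝 0) := by
      intro y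
      refine bca_tendsto_of fun η hη => ?_
      have hfin : ∀ n : ℕ, {k : ℕ | n ∈ A k}.Finite := fun n =>
        Set.Subsingleton.finite fun i hi j hj => bcb_unique hA hi hj
      refine ((bca_finite y (half_pos hη)).biUnion (t := fun n => {k : ℕ | n ∈ A k})
        fun n _ => hfin n).subset fun k hk => ?_
      have hk' : η ≤ ‖φ k y‖ := hk
      have h3 : ∃ n ∈ A k, η / 2 ≤ ‖y n‖ := by
        by_contra h4
        push Not at h4
        have h5 : ‖S b (A k) y‖ ≤ η / 2 := by
          refine (c0_norm_le _ (half_pos hη).le).2 fun n => ?_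
          by_cases hn : n ∈ (A k : Set ℕ)
          · rw [hS1 _ n hn]; exact (h4 n (Finset.mem_coe.1 hn)).le
          · rw [hS2 _ n hn, norm_zero]; exact (half_pos hη).le
        have h6 : ‖φ k y‖ ≤ η / 2 := by
          rw [← hφA k y]
          exact (hle k _).trans h5
        linarith
      obtain ⟨n, hn1, hn2⟩ := h3
      exact mem_biUnion (x := n) (hn2 : η / 2 ≤ ‖y n‖) hn1
    let V0 : ZeroAtInftyContinuousMap ℕ 𝕜 →ₗ[𝕜] ZeroAtInftyContinuousMap ℕ 𝕜 :=
      { toFun := fun y => bcaMk (fun k => φ k y) (htend y)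
        map_add' := fun f g => by
          ext n
          rw [ZeroAtInftyContinuousMap.add_apply, bcaMk_apply, bcaMk_apply, bcaMk_apply, map_add]
        map_smul' := fun c f => by
          ext n
          rw [RingHom.id_apply, ZeroAtInftyContinuousMap.smul_apply, bcaMk_apply, bcaMk_apply,
            map_smul] }
    refine ⟨V0.mkContinuous 1 fun f => ?_, ?_, fun k y => ?_⟩
    · rw [one_mul]
      exact (c0_norm_le _ (norm_nonneg f)).2 fun n => hle n f
    · exact LinearMap.mkContinuous_norm_le _ zero_le_one _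
    · rw [h2]
      rfl

end Pool.Agent.UUB
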