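import Pool.Agent.UUB.BCA

/-!
# BCD: the dual norm of `c_0`

* `c0_dual_sum_le`: choose scalars `θ i` of modulus `≤ 1` with `θ i * w (b i) = ‖w (b i)‖`; then
  `∑ i ∈ I, ‖w (b i)‖ = w (∑ i ∈ I, θ i • b i)` and the vector has norm `≤ 1`.
* `c0_dual_exists`: choose `v`, `‖v‖ ≤ 1`, with `‖w v‖ > ‖w‖ - η / 2` and by the expansion of `v` a finite set `I`
  with `‖w v - ∑ i ∈ I, v i * w (b i)‖ ≤ η / 2`; and `‖v i‖ ≤ 1`.
-/

namespace Pool.Agent.UUB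

open Filter Topology Set

variable {𝕜 : Type*} [RCLike 𝕜]

theorem bcd_sum_apply (b : UnconditionalSchauderBasis ℕ 𝕜 (ZeroAtInftyContinuousMap ℕ 𝕜))
    (h1 : ∀ k n, b k n = if n = k then 1 else 0) (θ : ℕ → 𝕜) (I : Finset ℕ) (n : ℕ) :
    (∑ i ∈ I, θ i • b i : ZeroAtInftyContinuousMap ℕ 𝕜) n = if n ∈ I then θ n else 0 := by
  classical
  induction I using Finset.induction_on with
  | empty => simp
  | insert a s ha ih =>
    rw [Finset.sum_insert ha, ZeroAtInftyContinuousMap.add_apply, ih,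
      ZeroAtInftyContinuousMap.smul_apply, h1]
    by_cases hn : n = a
    · subst hn
      simp [ha]
    · simp [hn]

theorem bcd_unit (z : 𝕜) : ∃ θ : 𝕜, ‖θ‖ ≤ 1 ∧ θ * z = (‖z‖ : 𝕜) := by
  by_cases hz : z = 0
  · exact ⟨0, by simp, by simp [hz]⟩
  · have hz' : (‖z‖ : 𝕜) ≠ 0 := by
      simpa using hz
    refine ⟨(starRingEnd 𝕜) z / (‖z‖ : 𝕜), ?_, ?_⟩
    · rw [norm_div, RCLike.norm_conj, RCLike.norm_ofReal, abs_norm,
        div_self (norm_ne_zero_iff.mpr hz)]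
    · rw [div_mul_eq_mul_div, RCLike.conj_mul, sq, mul_div_assoc, div_self hz', mul_one]

theorem c0_dual_sum_le (b : UnconditionalSchauderBasis ℕ 𝕜 (ZeroAtInftyContinuousMap ℕ 𝕜))
    (h1 : ∀ k n, b k n = if n = k then 1 else 0) (I : Finset ℕ)
    (w : StrongDual 𝕜 (ZeroAtInftyContinuousMap ℕ 𝕜)) : ∑ i ∈ I, ‖w (b i)‖ ≤ ‖w‖ := by
  classical
  choose θ hθ1 hθ2 using fun i => bcd_unit (w (b i))
  have hv : ‖(∑ i ∈ I, θ i • b i : ZeroAtInftyContinuousMap ℕ 𝕜)‖ ≤ 1 := by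
    rw [c0_norm_le _ zero_le_one]
    intro n
    rw [bcd_sum_apply b h1]
    split_ifs
    · exact hθ1 n
    · simp
  have hw : w (∑ i ∈ I, θ i • b i) = ((∑ i ∈ I, ‖w (b i)‖ : ℝ) : 𝕜) := by
    rw [map_sum, RCLike.ofReal_sum]
    refine Finset.sum_congr rfl fun i _ => ?_
    rw [map_smul, smul_eq_mul, hθ2]
  have hn : ‖w (∑ i ∈ I, θ i • b i)‖ = ∑ i ∈ I, ‖w (b i)‖ := by
    rw [hw, RCLike.norm_ofReal, abs_of_nonneg (Finset.sum_nonneg fun i _ => norm_nonneg _)]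
  rw [← hn]
  calc ‖w (∑ i ∈ I, θ i • b i)‖ ≤ ‖w‖ * ‖(∑ i ∈ I, θ i • b i : ZeroAtInftyContinuousMap ℕ 𝕜)‖ :=
        w.le_opNorm _
    _ ≤ ‖w‖ * 1 := mul_le_mul_of_nonneg_left hv w.opNorm_nonneg
    _ = ‖w‖ := mul_one _

theorem c0_dual_exists (b : UnconditionalSchauderBasis ℕ 𝕜 (ZeroAtInftyContinuousMap ℕ 𝕜))
    (h2 : ∀ k f, b.coord k f = f k)
    (w : StrongDual 𝕜 (ZeroAtInftyContinuousMap ℕ 𝕜)) {η : ℝ} (hη : 0 < η) :
    ∃ I : Finset ℕ, ‖w‖ - η ≤ ∑ i ∈ I, ‖w (b i)‖ := by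
  classical
  by_cases hw : ‖w‖ = 0
  · exact ⟨∅, by simp [hw, hη.le]⟩
  obtain ⟨v, hv1, hv2⟩ : ∃ v : ZeroAtInftyContinuousMap ℕ 𝕜, ‖v‖ ≤ 1 ∧ ‖w‖ - η / 2 < ‖w v‖ := by
    by_contra hcon
    push Not at hcon
    have h0 : 0 ≤ ‖w‖ - η / 2 := by
      have := hcon 0 (by simp)
      simpa using this
    have hle : ‖w‖ ≤ ‖w‖ - η / 2 := by
      refine ContinuousLinearMap.opNorm_le_bound w h0 fun x => ?_
      by_cases hx : x = 0
      · simp [hx]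
      have hx' : ‖x‖ ≠ 0 := norm_ne_zero_iff.mpr hx
      have hk := hcon (((‖x‖ : 𝕜))⁻¹ • x) (by
        rw [norm_smul, norm_inv, RCLike.norm_ofReal, abs_norm, inv_mul_cancel₀ hx'])
      rw [map_smul, norm_smul, norm_inv, RCLike.norm_ofReal, abs_norm] at hk
      rw [inv_mul_le_iff₀ (norm_pos_iff.mpr hx)] at hk
      linarith [mul_comm ‖x‖ (‖w‖ - η / 2)]
    linarith
  have hs : HasSum (fun i => w (b.coord i v • b i)) (w v) := (b.expansion v).mapL w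
  have hev := (Metric.tendsto_atTop.mp hs (η / 2) (by linarith))
  obtain ⟨I, hI⟩ := hev
  refine ⟨I, ?_⟩
  have h3 := hI I le_rfl
  rw [dist_eq_norm] at h3
  have h4 : ‖∑ i ∈ I, w (b.coord i v • b i)‖ ≤ ∑ i ∈ I, ‖w (b i)‖ := by
    refine (norm_sum_le _ _).trans (Finset.sum_le_sum fun i _ => ?_)
    rw [map_smul, norm_smul, h2]
    have h5 : ‖v i‖ ≤ 1 := (c0_norm_le v zero_le_one).mp hv1 i
    calc ‖v i‖ * ‖w (b i)‖ ≤ 1 * ‖w (b i)‖ := mul_le_mul_of_nonneg_right h5 (norm_nonneg _)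
      _ = ‖w (b i)‖ := one_mul _
  have h6 : ‖w v‖ ≤ ‖∑ i ∈ I, w (b.coord i v • b i)‖ + ‖∑ i ∈ I, w (b.coord i v • b i) - w v‖ := by
    have := norm_sub_norm_le (w v) (∑ i ∈ I, w (b.coord i v • b i))
    rw [norm_sub_rev] at this
    linarith
  linarith

end Pool.Agent.UUB
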