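import Pool.Agent.UUB.MU2

/-!
# BPA: the unit vector basis of `ℓ_p`, `1 ≤ p < ∞`

* `exists_lp_basis`: `b k = lp.single p k 1`, `coord k f = f k` (continuous: `lp.norm_apply_le_norm`),
  the expansion is `lp.hasSum_single`.
* `l1_sum_le`, `l1_exists`: `‖f‖ = ∑' i, ‖f i‖` for `p = 1` (`lp.norm_eq_tsum_rpow`, `lp.norm_rpow_eq_tsum`;
  `lp.hasSum_norm`).
-/

namespace Pool.Agent.UUB

open Filter Topology Set

variable {𝕜 : Type*} [RCLike 𝕜]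

theorem exists_lp_basis (p : ENNReal) [Fact (1 ≤ p)] (hp : p ≠ ⊤) :
    ∃ b : UnconditionalSchauderBasis ℕ 𝕜 (lp (fun _ : ℕ => 𝕜) p),
      (∀ k, b k = lp.single p k (1 : 𝕜)) ∧ ∀ k f, b.coord k f = f k := by
  classical
  refine ⟨⟨fun k => lp.single p k (1 : 𝕜), fun k => lp.evalCLM 𝕜 (fun _ : ℕ => 𝕜) p k, ?_, ?_⟩,
    fun k => rfl, fun k f => rfl⟩
  · intro i j
    change (lp.single p j (1 : 𝕜) : lp (fun _ : ℕ => 𝕜) p) i = _
    rw [lp.single_apply]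
    by_cases h : i = j
    · subst h
      simp
    · simp [h]
  · intro f
    have h := lp.hasSum_single hp f
    have h2 : (fun i => (lp.evalCLM 𝕜 (fun _ : ℕ => 𝕜) p i) f •
          (lp.single p i (1 : 𝕜) : lp (fun _ : ℕ => 𝕜) p)) =
        fun i => (lp.single p i (f i) : lp (fun _ : ℕ => 𝕜) p) := by
      funext i
      change f i • (lp.single p i (1 : 𝕜) : lp (fun _ : ℕ => 𝕜) p) = _
      rw [← lp.single_smul]
      simp
    rw [h2]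
    exact h

theorem l1_sum_le (I : Finset ℕ) (f : lp (fun _ : ℕ => 𝕜) 1) : ∑ i ∈ I, ‖f i‖ ≤ ‖f‖ := by
  have h := lp.sum_rpow_le_norm_rpow (p := 1) (by simp) f I
  simpa using h

theorem l1_exists (f : lp (fun _ : ℕ => 𝕜) 1) {η : ℝ} (hη : 0 < η) :
    ∃ I : Finset ℕ, ‖f‖ - η ≤ ∑ i ∈ I, ‖f i‖ := by
  have h : HasSum (fun i => ‖f i‖) ‖f‖ := by
    simpa using lp.hasSum_norm (p := 1) (by simp) f
  have h2 : ∀ᶠ I : Finset ℕ in atTop, ‖f‖ - η < ∑ i ∈ I, ‖f i‖ :=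
    (tendsto_order.1 h).1 _ (by linarith)
  obtain ⟨I, hI⟩ := h2.exists
  exact ⟨I, hI.le⟩

end Pool.Agent.UUB
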