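import Pool.Agent.UUB.BPA

/-!
# BPB: disjoint blocks in `ℓ_p`, `1 ≤ p < ∞`

PROOF. Let `q = p.toReal ∈ [1, ∞)`; `‖f‖ ^ q = ∑' n, ‖f n‖ ^ q` (`lp.norm_rpow_eq_tsum`). `(S b M f) n` is `f n` for
`n ∈ M` and `0` otherwise (`coord_S_mem`, `coord_S_notMem`, `h2`), so `‖S b M f‖ ≤ ‖f‖`, and
`‖b k‖ = 1` (`lp.norm_single`).
`up`: for `f ∈ ℓ_p` let `(U f) n = f k * z k n` if `n ∈ A k` (at most one `k`), `0` if `n` is in no `A k`.
`∑ n, ‖(U f) n‖ ^ q = ∑ k, ‖f k‖ ^ q ∑ n ∈ A k, ‖z k n‖ ^ q ≤ ∑ k, ‖f k‖ ^ q` (for finite partial sums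
first; `memℓp_gen`). Linear, norm `≤ 1`; `U (b k) = z k` because `z k` is supported on `A k`.
An alternative: `U f = ∑' k, f k • z k`, where the finite sums satisfy
`‖∑ k ∈ Φ, f k • z k‖ ^ q = ∑ k ∈ Φ, ‖f k‖ ^ q ‖z k‖ ^ q` because the supports are disjoint.
`down`: `(V y) k = φ k y = φ k (S b (A k) y)`, so `∑ k ∈ Φ, ‖φ k y‖ ^ q ≤ ∑ k ∈ Φ, ‖S b (A k) y‖ ^ q
= ∑ k ∈ Φ, ∑ n ∈ A k, ‖y n‖ ^ q ≤ ‖y‖ ^ q` (disjointness).
-/

namespace Pool.Agent.UUB

open Filter Topology Set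

variable {𝕜 : Type*} [RCLike 𝕜]

private theorem bpb_q (p : ENNReal) [Fact (1 ≤ p)] (hp : p ≠ ⊤) : 1 ≤ p.toReal := by
  have h : (1 : ENNReal) ≤ p := Fact.out
  have := ENNReal.toReal_mono hp h
  simpa using this

private theorem bpb_supp (p : ENNReal) [Fact (1 ≤ p)] (hp : p ≠ ⊤)
    (b : UnconditionalSchauderBasis ℕ 𝕜 (lp (fun _ : ℕ => 𝕜) p))
    (h2 : ∀ k f, b.coord k f = f k) (M : Set ℕ) (f : lp (fun _ : ℕ => 𝕜) p) :
    ‖S b M f‖ ^ p.toReal ≤ ∑' n, M.indicator (fun n => ‖f n‖ ^ p.toReal) n ∧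
      ‖S b M f‖ ≤ ‖f‖ := by
  have hq := bpb_q p hp
  have hq0 : 0 < p.toReal := by linarith
  have hc : ∀ n, ‖S b M f n‖ ^ p.toReal = M.indicator (fun n => ‖f n‖ ^ p.toReal) n := by
    intro n
    by_cases hn : n ∈ M
    · rw [Set.indicator_of_mem hn, ← h2 n (S b M f), coord_S_mem b hn, h2]
    · rw [Set.indicator_of_notMem hn, ← h2 n (S b M f), coord_S_notMem b hn, norm_zero,
        Real.zero_rpow hq0.ne']
  refine ⟨?_, ?_⟩
  · rw [lp.norm_rpow_eq_tsum hq0]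
    exact (tsum_congr hc).le
  · refine lp.norm_le_of_forall_sum_le hq0 (norm_nonneg f) fun s => ?_
    refine le_trans (Finset.sum_le_sum fun n _ => ?_) (lp.sum_rpow_le_norm_rpow hq0 f s)
    rw [hc n]
    exact Set.indicator_le_self' (fun n _ => by positivity) n

open Classical in
private noncomputable def bpbIdx (A : ℕ → Finset ℕ) (n : ℕ) : ℕ :=
  if h : ∃ k, n ∈ A k then h.choose else 0

private theorem bpbIdx_mem {A : ℕ → Finset ℕ} {n : ℕ} (h : ∃ k, n ∈ A k) :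
    n ∈ A (bpbIdx A n) := by
  unfold bpbIdx
  rw [dif_pos h]
  exact h.choose_spec

private theorem bpbIdx_eq {A : ℕ → Finset ℕ} (hA : ∀ i j, i ≠ j → Disjoint (A i) (A j))
    {n k : ℕ} (h : n ∈ A k) : bpbIdx A n = k := by
  by_contra hne
  exact Finset.disjoint_left.1 (hA _ _ hne) (bpbIdx_mem ⟨k, h⟩) h

open Classical in
private noncomputable def bpbFun {p : ENNReal} (A : ℕ → Finset ℕ)
    (z : ℕ → lp (fun _ : ℕ => 𝕜) p) (f : lp (fun _ : ℕ => 𝕜) p) (n : ℕ) : 𝕜 :=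
  if ∃ k, n ∈ A k then f (bpbIdx A n) * z (bpbIdx A n) n else 0

open Classical in
private theorem bpb_sum (p : ENNReal) [Fact (1 ≤ p)] (hp : p ≠ ⊤) {A : ℕ → Finset ℕ}
    (hA : ∀ i j, i ≠ j → Disjoint (A i) (A j)) {z : ℕ → lp (fun _ : ℕ => 𝕜) p}
    (hz : ∀ k, ‖z k‖ ≤ 1) (f : lp (fun _ : ℕ => 𝕜) p) (s : Finset ℕ) :
    ∑ n ∈ s, ‖bpbFun A z f n‖ ^ p.toReal ≤ ‖f‖ ^ p.toReal := by
  have hq := bpb_q p hp
  have hq0 : 0 < p.toReal := by linarith
  have h1 : ∑ n ∈ s, ‖bpbFun A z f n‖ ^ p.toReal =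
      ∑ n ∈ s.filter (fun n => ∃ k, n ∈ A k), ‖bpbFun A z f n‖ ^ p.toReal := by
    rw [Finset.sum_filter]
    refine Finset.sum_congr rfl fun n _ => ?_
    by_cases hn : ∃ k, n ∈ A k
    · rw [if_pos hn]
    · rw [if_neg hn, bpbFun, if_neg hn, norm_zero, Real.zero_rpow hq0.ne']
  rw [h1, ← Finset.sum_fiberwise_of_maps_to (t := (s.filter (fun n => ∃ k, n ∈ A k)).image
    (bpbIdx A)) (g := bpbIdx A) (fun n hn => Finset.mem_image_of_mem _ hn)]
  refine le_trans (Finset.sum_le_sum fun k _ => ?_)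
    (lp.sum_rpow_le_norm_rpow hq0 f ((s.filter (fun n => ∃ k, n ∈ A k)).image (bpbIdx A)))
  have h2 : ∀ n ∈ (s.filter (fun n => ∃ k, n ∈ A k)).filter (fun n => bpbIdx A n = k),
      ‖bpbFun A z f n‖ ^ p.toReal = ‖f k‖ ^ p.toReal * ‖z k n‖ ^ p.toReal := by
    intro n hn
    rw [Finset.mem_filter, Finset.mem_filter] at hn
    rw [bpbFun, if_pos hn.1.2, hn.2, norm_mul, Real.mul_rpow (norm_nonneg _) (norm_nonneg _)]
  rw [Finset.sum_congr rfl h2, ← Finset.mul_sum]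
  refine mul_le_of_le_one_right (by positivity) ?_
  refine le_trans (lp.sum_rpow_le_norm_rpow hq0 (z k) _) ?_
  exact Real.rpow_le_one (norm_nonneg _) (hz k) hq0.le

theorem lp_block (p : ENNReal) [Fact (1 ≤ p)] (hp : p ≠ ⊤)
    (b : UnconditionalSchauderBasis ℕ 𝕜 (lp (fun _ : ℕ => 𝕜) p))
    (h1 : ∀ k, b k = lp.single p k (1 : 𝕜)) (h2 : ∀ k f, b.coord k f = f k) : BlockBasis b := by
  classical
  have hq := bpb_q p hp
  have hq0 : 0 < p.toReal := by linarith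
  refine ⟨fun k => ?_, fun M => ?_, fun A z hA hz hs => ?_, fun A φ hA hφ hs => ?_⟩
  · rw [h1 k, lp.norm_single (lt_of_lt_of_le one_pos Fact.out), norm_one]
  · refine ContinuousLinearMap.opNorm_le_bound _ zero_le_one fun f => ?_
    rw [one_mul]
    exact (bpb_supp p hp b h2 M f).2
  · let g : lp (fun _ : ℕ => 𝕜) p → lp (fun _ : ℕ => 𝕜) p := fun f =>
      ⟨bpbFun A z f, memℓp_gen' (bpb_sum p hp hA hz f)⟩
    have hg : ∀ f n, g f n = bpbFun A z f n := fun f n => rfl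
    let L : lp (fun _ : ℕ => 𝕜) p →ₗ[𝕜] lp (fun _ : ℕ => 𝕜) p :=
      { toFun := g
        map_add' := by
          intro f f'
          ext n
          rw [lp.coeFn_add, Pi.add_apply, hg, hg, hg]
          unfold bpbFun
          split_ifs
          · rw [lp.coeFn_add, Pi.add_apply, add_mul]
          · rw [add_zero]
        map_smul' := by
          intro c f
          ext n
          rw [RingHom.id_apply, lp.coeFn_smul, Pi.smul_apply, hg, hg]
          unfold bpbFun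
          split_ifs
          · rw [lp.coeFn_smul, Pi.smul_apply, smul_eq_mul, smul_eq_mul, mul_assoc]
          · rw [smul_zero] }
    refine ⟨L.mkContinuous 1 fun f => ?_, L.mkContinuous_norm_le zero_le_one _, fun k => ?_⟩
    · rw [one_mul]
      exact lp.norm_le_of_forall_sum_le hq0 (norm_nonneg f) (bpb_sum p hp hA hz f)
    · show g (b k) = z k
      ext n
      rw [hg, h1 k, bpbFun]
      split_ifs with hn
      · by_cases hk : bpbIdx A n = k
        · rw [hk, lp.single_apply_self, one_mul]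
        · rw [lp.single_apply_ne _ _ _ hk, zero_mul]
          have h3 : n ∉ (A k : Set ℕ) := fun h4 => hk (bpbIdx_eq hA (Finset.mem_coe.1 h4))
          rw [← hs k, ← h2 n, coord_S_notMem b h3]
      · have h3 : n ∉ (A k : Set ℕ) := fun h4 => hn ⟨k, Finset.mem_coe.1 h4⟩
        rw [← hs k, ← h2 n, coord_S_notMem b h3]
  · have hbd : ∀ (y : lp (fun _ : ℕ => 𝕜) p) (s : Finset ℕ),
        ∑ k ∈ s, ‖φ k y‖ ^ p.toReal ≤ ‖y‖ ^ p.toReal := by
      intro y s
      have h3 : ∀ k ∈ s, ‖φ k y‖ ^ p.toReal ≤ ∑ n ∈ A k, ‖y n‖ ^ p.toReal := by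
        intro k _
        have h4 : ‖φ k y‖ ≤ ‖S b (A k) y‖ := by
          rw [← hs k y]
          refine ((φ k).le_opNorm _).trans ?_
          exact mul_le_of_le_one_left (norm_nonneg _) (hφ k)
        refine (Real.rpow_le_rpow (norm_nonneg _) h4 hq0.le).trans ?_
        refine (bpb_supp p hp b h2 (A k) y).1.trans (le_of_eq ?_)
        rw [tsum_eq_sum (s := A k)]
        · refine Finset.sum_congr rfl fun n hn => ?_
          rw [Set.indicator_of_mem (Finset.mem_coe.2 hn)]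
        · intro n hn
          rw [Set.indicator_of_notMem (fun h => hn (Finset.mem_coe.1 h))]
      refine (Finset.sum_le_sum h3).trans ?_
      rw [← Finset.sum_biUnion]
      · exact lp.sum_rpow_le_norm_rpow hq0 y _
      · intro i _ j _ hij
        exact hA i j hij
    let g : lp (fun _ : ℕ => 𝕜) p → lp (fun _ : ℕ => 𝕜) p := fun y =>
      ⟨fun k => φ k y, memℓp_gen' (hbd y)⟩
    have hg : ∀ y k, g y k = φ k y := fun f n => rfl
    let L : lp (fun _ : ℕ => 𝕜) p →ₗ[𝕜] lp (fun _ : ℕ => 𝕜) p :=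
      { toFun := g
        map_add' := by
          intro f f'
          ext n
          rw [lp.coeFn_add, Pi.add_apply, hg, hg, hg, map_add]
        map_smul' := by
          intro c f
          ext n
          rw [RingHom.id_apply, lp.coeFn_smul, Pi.smul_apply, hg, hg, map_smul] }
    refine ⟨L.mkContinuous 1 fun f => ?_, L.mkContinuous_norm_le zero_le_one _, fun k y => ?_⟩
    · rw [one_mul]
      exact lp.norm_le_of_forall_sum_le hq0 (norm_nonneg f) (hbd f)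
    · rw [h2]
      rfl

end Pool.Agent.UUB
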