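import Pool.Agent.UUB.Defs

/-!
# CAN: cancellation of finite dimensional summands

PROOF of `cancel_one`. Let `U : A × 𝕜 ≃ B × 𝕜`, `V = U.symm`, and `φ a = (U (a, 0)).2`,
`u = (U (0, 1)).2`. Case `u ≠ 0`: `f a = (U (a, - φ a / u)).1`, `g b = (V (b, 0)).1`. The second
component of `U (a, - φ a / u)` is `0`, so `V (f a, 0) = (a, - φ a / u)` and `g (f a) = a`. Conversely let
`(a, s) = V (b, 0)`; then `U (a, s) = (b, 0)`, so `φ a + s * u = 0`, `s = - φ a / u` and `f a = b`. Case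
`u = 0`: `φ ≠ 0` as the second component of `U` is surjective; pick `a₀` with `φ a₀ ≠ 0` and compose `U`
with the automorphism `(a, s) ↦ (a + s • a₀, s)` of `A × 𝕜` (inverse `(a, s) ↦ (a - s • a₀, s)`); the
new `u` is `φ a₀ ≠ 0`: apply the first case.

PROOF of `cancel`: induction on `m` with `𝕜^(m+1) ≃ 𝕜^m × 𝕜` (`ContinuousLinearEquiv.finTwoArrow`,
`Fin.consEquivL`, or: finite dimensional spaces of equal dimension are isomorphic,
`ContinuousLinearEquiv.ofFinrankEq`). `finite_model`: `ContinuousLinearEquiv.ofFinrankEq`.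
-/

namespace Pool.Agent.UUB

open Filter Topology Set

variable {𝕜 : Type*} [RCLike 𝕜] {A : Type*} [NormedAddCommGroup A] [NormedSpace 𝕜 A]
  {B : Type*} [NormedAddCommGroup B] [NormedSpace 𝕜 B]

private theorem cancel_ne (U : (A × 𝕜) ≃L[𝕜] (B × 𝕜)) (hu : (U (0, 1)).2 ≠ 0) :
    Nonempty (A ≃L[𝕜] B) := by
  set u := (U (0, 1)).2 with hu'
  let φ : A →L[𝕜] 𝕜 := (ContinuousLinearMap.snd 𝕜 B 𝕜).comp
    ((U : (A × 𝕜) →L[𝕜] (B × 𝕜)).comp (ContinuousLinearMap.inl 𝕜 A 𝕜))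
  have hφ : ∀ a, φ a = (U (a, 0)).2 := fun a => rfl
  let f : A →L[𝕜] B := (ContinuousLinearMap.fst 𝕜 B 𝕜).comp
    ((U : (A × 𝕜) →L[𝕜] (B × 𝕜)).comp
      ((ContinuousLinearMap.id 𝕜 A).prod ((-u⁻¹) • φ)))
  have hf : ∀ a, f a = (U (a, -u⁻¹ * φ a)).1 := fun a => rfl
  let g : B →L[𝕜] A := (ContinuousLinearMap.fst 𝕜 A 𝕜).comp
    ((U.symm : (B × 𝕜) →L[𝕜] (A × 𝕜)).comp (ContinuousLinearMap.inl 𝕜 B 𝕜))
  have hg : ∀ b, g b = (U.symm (b, 0)).1 := fun a => rfl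
  have hsnd : ∀ a s, (U (a, s)).2 = φ a + s * u := by
    intro a s
    have h1 : ((a, s) : A × 𝕜) = (a, 0) + s • (0, 1) := by
      ext <;> simp
    rw [h1, map_add, map_smul, Prod.snd_add, Prod.smul_snd, smul_eq_mul, hφ]
  refine ⟨ContinuousLinearEquiv.equivOfInverse f g ?_ ?_⟩
  · intro a
    have h1 : (U (a, -u⁻¹ * φ a)).2 = 0 := by
      rw [hsnd]
      field_simp
      ring
    have h2 : ((f a, 0) : B × 𝕜) = U (a, -u⁻¹ * φ a) := by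
      ext
      · rw [hf]
      · exact h1.symm
    rw [hg, h2, ContinuousLinearEquiv.symm_apply_apply]
  · intro b
    set p := U.symm (b, 0) with hp
    have h1 : U p = (b, 0) := by rw [hp, ContinuousLinearEquiv.apply_symm_apply]
    have h2 : φ p.1 + p.2 * u = 0 := by
      rw [← hsnd, Prod.mk.eta, h1]
    have h3 : -u⁻¹ * φ p.1 = p.2 := by
      have : φ p.1 = -(p.2 * u) := by linear_combination h2
      rw [this]
      field_simp
    rw [hf, hg, ← hp, h3, Prod.mk.eta, h1]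

theorem cancel_one (U : (A × 𝕜) ≃L[𝕜] (B × 𝕜)) : Nonempty (A ≃L[𝕜] B) := by
  by_cases hu : (U (0, 1)).2 ≠ 0
  · exact cancel_ne U hu
  · push Not at hu
    obtain ⟨a₀, ha⟩ : ∃ a₀ : A, (U (a₀, 0)).2 ≠ 0 := by
      by_contra hcon
      push Not at hcon
      set p := U.symm ((0 : B), (1 : 𝕜)) with hp
      have h1 : U p = (0, 1) := by rw [hp, ContinuousLinearEquiv.apply_symm_apply]
      have h2 : p = (p.1, 0) + p.2 • (0, 1) := by ext <;> simp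
      have h3 : (U p).2 = 0 := by
        rw [h2, map_add, map_smul, Prod.snd_add, Prod.smul_snd, hcon, hu]
        simp
      rw [h1] at h3
      exact one_ne_zero h3
    let F : (A × 𝕜) →L[𝕜] (A × 𝕜) :=
      (ContinuousLinearMap.fst 𝕜 A 𝕜 + (ContinuousLinearMap.snd 𝕜 A 𝕜).smulRight a₀).prod
        (ContinuousLinearMap.snd 𝕜 A 𝕜)
    let G : (A × 𝕜) →L[𝕜] (A × 𝕜) :=
      (ContinuousLinearMap.fst 𝕜 A 𝕜 - (ContinuousLinearMap.snd 𝕜 A 𝕜).smulRight a₀).prod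
        (ContinuousLinearMap.snd 𝕜 A 𝕜)
    have hF : ∀ p : A × 𝕜, F p = (p.1 + p.2 • a₀, p.2) := fun p => rfl
    have hG : ∀ p : A × 𝕜, G p = (p.1 - p.2 • a₀, p.2) := fun p => rfl
    let T : (A × 𝕜) ≃L[𝕜] (A × 𝕜) := ContinuousLinearEquiv.equivOfInverse F G
      (fun p => by rw [hG, hF]; ext <;> simp) (fun p => by rw [hF, hG]; ext <;> simp)
    have hT : ∀ p : A × 𝕜, T p = (p.1 + p.2 • a₀, p.2) := fun p => rfl
    refine cancel_ne (T.trans U) ?_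
    rw [ContinuousLinearEquiv.trans_apply, hT]
    have h2 : ((0 + (1 : 𝕜) • a₀, (1 : 𝕜)) : A × 𝕜) = (a₀, 0) + (0, 1) := by ext <;> simp
    change (U (0 + (1 : 𝕜) • a₀, (1 : 𝕜))).2 ≠ 0
    rw [h2, map_add, Prod.snd_add, hu, add_zero]
    exact ha

private theorem can_succ (A : Type*) [NormedAddCommGroup A] [NormedSpace 𝕜 A] (k : ℕ) :
    Nonempty ((A × (Fin (k + 1) → 𝕜)) ≃L[𝕜] ((A × (Fin k → 𝕜)) × 𝕜)) := by
  have h : Module.finrank 𝕜 (Fin (k + 1) → 𝕜) = Module.finrank 𝕜 ((Fin k → 𝕜) × 𝕜) := by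
    simp
  let e := ContinuousLinearEquiv.ofFinrankEq h
  exact ⟨((ContinuousLinearEquiv.refl 𝕜 A).prodCongr e).trans
    (ContinuousLinearEquiv.prodAssoc 𝕜 A (Fin k → 𝕜) 𝕜).symm⟩

private theorem can_zero (A : Type*) [NormedAddCommGroup A] [NormedSpace 𝕜 A] :
    Nonempty ((A × (Fin 0 → 𝕜)) ≃L[𝕜] A) := by
  refine ⟨ContinuousLinearEquiv.equivOfInverse (ContinuousLinearMap.fst 𝕜 A (Fin 0 → 𝕜))
    (ContinuousLinearMap.inl 𝕜 A (Fin 0 → 𝕜)) ?_ ?_⟩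
  · intro p
    ext i
    · simp
    · exact i.elim0
  · intro a
    simp

theorem cancel {m n : ℕ} (h : m ≤ n) (U : (A × (Fin m → 𝕜)) ≃L[𝕜] (B × (Fin n → 𝕜))) :
    Nonempty (A ≃L[𝕜] (B × (Fin (n - m) → 𝕜))) := by
  induction m generalizing n with
  | zero =>
    obtain ⟨e⟩ := can_zero (𝕜 := 𝕜) A
    exact ⟨e.symm.trans U⟩
  | succ m ih =>
    obtain ⟨n', rfl⟩ : ∃ n', n = n' + 1 := ⟨n - 1, by omega⟩
    obtain ⟨e1⟩ := can_succ (𝕜 := 𝕜) A m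
    obtain ⟨e2⟩ := can_succ (𝕜 := 𝕜) B n'
    obtain ⟨e3⟩ := cancel_one ((e1.symm.trans U).trans e2)
    have h1 := ih (by omega) e3
    rwa [Nat.add_sub_add_right]

theorem cancel_eq {m : ℕ} (U : (A × (Fin m → 𝕜)) ≃L[𝕜] (B × (Fin m → 𝕜))) :
    Nonempty (A ≃L[𝕜] B) := by
  obtain ⟨e⟩ := cancel le_rfl U
  rw [Nat.sub_self] at e
  obtain ⟨e2⟩ := can_zero (𝕜 := 𝕜) B
  exact ⟨e.trans e2⟩

theorem finite_model (V : Type*) [NormedAddCommGroup V] [NormedSpace 𝕜 V]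
    [FiniteDimensional 𝕜 V] : Nonempty (V ≃L[𝕜] (Fin (Module.finrank 𝕜 V) → 𝕜)) :=
  ⟨ContinuousLinearEquiv.ofFinrankEq (by simp)⟩

end Pool.Agent.UUB
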