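import Pool.Agent.UUB.UAA
import Pool.Agent.UUB.CTS

/-!
# CLS: the range of `S b M` is the closed span, and the splitting theorem in plain terms
-/

namespace Pool.Agent.UUB

open Filter Topology Set

variable {𝕜 : Type*} [RCLike 𝕜]

theorem rg_S_eq {W : Type*} [NormedAddCommGroup W] [NormedSpace 𝕜 W] [CompleteSpace W] {J : Type}
    (b : UnconditionalSchauderBasis J 𝕜 W) (M : Set J) :
    Rg (S b M) = (Submodule.span 𝕜 ((fun j => b j) '' M)).topologicalClosure := by
  apply le_antisymm
  · rintro _ ⟨w, rfl⟩
    have h : HasSum (fun j => (M.indicator (fun _ => (1 : 𝕜)) j * b.coord j w) • b j) (S b M w) :=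
      hasSum_mulOp b (bdd_indicator M) w
    have hcl : IsClosed ((Submodule.span 𝕜 ((fun j => b j) '' M)).topologicalClosure : Set W) :=
      Submodule.isClosed_topologicalClosure _
    refine hcl.mem_of_tendsto h (Eventually.of_forall fun Φ => ?_)
    refine Submodule.sum_mem _ fun j _ => ?_
    by_cases hj : j ∈ M
    · exact Submodule.smul_mem _ _ (Submodule.le_topologicalClosure _
        (Submodule.subset_span (mem_image_of_mem (fun j => b j) hj)))
    · simp only [indicator_of_notMem hj, zero_mul, zero_smul]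
      exact Submodule.zero_mem _
  · have hcl : IsClosed (Rg (S b M) : Set W) := by
      have : (Rg (S b M) : Set W) = {w | S b M w = w} := by
        ext w
        constructor
        · rintro ⟨v, rfl⟩
          change (S b M * S b M) v = S b M v
          rw [S_idem]
        · intro hw
          exact ⟨w, hw⟩
      rw [this]
      exact isClosed_eq (S b M).continuous continuous_id
    refine Submodule.topologicalClosure_minimal _ ?_ hcl
    rw [Submodule.span_le]
    rintro _ ⟨j, hj, rfl⟩
    exact ⟨b j, S_basis_mem b hj⟩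

variable {X : Type*} [NormedAddCommGroup X] [NormedSpace 𝕜 X] [CompleteSpace X]
  {Y : Type*} [NormedAddCommGroup Y] [NormedSpace 𝕜 Y] [CompleteSpace Y]

theorem splitting_plain
    (hc : ∀ (T : Y →L[𝕜] X) (U : X →L[𝕜] Y), IsCompactOperator (U.comp T)) {J : Type}
    {x : J → X × Y} (hx : IsUncBasis 𝕜 x) :
    ∃ M : Set J,
      Nonempty ((Submodule.span 𝕜 (x '' M)).topologicalClosure ≃L[𝕜] Y) ∧
      Nonempty ((Submodule.span 𝕜 (x '' Mᶜ)).topologicalClosure ≃L[𝕜] X) := by
  obtain ⟨b, hb⟩ := exists_schauder hx
  have : Countable J := hx.1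
  obtain ⟨M, h1, h2⟩ := splitX hc b
  have e : (fun j => b j) = x := funext hb
  refine ⟨M, ?_, ?_⟩
  · rw [rg_S_eq, e] at h1
    exact h1
  · rw [rg_S_eq, e] at h2
    exact h2

end Pool.Agent.UUB
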