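import Pool.Agent.UUB.SP1

/-!
# DEC: the corner of the complementary diagonal projection is small plus finite rank

PROOF of `corner_decomp`. Apply `first_extraction` with `δ₁ = δ / (2 * (‖P‖ + 1))` and get `A`. Let
`N = N0 b P A` and `c j = (2 * (1 - dg b P j))⁻¹` for `j ∈ N`, `c j = 0` otherwise: `‖c j‖ ≤ 1` since
`1 / 2 ≤ ‖1 - dg b P j‖` on `N`, and `c = 0` on `A`. Then `c j * (1 - dg b P j)` is `1 / 2` times the
indicator of `N` (`mulOp_smul`), hence `‖S b Aᶜ * P * S b N * P‖ ≤ 2 δ₁`. Put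
`T = P * S b Aᶜ * P * S b N * P`, `‖T‖ ≤ 2 ‖P‖ δ₁ ≤ δ`, and `R' = P * S b A * P * S b N * P`, whose range
is finite dimensional (`finiteDimensional_S_finset`: it is the image under `P` of a subspace of the
range of `S b A`). The sum is `P * (S b Aᶜ + S b A) * P * S b N * P = P * P * S b N * P` (`S_compl`), and
`P * P = P` gives the four identities.
-/

namespace Pool.Agent.UUB

open Filter Topology Set

variable {𝕜 : Type*} [RCLike 𝕜] {W : Type*} [NormedAddCommGroup W] [NormedSpace 𝕜 W]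
  [CompleteSpace W] {J : Type} (b : UnconditionalSchauderBasis J 𝕜 W)

omit [CompleteSpace W] in
/-- The indices off `A` at which the diagonal entry of `P` is not close to `1`. -/
def N0 (P : W →L[𝕜] W) (A : Finset J) : Set J := {j | j ∉ A ∧ 1 / 2 ≤ ‖1 - dg b P j‖}

theorem corner_decomp [Countable J] {P : W →L[𝕜] W} (hP : CompactCorner P) {δ : ℝ}
    (hδ : 0 < δ) :
    ∃ (A : Finset J) (T R' : W →L[𝕜] W), P * S b (N0 b P A) * P = T + R' ∧ ‖T‖ ≤ δ ∧
      P * T = T ∧ T * P = T ∧ P * R' = R' ∧ R' * P = R' ∧ FiniteDimensional 𝕜 (Rg R') := by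
  classical
  have hPP : P * P = P := hP.1
  have hn : 0 ≤ ‖P‖ := norm_nonneg P
  obtain ⟨A, hA⟩ := first_extraction b hP (δ := δ / (2 * (‖P‖ + 1))) (by positivity)
  set N : Set J := N0 b P A with hN
  let c : J → 𝕜 := fun j => if j ∈ N then (2 * (1 - dg b P j))⁻¹ else 0
  have hc1 : ∀ j, ‖c j‖ ≤ 1 := by
    intro j
    by_cases hj : j ∈ N
    · have h1 : 1 / 2 ≤ ‖1 - dg b P j‖ := hj.2
      simp only [c, if_pos hj]
      rw [norm_inv, norm_mul, RCLike.norm_ofNat]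
      apply inv_le_one_of_one_le₀
      linarith
    · simp [c, if_neg hj]
  have hc2 : ∀ j ∈ A, c j = 0 := by
    intro j hj
    have : j ∉ N := fun h => h.1 hj
    simp [c, if_neg this]
  have h0 := hA c hc1 hc2
  have hcc : (fun j => c j * (1 - dg b P j)) =
      fun j => (1 / 2 : 𝕜) * (N.indicator (fun _ => (1 : 𝕜)) j) := by
    funext j
    by_cases hj : j ∈ N
    · have h1 : 1 / 2 ≤ ‖1 - dg b P j‖ := hj.2
      have h2 : (1 - dg b P j) ≠ 0 := by
        intro h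
        rw [h, norm_zero] at h1
        norm_num at h1
      simp only [c, if_pos hj, Set.indicator_of_mem hj]
      field_simp
    · simp [c, if_neg hj, Set.indicator_of_notMem hj]
  rw [hcc, mulOp_smul b (1 / 2 : 𝕜) (bdd_indicator N)] at h0
  change ‖S b ((A : Set J)ᶜ) * P * ((1 / 2 : 𝕜) • S b N) * P‖ ≤ _ at h0
  have h1 : S b ((A : Set J)ᶜ) * P * ((1 / 2 : 𝕜) • S b N) * P =
      (1 / 2 : 𝕜) • (S b ((A : Set J)ᶜ) * P * S b N * P) := by
    rw [mul_smul_comm, smul_mul_assoc]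
  rw [h1, norm_smul] at h0
  have h2 : ‖(1 / 2 : 𝕜)‖ = 1 / 2 := by
    rw [norm_div, norm_one, RCLike.norm_ofNat]
  rw [h2] at h0
  have h3 : ‖S b ((A : Set J)ᶜ) * P * S b N * P‖ ≤ δ / (‖P‖ + 1) := by
    have : δ / (2 * (‖P‖ + 1)) = 1 / 2 * (δ / (‖P‖ + 1)) := by
      field_simp
    rw [this] at h0
    linarith
  refine ⟨A, P * (S b ((A : Set J)ᶜ) * P * S b N * P), P * (S b (A : Set J) * P * S b N * P),
    ?_, ?_, ?_, ?_, ?_, ?_, ?_⟩
  · rw [S_compl, ← mul_add, ← add_mul, ← add_mul, ← add_mul]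
    rw [sub_add_cancel, one_mul, ← mul_assoc, ← mul_assoc, hPP]
  · calc ‖P * (S b ((A : Set J)ᶜ) * P * S b N * P)‖
        ≤ ‖P‖ * ‖S b ((A : Set J)ᶜ) * P * S b N * P‖ := norm_mul_le _ _
      _ ≤ ‖P‖ * (δ / (‖P‖ + 1)) := mul_le_mul_of_nonneg_left h3 hn
      _ ≤ δ := by
        rw [mul_div_assoc', div_le_iff₀ (by positivity)]
        nlinarith
  · rw [← mul_assoc, hPP]
  · rw [mul_assoc, mul_assoc _ P P, hPP]
  · rw [← mul_assoc, hPP]
  · rw [mul_assoc, mul_assoc _ P P, hPP]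
  · have hfd := finiteDimensional_S_finset b A
    have hle : Rg (P * (S b (A : Set J) * P * S b N * P)) ≤
        (Rg (S b (A : Set J))).map P.toLinearMap := by
      rintro _ ⟨w, rfl⟩
      exact ⟨S b (A : Set J) (P (S b N (P w))), ⟨P (S b N (P w)), rfl⟩, rfl⟩
    exact Submodule.finiteDimensional_of_le hle

/-- off `N0 ∪ A` the diagonal entry of `P` is at least one half (triangle inequality) -/
theorem half_le_dg {P : W →L[𝕜] W} {A : Finset J} {n : J} (h : n ∉ N0 b P A) (hA : n ∉ A) :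
    1 / 2 ≤ ‖dg b P n‖ := by
  have h1 : ‖1 - dg b P n‖ < 1 / 2 := by
    by_contra hh
    push Not at hh
    exact h ⟨hA, hh⟩
  have h2 : (1 : ℝ) ≤ ‖1 - dg b P n‖ + ‖dg b P n‖ := by
    calc (1 : ℝ) = ‖(1 : 𝕜)‖ := norm_one.symm
      _ = ‖(1 - dg b P n) + dg b P n‖ := by rw [sub_add_cancel]
      _ ≤ _ := norm_add_le _ _
  linarith

end Pool.Agent.UUB
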