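import Pool.Agent.UUB.MU3

/-!
# DIA: blocks on which a non-compact operator acts almost locally

Intervals of `ℕ`: `S b (Iio m)` has finite rank (`S_finset` with `Finset.range m`), `S b (Ici m) = 1 - S b (Iio m)`,
`S b (Ico m m')`; all have norm `≤ 1` (`hb.supp`). `tendsto_Ici`: `S b (Ici m) w → 0` (`tendsto_S_compl`
composed with `Finset.range`, which tends to `atTop`).

PROOF of `exists_lower_bound`. The numbers `x m = ‖S b (Ici m) * T * S b (Ici m)‖` are non-increasing. If no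
`c > 0` works then `x m → 0`. Since `T = S b (Iio m) * T + S b (Ici m) * T * S b (Iio m)
+ S b (Ici m) * T * S b (Ici m)`, `T` is a norm limit of finite rank operators, hence compact
(`isCompactOperator_of_tendsto`, or `IsClosed` of the set of compact operators): contradiction.

PROOF of `exists_piece`. `c < ‖S b (Ici m) * T * S b (Ici m)‖` gives `w`, `‖w‖ < 1`, with
`c < ‖S b (Ici m) (T (S b (Ici m) w))‖` (`ContinuousLinearMap.exists_lt_apply_of_lt_opNorm`). Let
`y = S b (Ico m m₁) w` with `m₁` so large that `c < ‖S b (Ici m) (T y)‖` still holds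
(`y → S b (Ici m) w` as `m₁ → ∞`). Then choose `m₂ ≥ m₁`, `m₂ > m` with `‖S b (Ici m₂) (T y)‖ ≤ η`
(`tendsto_Ici`); `y = S b (Ico m m₂) y`.
-/

namespace Pool.Agent.UUB

open Filter Topology Set

variable {𝕜 : Type*} [RCLike 𝕜] {Y : Type*} [NormedAddCommGroup Y] [NormedSpace 𝕜 Y]
  [CompleteSpace Y] (b : UnconditionalSchauderBasis ℕ 𝕜 Y)

private theorem dia_Ici_eq (m : ℕ) : Ici m = ((Finset.range m : Finset ℕ) : Set ℕ)ᶜ := by
  ext x
  simp

private theorem dia_S_Ici (m : ℕ) :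
    S b (Ici m) = 1 - S b ((Finset.range m : Finset ℕ) : Set ℕ) := by
  rw [dia_Ici_eq, S_compl]

theorem tendsto_Ici (w : Y) : Tendsto (fun m : ℕ => S b (Ici m) w) atTop (𝓝 0) := by
  have h := (tendsto_S_compl b w).comp tendsto_finset_range
  refine h.congr fun m => ?_
  simp only [Function.comp_apply]
  rw [dia_Ici_eq]

theorem exists_lower_bound (hb : BlockBasis b) {T : Y →L[𝕜] Y}
    (hT : ¬ IsCompactOperator T) :
    ∃ c : ℝ, 0 < c ∧ ∀ m : ℕ, c < ‖S b (Ici m) * T * S b (Ici m)‖ := by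
  by_contra hcon
  push Not at hcon
  apply hT
  have hch : ∀ k : ℕ, ∃ m : ℕ, ‖S b (Ici m) * T * S b (Ici m)‖ ≤ 1 / ((k : ℝ) + 1) :=
    fun k => hcon _ (by positivity)
  choose m hm using hch
  have hcomp : ∀ j : ℕ, IsCompactOperator (S b ((Finset.range j : Finset ℕ) : Set ℕ)) :=
    fun j => isCompactOperator_of_finiteDimensional (finiteDimensional_S_finset b _)
  set F : ℕ → (Y →L[𝕜] Y) := fun k =>
    S b ((Finset.range (m k) : Finset ℕ) : Set ℕ) * T +
      S b (Ici (m k)) * T * S b ((Finset.range (m k) : Finset ℕ) : Set ℕ) with hF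
  have hdiff : ∀ k, T - F k = S b (Ici (m k)) * T * S b (Ici (m k)) := by
    intro k
    simp only [hF, dia_S_Ici]
    noncomm_ring
  have htend : Tendsto F atTop (𝓝 T) := by
    rw [tendsto_iff_norm_sub_tendsto_zero]
    refine squeeze_zero (fun k => norm_nonneg _) (fun k => ?_)
      tendsto_one_div_add_atTop_nhds_zero_nat
    rw [norm_sub_rev, hdiff]
    exact hm k
  refine isCompactOperator_of_tendsto htend (Eventually.of_forall fun k => ?_)
  have h1 : IsCompactOperator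
      (S b ((Finset.range (m k) : Finset ℕ) : Set ℕ) * T : Y →L[𝕜] Y) :=
    (hcomp (m k)).comp_clm T
  have h2 : IsCompactOperator
      (S b (Ici (m k)) * T * S b ((Finset.range (m k) : Finset ℕ) : Set ℕ) : Y →L[𝕜] Y) :=
    (hcomp (m k)).clm_comp (S b (Ici (m k)) * T)
  exact h1.add h2

theorem exists_piece (hb : BlockBasis b) {T : Y →L[𝕜] Y} {c : ℝ} (hc : 0 < c)
    (h : ∀ m : ℕ, c < ‖S b (Ici m) * T * S b (Ici m)‖) (m : ℕ) {η : ℝ} (hη : 0 < η) :
    ∃ (m' : ℕ) (y : Y), m < m' ∧ ‖y‖ ≤ 1 ∧ S b (Ico m m') y = y ∧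
      c < ‖S b (Ici m) (T y)‖ ∧ ‖S b (Ici m') (T y)‖ ≤ η := by
  obtain ⟨w, hw1, hw2⟩ := ContinuousLinearMap.exists_lt_apply_of_lt_opNorm _ (h m)
  have hsplit : ∀ m₁, m ≤ m₁ → S b (Ico m m₁) w = S b (Ici m) w - S b (Ici m₁) w := by
    intro m₁ h1
    have e1 : Ico m m₁ = (Ici m₁)ᶜ ∩ Ici m := by
      ext x
      simp [and_comm]
    have e2 : Ici m₁ ∩ Ici m = Ici m₁ := by
      ext x
      simp
      omega
    rw [e1, ← S_mul_S, S_compl]
    have e3 : S b (Ici m₁) * S b (Ici m) = S b (Ici m₁) := by rw [S_mul_S, e2]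
    rw [sub_mul, one_mul, e3]
    rfl
  have ht : Tendsto (fun m₁ : ℕ => ‖S b (Ici m) (T (S b (Ico m m₁) w))‖) atTop
      (𝓝 ‖S b (Ici m) (T (S b (Ici m) w))‖) := by
    have h1 : Tendsto (fun m₁ : ℕ => S b (Ico m m₁) w) atTop (𝓝 (S b (Ici m) w)) := by
      have h2 := (tendsto_Ici b w).const_sub (S b (Ici m) w)
      rw [sub_zero] at h2
      refine h2.congr' ?_
      filter_upwards [eventually_ge_atTop m] with m₁ hm₁
      exact (hsplit m₁ hm₁).symm
    have h3 : Continuous fun y : Y => ‖S b (Ici m) (T y)‖ := by fun_prop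
    exact (h3.tendsto _).comp h1
  have hw2' : c < ‖S b (Ici m) (T (S b (Ici m) w))‖ := hw2
  obtain ⟨m₁, hm₁⟩ := (ht.eventually (lt_mem_nhds hw2')).exists
  set y := S b (Ico m m₁) w with hy
  have ht2 : Tendsto (fun m₂ : ℕ => ‖S b (Ici m₂) (T y)‖) atTop (𝓝 0) := by
    have := (tendsto_Ici b (T y)).norm
    simpa using this
  obtain ⟨m₂, hm₂, hm₂'⟩ := ((ht2.eventually (gt_mem_nhds hη)).and
    (eventually_ge_atTop (max m₁ (m + 1)))).exists
  refine ⟨m₂, y, ?_, ?_, ?_, hm₁, hm₂.le⟩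
  · have := le_trans (le_max_right _ _) hm₂'
    omega
  · calc ‖y‖ ≤ ‖S b (Ico m m₁)‖ * ‖w‖ := ContinuousLinearMap.le_opNorm _ _
      _ ≤ 1 * 1 := by
        gcongr
        · exact hb.supp _
      _ = 1 := one_mul 1
  · have e1 : Ico m m₂ ∩ Ico m m₁ = Ico m m₁ := by
      have := le_trans (le_max_left _ _) hm₂'
      ext x
      simp
      omega
    have e2 : S b (Ico m m₂) * S b (Ico m m₁) = S b (Ico m m₁) := by rw [S_mul_S, e1]
    have := congrArg (fun A : Y →L[𝕜] Y => A w) e2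
    exact this

end Pool.Agent.UUB
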