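import Pool.Agent.UUB.DIC

/-!
# DIB: a non-compact operator on a block space factors the identity

PROOF. Let `c` be from `exists_lower_bound` and `K ≥ 1` from `exists_norm_mulOp_le`. Choose
`τ j = c / (64 * K) * (1 / 2) ^ j`, so `∑ τ j = c / (32 K)` and `τ j ≤ c / 8`. By `exists_block` choose
recursively `m_0 = 0 < m_1 < ...` and `z_j` with `‖z_j‖ ≤ 2`, `S b (Ico m_j m_{j+1}) z_j = z_j`,
`c / 2 ≤ ‖T z_j‖`, `‖S b (Iio m_j) (T z_j)‖ < τ j`, `‖S b (Ici m_{j+1}) (T z_j)‖ < τ j`. Put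
`w_j = S b (Ico m_j m_{j+1}) (T z_j)`; then `‖T z_j - w_j‖ ≤ 2 τ j` and `‖w_j‖ ≥ c / 2 - 2 τ j ≥ c / 4`.
Let `g_j` be a functional with `‖g_j‖ ≤ 1`, `g_j w_j = ‖w_j‖` (`exists_dual_vector`), and
`φ_j = g_j ∘ S b (Ico m_j m_{j+1})`, `‖φ_j‖ ≤ 1` (`hb.supp`), `φ_j w_j = ‖w_j‖`, `φ_k w_j = 0` for
`k ≠ j` (disjoint supports). The sets `A j = Finset.Ico m_j m_{j+1}` are pairwise disjoint. `hb.up` with the
vectors `(1 / 2) • z_j` gives `U` with `U (b j) = (1 / 2) • z_j`; `hb.down` with `φ_j` gives `V`,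
`‖V‖ ≤ 1`, with `b.coord k (V y) = φ_k y`. So `V w_j = (‖w_j‖ : 𝕜) • b j` (compare coordinates) and
`V (T (U (b j))) = (‖w_j‖ / 2 : 𝕜) • b j + r_j`, `r_j = (1 / 2) • V (T z_j - w_j)`, `‖r_j‖ ≤ τ j`.
Let `d j = ‖w_j‖ / 2 ∈ [c / 8, ‖T‖]` and `D' = mulOp b (fun j => (d j)⁻¹)`, `‖D'‖ ≤ 8 K / c`. The operator
`D' * V * T * U - 1` maps `b j` to `D' r_j`, so for all `y` (expand `y`; `‖b.coord j‖ ≤ 1` because
`‖b.coord j y‖ = ‖S b {j} y‖ ≤ ‖y‖`), `‖(D' * V * T * U - 1) y‖ ≤ ∑ ‖y‖ ‖D'‖ τ j ≤ (8 K / c) (c / (32 K)) ‖y‖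
= ‖y‖ / 4`. So `D' * V * T * U = 1 - N` with `‖N‖ < 1` is invertible with inverse `N'`
(`Units.oneSub`), and `(N' * D' * V) * T * U = 1`.
-/

namespace Pool.Agent.UUB

open Filter Topology Set

variable {𝕜 : Type*} [RCLike 𝕜] {Y : Type*} [NormedAddCommGroup Y] [NormedSpace 𝕜 Y]
  [CompleteSpace Y] (b : UnconditionalSchauderBasis ℕ 𝕜 Y)

private theorem dib_split {a c : ℕ} (h : a ≤ c) (v : Y) :
    v = S b (Iio a) v + S b (Ico a c) v + S b (Ici c) v := by
  refine ext_coord b fun n => ?_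
  rw [map_add, map_add]
  rcases lt_or_ge n a with h1 | h1
  · rw [coord_S_mem b (show n ∈ Iio a from h1), coord_S_notMem b (show n ∉ Ico a c from by
      rintro ⟨h2, -⟩
      exact absurd h1 (not_lt.2 h2)), coord_S_notMem b (show n ∉ Ici c from by
      intro h2
      exact absurd (lt_of_lt_of_le h1 h) (not_lt.2 h2))]
    ring
  · rcases lt_or_ge n c with h2 | h2
    · rw [coord_S_notMem b (show n ∉ Iio a from not_lt.2 h1),
        coord_S_mem b (show n ∈ Ico a c from ⟨h1, h2⟩),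
        coord_S_notMem b (show n ∉ Ici c from not_le.2 h2)]
      ring
    · rw [coord_S_notMem b (show n ∉ Iio a from not_lt.2 h1),
        coord_S_notMem b (show n ∉ Ico a c from fun h3 => absurd h3.2 (not_lt.2 h2)),
        coord_S_mem b (show n ∈ Ici c from h2)]
      ring

private theorem dib_coord (hb : BlockBasis b) (j : ℕ) (y : Y) : ‖b.coord j y‖ ≤ ‖y‖ := by
  have h1 : S b (({j} : Finset ℕ) : Set ℕ) = R b j := by
    rw [S_finset, Finset.sum_singleton]
  have h2 : ‖R b j y‖ ≤ ‖y‖ := by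
    rw [← h1]
    exact ((S b _).le_opNorm y).trans (mul_le_of_le_one_left (norm_nonneg _) (hb.supp _))
  rw [R_apply, norm_smul, hb.norm_basis, mul_one] at h2
  exact h2

theorem dichotomy (hb : BlockBasis b) {T : Y →L[𝕜] Y} (hT : ¬ IsCompactOperator T) :
    ∃ U V : Y →L[𝕜] Y, V * T * U = 1 := by
  classical
  obtain ⟨c, hc, h⟩ := exists_lower_bound b hb hT
  obtain ⟨K, hK1, hK⟩ := exists_norm_mulOp_le b
  have hK0 : 0 < K := by linarith
  set τ : ℕ → ℝ := fun j => c / (64 * K) * (1 / 2) ^ j with hτdef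
  have hτ : ∀ j, 0 < τ j := fun j => by
    simp only [hτdef]
    positivity
  have hτc : ∀ j, τ j ≤ c / 64 := fun j => by
    have h1 : c / (64 * K) ≤ c / 64 :=
      div_le_div_of_nonneg_left hc.le (by norm_num) (by linarith)
    have h2 : ((1 : ℝ) / 2) ^ j ≤ 1 := pow_le_one₀ (by norm_num) (by norm_num)
    calc τ j ≤ c / (64 * K) * 1 := mul_le_mul_of_nonneg_left h2 (by positivity)
      _ ≤ c / 64 := by linarith
  choose F zv hF using fun (m j : ℕ) => exists_block b hb hc h m (hτ j)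
  set ms : ℕ → ℕ := fun i => Nat.rec 0 (fun j m => F m j) i with hms
  have hmsS : ∀ j, ms (j + 1) = F (ms j) j := fun j => rfl
  set z : ℕ → Y := fun j => zv (ms j) j with hz
  have hlt : ∀ j, ms j < ms (j + 1) := fun j => (hF (ms j) j).1
  have hmono : StrictMono ms := strictMono_nat_of_lt_succ hlt
  have hz2 : ∀ j, ‖z j‖ ≤ 2 := fun j => (hF (ms j) j).2.1
  have hzS : ∀ j, S b (Ico (ms j) (ms (j + 1))) (z j) = z j := fun j => (hF (ms j) j).2.2.1
  have hzT : ∀ j, c / 2 ≤ ‖T (z j)‖ := fun j => (hF (ms j) j).2.2.2.1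
  have hzl : ∀ j, ‖S b (Iio (ms j)) (T (z j))‖ < τ j := fun j => (hF (ms j) j).2.2.2.2.1
  have hzr : ∀ j, ‖S b (Ici (ms (j + 1))) (T (z j))‖ < τ j := fun j => (hF (ms j) j).2.2.2.2.2
  set A : ℕ → Finset ℕ := fun j => Finset.Ico (ms j) (ms (j + 1)) with hA
  have hAc : ∀ j, ((A j : Finset ℕ) : Set ℕ) = Ico (ms j) (ms (j + 1)) := fun j =>
    Finset.coe_Ico _ _
  have hdis : ∀ i j, i ≠ j → Disjoint (A i) (A j) := by
    have hlt' : ∀ i j, i < j → Disjoint (A i) (A j) := by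
      intro i j hij
      rw [Finset.disjoint_left]
      intro x hx hx'
      rw [Finset.mem_Ico] at hx hx'
      have : ms (i + 1) ≤ ms j := hmono.monotone hij
      omega
    intro i j hij
    rcases lt_or_gt_of_ne hij with h1 | h1
    · exact hlt' i j h1
    · exact (hlt' j i h1).symm
  set w : ℕ → Y := fun j => S b (A j : Set ℕ) (T (z j)) with hw
  have hdiff : ∀ j, ‖T (z j) - w j‖ ≤ 2 * τ j := by
    intro j
    have h1 := dib_split b (hlt j).le (T (z j))
    have h2 : T (z j) - w j = S b (Iio (ms j)) (T (z j)) + S b (Ici (ms (j + 1))) (T (z j)) := by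
      rw [hw]
      simp only [hAc]
      nth_rewrite 1 [h1]
      abel
    rw [h2]
    refine (norm_add_le _ _).trans ?_
    have h3 := hzl j
    have h4 := hzr j
    linarith
  have hwn : ∀ j, c / 4 ≤ ‖w j‖ := by
    intro j
    have h1 : ‖T (z j)‖ ≤ ‖T (z j) - w j‖ + ‖w j‖ := by
      have := norm_add_le (T (z j) - w j) (w j)
      rwa [sub_add_cancel] at this
    have h2 := hdiff j
    have h3 := hτc j
    have h4 := hzT j
    linarith
  choose g hg1 hg2 using fun j => exists_dual_vector'' 𝕜 (w j)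
  set φ : ℕ → StrongDual 𝕜 Y := fun j => (g j).comp (S b (A j : Set ℕ)) with hφ
  have hφn : ∀ j, ‖φ j‖ ≤ 1 := by
    intro j
    refine (ContinuousLinearMap.opNorm_comp_le _ _).trans ?_
    exact mul_le_one₀ (hg1 j) (norm_nonneg _) (hb.supp _)
  have hSS : ∀ (M N : Set ℕ) (y : Y), S b M (S b N y) = S b (M ∩ N) y := fun M N y => by
    rw [← S_mul_S]
    rfl
  have hφS : ∀ k y, φ k (S b (A k : Set ℕ) y) = φ k y := by
    intro k y
    change g k (S b (A k : Set ℕ) (S b (A k : Set ℕ) y)) = g k (S b (A k : Set ℕ) y)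
    rw [hSS, Set.inter_self]
  obtain ⟨U, -, hU⟩ := hb.up A (fun k => (1 / 2 : 𝕜) • z k) hdis (by
    intro k
    rw [norm_smul]
    have h1 : ‖(1 / 2 : 𝕜)‖ = 1 / 2 := by
      rw [norm_div, norm_one, RCLike.norm_ofNat]
    rw [h1]
    have := hz2 k
    linarith) (by
    intro k
    rw [map_smul, hAc, hzS])
  obtain ⟨V, hV1, hV⟩ := hb.down A φ hdis hφn hφS
  have hVw : ∀ j, V (w j) = ((‖w j‖ : ℝ) : 𝕜) • b j := by
    intro j
    refine ext_coord b fun k => ?_
    rw [hV, map_smul, b.ortho, smul_eq_mul]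
    by_cases hk : k = j
    · subst hk
      have h1 : φ k (w k) = ((‖w k‖ : ℝ) : 𝕜) := by
        rw [hw]
        simp only
        rw [hφS]
        exact hg2 k
      rw [h1]
      simp
    · have h1 : φ k (w j) = 0 := by
        change g k (S b (A k : Set ℕ) (S b (A j : Set ℕ) (T (z j)))) = 0
        rw [hSS]
        have h2 : ((A k : Finset ℕ) : Set ℕ) ∩ (A j : Set ℕ) = ∅ := by
          rw [← Finset.coe_inter, Finset.disjoint_iff_inter_eq_empty.1 (hdis k j hk),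
            Finset.coe_empty]
        rw [h2]
        have h3 : S b (∅ : Set ℕ) (T (z j)) = 0 := by
          refine ext_coord b fun n => ?_
          rw [coord_S_notMem b (Set.notMem_empty n), map_zero]
        rw [h3, map_zero]
      rw [h1]
      simp [hk]
  set d : ℕ → ℝ := fun j => ‖w j‖ / 2 with hd
  have hd8 : ∀ j, c / 8 ≤ d j := fun j => by
    have := hwn j
    simp only [hd]
    linarith
  have hd0 : ∀ j, 0 < d j := fun j => lt_of_lt_of_le (by positivity) (hd8 j)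
  set m : ℕ → 𝕜 := fun j => (((d j : ℝ) : 𝕜))⁻¹ with hm
  have hmn : ∀ j, ‖m j‖ ≤ 8 / c := by
    intro j
    simp only [hm]
    rw [norm_inv, RCLike.norm_ofReal, abs_of_pos (hd0 j)]
    rw [inv_le_comm₀ (hd0 j) (by positivity), inv_div]
    exact hd8 j
  have hmb : Bdd m := ⟨8 / c, hmn⟩
  have hDn : ‖mulOp b m‖ ≤ K * (8 / c) := hK m (8 / c) (by positivity) hmn
  set N : Y →L[𝕜] Y := mulOp b m * V * T * U - 1 with hN
  have hNb : ∀ j, ‖N (b j)‖ ≤ (1 / 8) * (1 / 2) ^ j := by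
    intro j
    have h1 : V (T (U (b j))) = ((d j : ℝ) : 𝕜) • b j + (1 / 2 : 𝕜) • V (T (z j) - w j) := by
      rw [hU, map_smul, map_smul, map_sub, hVw, smul_sub, smul_smul]
      have h2 : (1 / 2 : 𝕜) * ((‖w j‖ : ℝ) : 𝕜) = ((d j : ℝ) : 𝕜) := by
        simp only [hd]
        push_cast
        ring
      rw [h2]
      abel
    have h3 : N (b j) = mulOp b m ((1 / 2 : 𝕜) • V (T (z j) - w j)) := by
      have h4 : N (b j) = mulOp b m (V (T (U (b j)))) - b j := rfl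
      rw [h4, h1, map_add, map_smul, mulOp_basis b hmb, smul_smul]
      have h5 : ((d j : ℝ) : 𝕜) * m j = 1 := by
        simp only [hm]
        exact mul_inv_cancel₀ (by exact_mod_cast (hd0 j).ne')
      rw [h5, one_smul]
      abel
    rw [h3]
    have h6 : ‖(1 / 2 : 𝕜) • V (T (z j) - w j)‖ ≤ τ j := by
      rw [norm_smul]
      have h7 : ‖(1 / 2 : 𝕜)‖ = 1 / 2 := by
        rw [norm_div, norm_one, RCLike.norm_ofNat]
      rw [h7]
      have h8 : ‖V (T (z j) - w j)‖ ≤ 2 * τ j :=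
        ((V.le_opNorm _).trans (mul_le_of_le_one_left (norm_nonneg _) hV1)).trans (hdiff j)
      linarith
    calc ‖mulOp b m ((1 / 2 : 𝕜) • V (T (z j) - w j))‖
        ≤ ‖mulOp b m‖ * ‖(1 / 2 : 𝕜) • V (T (z j) - w j)‖ := (mulOp b m).le_opNorm _
      _ ≤ (K * (8 / c)) * τ j := mul_le_mul hDn h6 (norm_nonneg _) (by positivity)
      _ = (1 / 8) * (1 / 2) ^ j := by
          simp only [hτdef]
          field_simp
          ring
  have hNle : ‖N‖ ≤ 1 / 4 := by
    refine ContinuousLinearMap.opNorm_le_bound _ (by norm_num) fun y => ?_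
    have h1 : HasSum (fun j => b.coord j y • N (b j)) (N y) := by
      have h2 := N.hasSum (b.expansion y)
      refine h2.congr_fun ?_ |> id
      intro j
      exact (map_smul N _ _).symm
    have h3 : HasSum (fun j : ℕ => (1 / 8 * ‖y‖) * ((1 : ℝ) / 2) ^ j) (1 / 4 * ‖y‖) := by
      have h4 := hasSum_geometric_two.mul_left (1 / 8 * ‖y‖)
      have h5 : 1 / 8 * ‖y‖ * 2 = 1 / 4 * ‖y‖ := by ring
      rw [h5] at h4
      exact h4
    refine h1.norm_le_of_bounded h3 fun j => ?_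
    rw [norm_smul]
    have h6 := dib_coord b hb j y
    have h7 := hNb j
    calc ‖b.coord j y‖ * ‖N (b j)‖ ≤ ‖y‖ * (1 / 8 * (1 / 2) ^ j) :=
          mul_le_mul h6 h7 (norm_nonneg _) (norm_nonneg _)
      _ = _ := by ring
  have hNlt : ‖-N‖ < 1 := by
    rw [norm_neg]
    linarith
  set u := Units.oneSub (-N) hNlt with hu
  have huv : (u : Y →L[𝕜] Y) = mulOp b m * V * T * U := by
    rw [hu, Units.val_oneSub, hN]
    abel
  refine ⟨U, ((u⁻¹ : (Y →L[𝕜] Y)ˣ) : Y →L[𝕜] Y) * mulOp b m * V, ?_⟩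
  have h9 : ((u⁻¹ : (Y →L[𝕜] Y)ˣ) : Y →L[𝕜] Y) * mulOp b m * V * T * U =
      ((u⁻¹ : (Y →L[𝕜] Y)ˣ) : Y →L[𝕜] Y) * (mulOp b m * V * T * U) := by
    simp only [mul_assoc]
  rw [h9, ← huv, Units.inv_mul]

end Pool.Agent.UUB
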