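import Pool.Agent.UUB.DIA

/-!
# DIC: blocks on which a non-compact operator acts almost locally

PROOF of `exists_block`. Iterate `exists_piece` (`η = c / 2`): numbers `m = m_0 < m_1 < ...` and vectors
`y_i = S b (Ico m_i m_{i+1}) y_i`, `‖y_i‖ ≤ 1`, `c < ‖S b (Ici m_i) (T y_i)‖`,
`‖S b (Ici m_{i+1}) (T y_i)‖ ≤ c / 2`. The vectors `S b (Iio m) (T y_i)` lie in a compact set
(`S b (Iio m) * T` is compact), so there are `i < k` with `‖S b (Iio m) (T (y_k - y_i))‖ < τ`. Put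
`z = y_k - y_i`: `‖z‖ ≤ 2`, and since `S b (Ici m_k)` is a contraction with
`S b (Ici m_k) = S b (Ici m_k) * S b (Ici m_{i+1})`,
`‖T z‖ ≥ ‖S b (Ici m_k) (T y_k)‖ - ‖S b (Ici m_k) (T y_i)‖ > c - c / 2`. Finally choose
`m' ≥ m_{k+1}` with `‖S b (Ici m') (T z)‖ < τ`; `S b (Ico m m') z = z`.
-/

namespace Pool.Agent.UUB

open Filter Topology Set

variable {𝕜 : Type*} [RCLike 𝕜] {Y : Type*} [NormedAddCommGroup Y] [NormedSpace 𝕜 Y]
  [CompleteSpace Y] (b : UnconditionalSchauderBasis ℕ 𝕜 Y)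

theorem exists_block (hb : BlockBasis b) {T : Y →L[𝕜] Y} {c : ℝ} (hc : 0 < c)
    (h : ∀ m : ℕ, c < ‖S b (Ici m) * T * S b (Ici m)‖) (m : ℕ) {τ : ℝ} (hτ : 0 < τ) :
    ∃ (m' : ℕ) (z : Y), m < m' ∧ ‖z‖ ≤ 2 ∧ S b (Ico m m') z = z ∧ c / 2 ≤ ‖T z‖ ∧
      ‖S b (Iio m) (T z)‖ < τ ∧ ‖S b (Ici m') (T z)‖ < τ := by
  have hc2 : 0 < c / 2 := by linarith
  choose F yv hF using fun m => exists_piece b hb hc h m hc2
  have hle : ∀ (M : Set ℕ) (w : Y), ‖S b M w‖ ≤ ‖w‖ := fun M w => by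
    refine ((S b M).le_opNorm w).trans ?_
    exact mul_le_of_le_one_left (norm_nonneg _) (hb.supp M)
  have hSS : ∀ (M N : Set ℕ) (w : Y), S b M (S b N w) = S b (M ∩ N) w := fun M N w => by
    rw [← S_mul_S]
    rfl
  set ms : ℕ → ℕ := fun i => F^[i] m with hms
  have hms0 : ms 0 = m := rfl
  have hmsS : ∀ i, ms (i + 1) = F (ms i) := fun i => Function.iterate_succ_apply' F i m
  have hmono : StrictMono ms := strictMono_nat_of_lt_succ fun i => by
    rw [hmsS]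
    exact (hF (ms i)).1
  -- compactness
  have hcpt : IsCompactOperator (S b (Iio m) * T : Y →L[𝕜] Y) := by
    have h1 : (Iio m : Set ℕ) = ((Finset.range m : Finset ℕ) : Set ℕ) := by
      rw [Finset.coe_range]
    have h2 : IsCompactOperator (S b (Iio m) : Y →L[𝕜] Y) := by
      rw [h1]
      exact isCompactOperator_of_finiteDimensional (finiteDimensional_S_finset b _)
    exact h2.comp_clm T
  obtain ⟨K, hK, hKs⟩ := hcpt.image_closedBall_subset_compact 1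
  have hu : ∀ i, S b (Iio m) (T (yv (ms i))) ∈ K := fun i => by
    refine hKs ⟨yv (ms i), ?_, rfl⟩
    rw [mem_closedBall_zero_iff]
    exact (hF (ms i)).2.1
  obtain ⟨a, -, φ, hφ, hlim⟩ := hK.tendsto_subseq hu
  obtain ⟨N, hN⟩ := Metric.cauchySeq_iff.1 hlim.cauchySeq τ hτ
  set i := φ N with hi
  set k := φ (N + 1) with hk
  have hik : i < k := hφ (Nat.lt_succ_self N)
  have hd : ‖S b (Iio m) (T (yv (ms k))) - S b (Iio m) (T (yv (ms i)))‖ < τ := by
    rw [← dist_eq_norm]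
    exact hN (N + 1) (Nat.le_succ N) N le_rfl
  set z := yv (ms k) - yv (ms i) with hz
  obtain ⟨m1, hm1⟩ := Metric.tendsto_atTop.1 (tendsto_Ici b (T z)) τ hτ
  set m' := max m1 (ms (k + 1)) with hm'
  have hk1 : ms (k + 1) ≤ m' := le_max_right _ _
  have hmk : ∀ j, m ≤ ms j := fun j => by
    rw [← hms0]
    exact hmono.monotone (Nat.zero_le j)
  have hfix : ∀ j, j ≤ k → S b (Ico m m') (yv (ms j)) = yv (ms j) := by
    intro j hj
    have h1 := (hF (ms j)).2.2.1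
    rw [← hmsS] at h1
    have h2 : Ico m m' ∩ Ico (ms j) (ms (j + 1)) = Ico (ms j) (ms (j + 1)) := by
      refine inter_eq_right.2 fun x hx => ⟨(hmk j).trans hx.1, hx.2.trans_le ?_⟩
      exact (hmono.monotone (by omega)).trans hk1
    rw [← h1, hSS, h2]
  refine ⟨m', z, ?_, ?_, ?_, ?_, ?_, ?_⟩
  · exact lt_of_le_of_lt (hmk k) (lt_of_lt_of_le (hmono (Nat.lt_succ_self k)) hk1)
  · refine (norm_sub_le _ _).trans ?_
    have h1 := (hF (ms k)).2.1
    have h2 := (hF (ms i)).2.1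
    linarith
  · rw [hz, map_sub, hfix k le_rfl, hfix i hik.le]
  · have h1 := (hF (ms k)).2.2.2.1
    have h2 := (hF (ms i)).2.2.2.2
    rw [← hmsS] at h2
    have h3 : S b (Ici (ms k)) (T (yv (ms i))) =
        S b (Ici (ms k)) (S b (Ici (ms (i + 1))) (T (yv (ms i)))) := by
      have h4 : Ici (ms k) ∩ Ici (ms (i + 1)) = Ici (ms k) :=
        inter_eq_left.2 fun x hx => le_trans (hmono.monotone (by omega)) (mem_Ici.1 hx)
      rw [hSS, h4]
    have h5 : ‖S b (Ici (ms k)) (T (yv (ms i)))‖ ≤ c / 2 := by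
      rw [h3]
      exact (hle _ _).trans h2
    have h6 : ‖S b (Ici (ms k)) (T z)‖ ≤ ‖T z‖ := hle _ _
    have h7 : ‖S b (Ici (ms k)) (T (yv (ms k)))‖ - ‖S b (Ici (ms k)) (T (yv (ms i)))‖ ≤
        ‖S b (Ici (ms k)) (T z)‖ := by
      rw [hz, map_sub, map_sub]
      exact norm_sub_norm_le _ _
    linarith
  · rw [hz, map_sub, map_sub]
    exact hd
  · have h1 := hm1 m' (le_max_left _ _)
    rwa [dist_zero_right] at h1

end Pool.Agent.UUB
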