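import Mathlib

/-!
Project UUB (MP_eb6f89_an): uniqueness of unconditional bases of direct sums.
Definitions and the diagonal operators of an unconditional basis.
-/

namespace Pool.Agent.UUB

open Filter Topology Set

/-- `x` is an unconditional basis of `E`: the index set is countable and every vector has exactly
one expansion, the series converging unconditionally. -/
def IsUncBasis (𝕜 : Type*) [RCLike 𝕜] {E : Type*} [NormedAddCommGroup E] [NormedSpace 𝕜 E]
    {J : Type} (x : J → E) : Prop :=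
  Countable J ∧ ∀ v : E, ∃! a : J → 𝕜, HasSum (fun j => a j • x j) v

/-- The norms of the members of the family are bounded and bounded away from zero. -/
def SemiNormalized {E : Type*} [NormedAddCommGroup E] {J : Type} (x : J → E) : Prop :=
  ∃ c C : ℝ, 0 < c ∧ ∀ j, c ≤ ‖x j‖ ∧ ‖x j‖ ≤ C

/-- Permutative equivalence of two families. -/
def PermEquiv (𝕜 : Type*) [RCLike 𝕜] {E F : Type*} [NormedAddCommGroup E] [NormedSpace 𝕜 E]
    [NormedAddCommGroup F] [NormedSpace 𝕜 F] {J I : Type} (x : J → E) (y : I → F) : Prop :=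
  ∃ π : J ≃ I, ∀ a : J → 𝕜,
    (Summable fun j => a j • x j) ↔ (Summable fun j => a j • y (π j))

/-- `E` has a unique unconditional basis up to permutation. -/
def HasUUB (𝕜 : Type*) [RCLike 𝕜] (E : Type*) [NormedAddCommGroup E] [NormedSpace 𝕜 E] : Prop :=
  (∃ (J : Type) (x : J → E), IsUncBasis 𝕜 x ∧ SemiNormalized x) ∧
    ∀ (J I : Type) (x : J → E) (y : I → E), IsUncBasis 𝕜 x → SemiNormalized x →
      IsUncBasis 𝕜 y → SemiNormalized y → PermEquiv 𝕜 x y

/-! ### Auxiliary definitions (not used in the final statement) -/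

section aux

variable {𝕜 : Type*} [RCLike 𝕜] {W : Type*} [NormedAddCommGroup W] [NormedSpace 𝕜 W]
  {J : Type}

/-- A bounded multiplier. -/
def Bdd (c : J → 𝕜) : Prop := ∃ C : ℝ, ∀ j, ‖c j‖ ≤ C

open Classical in
/-- The diagonal operator with multiplier `c` (and `0` if there is none). -/
noncomputable def mulOp (b : UnconditionalSchauderBasis J 𝕜 W) (c : J → 𝕜) : W →L[𝕜] W :=
  if h : ∃ D : W →L[𝕜] W, ∀ w j, b.coord j (D w) = c j * b.coord j w then h.choose else 0

/-- The coordinate projection onto the closed span of the `b j`, `j ∈ M`. -/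
noncomputable def S (b : UnconditionalSchauderBasis J 𝕜 W) (M : Set J) : W →L[𝕜] W :=
  mulOp b (M.indicator fun _ => 1)

/-- The rank one coordinate projection `w ↦ (coord n w) • b n`. -/
noncomputable def R (b : UnconditionalSchauderBasis J 𝕜 W) (n : J) : W →L[𝕜] W :=
  (b.coord n).smulRight (b n)

/-- The `n`-th diagonal entry of an operator. -/
noncomputable def dg (b : UnconditionalSchauderBasis J 𝕜 W) (T : W →L[𝕜] W) (n : J) : 𝕜 :=
  b.coord n (T (b n))

/-- The sign attached to a Boolean. -/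
def sg (𝕜 : Type*) [RCLike 𝕜] (t : Bool) : 𝕜 := if t then 1 else -1

/-- The sign function attached to a Boolean function. -/
def sgn (𝕜 : Type*) [RCLike 𝕜] (ε : J → Bool) : J → 𝕜 := fun j => sg 𝕜 (ε j)

/-- The range of an operator, as a submodule. -/
abbrev Rg (T : W →L[𝕜] W) : Submodule 𝕜 W := LinearMap.range T.toLinearMap

/-- The kernel of an operator, as a submodule. -/
abbrev Kr (T : W →L[𝕜] W) : Submodule 𝕜 W := LinearMap.ker T.toLinearMap

/-- `P` is an idempotent and every operator `P A (1 - P) B P` is compact. -/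
def CompactCorner (P : W →L[𝕜] W) : Prop :=
  P * P = P ∧ ∀ A B : W →L[𝕜] W, IsCompactOperator (P * A * (1 - P) * B * P : W →L[𝕜] W)

/-- A basis of a sequence space in which disjoint blocks behave like the basis itself
(as in `ℓ_p` and `c_0`). -/
structure BlockBasis {Y : Type*} [NormedAddCommGroup Y] [NormedSpace 𝕜 Y]
    (b : UnconditionalSchauderBasis ℕ 𝕜 Y) : Prop where
  norm_basis : ∀ k, ‖b k‖ = 1
  supp : ∀ M : Set ℕ, ‖S b M‖ ≤ 1
  up : ∀ (A : ℕ → Finset ℕ) (z : ℕ → Y), (∀ i j, i ≠ j → Disjoint (A i) (A j)) →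
    (∀ k, ‖z k‖ ≤ 1) → (∀ k, S b (A k) (z k) = z k) →
      ∃ U : Y →L[𝕜] Y, ‖U‖ ≤ 1 ∧ ∀ k, U (b k) = z k
  down : ∀ (A : ℕ → Finset ℕ) (φ : ℕ → StrongDual 𝕜 Y), (∀ i j, i ≠ j → Disjoint (A i) (A j)) →
    (∀ k, ‖φ k‖ ≤ 1) → (∀ k y, φ k (S b (A k) y) = φ k y) →
      ∃ V : Y →L[𝕜] Y, ‖V‖ ≤ 1 ∧ ∀ k y, b.coord k (V y) = φ k y

end aux

end Pool.Agent.UUB
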