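import Pool.Agent.UUB.Defs

/-!
# EXA: from signs to scalars

PROOF of `signs_to_scalars`. For real `t n ∈ [-1, 1]` (`n ∈ Φ`), `‖∑ n ∈ Φ, (t n : 𝕜) • A n‖ ≤ δ`:
induction on the number of `n ∈ Φ` for which `t n` is not `± 1` (equivalently induction on a subset
`Ψ ⊆ Φ` containing them): the expression is affine in `t m`, and an affine function on `[-1, 1]` with
values in a normed space has norm at most the maximum at the end points
(`t • x + y = ((1 + t) / 2) • (x + y) + ((1 - t) / 2) • (-x + y)`). By homogeneity, for real `t n` with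
`|t n| ≤ C` the bound is `C δ`. For `c n ∈ 𝕜` write `c n = re (c n) + im (c n) * I`
(`RCLike.re_add_im`); both parts are bounded by `C`: total `2 C δ` (note `‖RCLike.I‖ ≤ 1`).
-/

namespace Pool.Agent.UUB

open Filter Topology Set

variable {𝕜 : Type*} [RCLike 𝕜]

private theorem exa_real {V : Type*} [NormedAddCommGroup V] [NormedSpace 𝕜 V] {J : Type}
    (Φ : Finset J) (A : J → V) {δ : ℝ}
    (h : ∀ σ : J → 𝕜, (∀ j, σ j = 1 ∨ σ j = -1) → ‖∑ n ∈ Φ, σ n • A n‖ ≤ δ)
    (Ψ : Finset J) : ∀ t : J → ℝ, (∀ j, |t j| ≤ 1) → (∀ j, j ∉ Ψ → t j = 1 ∨ t j = -1) →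
      ‖∑ n ∈ Φ, ((t n : ℝ) : 𝕜) • A n‖ ≤ δ := by
  classical
  induction Ψ using Finset.induction_on with
  | empty =>
    intro t _ ht
    refine h (fun j => ((t j : ℝ) : 𝕜)) fun j => ?_
    rcases ht j (by simp) with h1 | h1
    · left; simp [h1]
    · right; simp [h1]
  | insert m Ψ hm ih =>
    intro t ht1 ht2
    by_cases hmΦ : m ∈ Φ
    · have e : ∀ s : ℝ, ∑ n ∈ Φ, ((Function.update t m s n : ℝ) : 𝕜) • A n =
          ((s : ℝ) : 𝕜) • A m + ∑ n ∈ Φ.erase m, ((t n : ℝ) : 𝕜) • A n := by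
        intro s
        rw [← Finset.add_sum_erase Φ _ hmΦ]
        congr 1
        · simp
        · refine Finset.sum_congr rfl fun n hn => ?_
          rw [Function.update_of_ne (Finset.ne_of_mem_erase hn)]
      have hb : ∀ s : ℝ, (s = 1 ∨ s = -1) →
          ‖((s : ℝ) : 𝕜) • A m + ∑ n ∈ Φ.erase m, ((t n : ℝ) : 𝕜) • A n‖ ≤ δ := by
        intro s hs
        rw [← e s]
        refine ih _ (fun j => ?_) (fun j hj => ?_)
        · by_cases hjm : j = m
          · subst hjm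
            rw [Function.update_self]
            rcases hs with rfl | rfl <;> norm_num
          · rw [Function.update_of_ne hjm]
            exact ht1 j
        · by_cases hjm : j = m
          · subst hjm
            rw [Function.update_self]
            exact hs
          · rw [Function.update_of_ne hjm]
            exact ht2 j (by simp [hjm, hj])
      have e0 := e (t m)
      rw [Function.update_eq_self] at e0
      rw [e0]
      set y := ∑ n ∈ Φ.erase m, ((t n : ℝ) : 𝕜) • A n with hy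
      have h1 := hb 1 (Or.inl rfl)
      have h2 := hb (-1) (Or.inr rfl)
      have hdec : ((t m : ℝ) : 𝕜) • A m + y =
          (((1 + t m) / 2 : ℝ) : 𝕜) • (((1 : ℝ) : 𝕜) • A m + y) +
            (((1 - t m) / 2 : ℝ) : 𝕜) • (((-1 : ℝ) : 𝕜) • A m + y) := by
        rw [smul_add, smul_add, smul_smul, smul_smul]
        have a1 : (((1 + t m) / 2 : ℝ) : 𝕜) * ((1 : ℝ) : 𝕜) +
            (((1 - t m) / 2 : ℝ) : 𝕜) * ((-1 : ℝ) : 𝕜) = ((t m : ℝ) : 𝕜) := by
          push_cast
          ring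
        have a2 : (((1 + t m) / 2 : ℝ) : 𝕜) + (((1 - t m) / 2 : ℝ) : 𝕜) = 1 := by
          push_cast
          ring
        rw [← a1]
        calc _ = ((((1 + t m) / 2 : ℝ) : 𝕜) * ((1 : ℝ) : 𝕜)) • A m +
            ((((1 - t m) / 2 : ℝ) : 𝕜) * ((-1 : ℝ) : 𝕜)) • A m +
              ((((1 + t m) / 2 : ℝ) : 𝕜) + (((1 - t m) / 2 : ℝ) : 𝕜)) • y := by
              rw [a2, one_smul, add_smul]
          _ = _ := by rw [add_smul]; abel
      have ht := abs_le.mp (ht1 m)
      rw [hdec]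
      calc _ ≤ ‖(((1 + t m) / 2 : ℝ) : 𝕜) • (((1 : ℝ) : 𝕜) • A m + y)‖ +
            ‖(((1 - t m) / 2 : ℝ) : 𝕜) • (((-1 : ℝ) : 𝕜) • A m + y)‖ := norm_add_le _ _
        _ = ((1 + t m) / 2) * ‖((1 : ℝ) : 𝕜) • A m + y‖ +
            ((1 - t m) / 2) * ‖((-1 : ℝ) : 𝕜) • A m + y‖ := by
              rw [norm_smul, norm_smul, RCLike.norm_ofReal, RCLike.norm_ofReal,
                abs_of_nonneg (by linarith), abs_of_nonneg (by linarith)]
        _ ≤ ((1 + t m) / 2) * δ + ((1 - t m) / 2) * δ :=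
              add_le_add (mul_le_mul_of_nonneg_left h1 (by linarith))
                (mul_le_mul_of_nonneg_left h2 (by linarith))
        _ = δ := by ring
    · have e : ∑ n ∈ Φ, ((t n : ℝ) : 𝕜) • A n =
          ∑ n ∈ Φ, ((Function.update t m 1 n : ℝ) : 𝕜) • A n := by
        refine Finset.sum_congr rfl fun n hn => ?_
        have hne : n ≠ m := by
          rintro rfl
          exact hmΦ hn
        rw [Function.update_of_ne hne]
      rw [e]
      refine ih _ (fun j => ?_) (fun j hj => ?_)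
      · by_cases hjm : j = m
        · subst hjm
          rw [Function.update_self]
          norm_num
        · rw [Function.update_of_ne hjm]
          exact ht1 j
      · by_cases hjm : j = m
        · subst hjm
          rw [Function.update_self]
          exact Or.inl rfl
        · rw [Function.update_of_ne hjm]
          exact ht2 j (by simp [hjm, hj])

private theorem exa_realC {V : Type*} [NormedAddCommGroup V] [NormedSpace 𝕜 V] {J : Type}
    (Φ : Finset J) (A : J → V) {δ : ℝ}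
    (h : ∀ σ : J → 𝕜, (∀ j, σ j = 1 ∨ σ j = -1) → ‖∑ n ∈ Φ, σ n • A n‖ ≤ δ)
    (t : J → ℝ) {C : ℝ} (hC : 0 ≤ C) (ht : ∀ j ∈ Φ, |t j| ≤ C) :
      ‖∑ n ∈ Φ, ((t n : ℝ) : 𝕜) • A n‖ ≤ C * δ := by
  classical
  rcases hC.eq_or_lt with hC0 | hC0
  · subst hC0
    have : ∑ n ∈ Φ, ((t n : ℝ) : 𝕜) • A n = 0 := by
      refine Finset.sum_eq_zero fun n hn => ?_
      have := ht n hn
      have h0 : t n = 0 := abs_eq_zero.mp (le_antisymm this (abs_nonneg _))
      simp [h0]
    rw [this]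
    simp
  · set s : J → ℝ := fun j => if j ∈ Φ then t j / C else 1 with hs
    have e : ∑ n ∈ Φ, ((t n : ℝ) : 𝕜) • A n = ((C : ℝ) : 𝕜) • ∑ n ∈ Φ, ((s n : ℝ) : 𝕜) • A n := by
      rw [Finset.smul_sum]
      refine Finset.sum_congr rfl fun n hn => ?_
      rw [smul_smul, hs]
      simp only [hn, if_true]
      rw [← RCLike.ofReal_mul, mul_div_cancel₀ _ hC0.ne']
    rw [e, norm_smul, RCLike.norm_ofReal, abs_of_pos hC0]
    refine mul_le_mul_of_nonneg_left (exa_real Φ A h Φ s (fun j => ?_) (fun j hj => ?_)) hC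
    · rw [hs]
      simp only
      split_ifs with hj
      · rw [abs_div, abs_of_pos hC0, div_le_one hC0]
        exact ht j hj
      · norm_num
    · rw [hs]
      simp [hj]

theorem signs_to_scalars {V : Type*} [NormedAddCommGroup V] [NormedSpace 𝕜 V] {J : Type}
    (Φ : Finset J) (A : J → V) {δ : ℝ}
    (h : ∀ σ : J → 𝕜, (∀ j, σ j = 1 ∨ σ j = -1) → ‖∑ n ∈ Φ, σ n • A n‖ ≤ δ)
    (c : J → 𝕜) {C : ℝ} (hC : 0 ≤ C) (hc : ∀ j ∈ Φ, ‖c j‖ ≤ C) :
    ‖∑ n ∈ Φ, c n • A n‖ ≤ 2 * C * δ := by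
  have h1 := exa_realC Φ A h (fun j => RCLike.re (c j)) hC
    (fun j hj => (RCLike.abs_re_le_norm _).trans (hc j hj))
  have h2 := exa_realC Φ A h (fun j => RCLike.im (c j)) hC
    (fun j hj => (RCLike.abs_im_le_norm _).trans (hc j hj))
  have e : ∑ n ∈ Φ, c n • A n = ∑ n ∈ Φ, ((RCLike.re (c n) : ℝ) : 𝕜) • A n +
      (RCLike.I : 𝕜) • ∑ n ∈ Φ, ((RCLike.im (c n) : ℝ) : 𝕜) • A n := by
    rw [Finset.smul_sum, ← Finset.sum_add_distrib]
    refine Finset.sum_congr rfl fun n _ => ?_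
    rw [smul_smul, ← add_smul]
    congr 1
    rw [mul_comm (RCLike.I : 𝕜)]
    exact (RCLike.re_add_im (c n)).symm
  have hI : ‖(RCLike.I : 𝕜)‖ ≤ 1 := by
    rcases RCLike.I_mul_I (K := 𝕜) with h0 | h0
    · rw [h0, norm_zero]
      exact zero_le_one
    · have h3 : ‖(RCLike.I : 𝕜)‖ * ‖(RCLike.I : 𝕜)‖ = 1 := by
        rw [← norm_mul, h0, norm_neg, norm_one]
      nlinarith [norm_nonneg (RCLike.I : 𝕜)]
  have hd : 0 ≤ C * δ := (norm_nonneg _).trans h1
  rw [e]
  calc _ ≤ ‖∑ n ∈ Φ, ((RCLike.re (c n) : ℝ) : 𝕜) • A n‖ +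
        ‖(RCLike.I : 𝕜) • ∑ n ∈ Φ, ((RCLike.im (c n) : ℝ) : 𝕜) • A n‖ := norm_add_le _ _
    _ ≤ C * δ + 1 * (C * δ) := by
        rw [norm_smul]
        exact add_le_add h1 (mul_le_mul hI h2 (norm_nonneg _) zero_le_one)
    _ = 2 * C * δ := by ring

end Pool.Agent.UUB
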