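import Pool.Agent.UUB.MU2
import Pool.Agent.UUB.EXA

/-!
# EXT: extraction of the diagonal part of a bilinear expression in the signs

PROOF of `extract`. Write `G (U, U') = X * U * Y * U' * Z`, bilinear, `a = sgn ε`, `a' = sgn ε'` and for a
finite set `Φ` let `a↾Φᶜ` be `a` off `Φ` and `0` on `Φ`.
Claim (`extract_aux`): for `ε, ε'` agreeing with `ε₀, ε₁` on `B` and `Φ` disjoint from `B`,
`‖G (D_{a↾Φᶜ}, D_{a'↾Φᶜ}) + ∑ n ∈ Φ, (a n * a' n) • G (R n, R n)‖ ≤ δ`.
Induction on `Φ` (`Finset.induction_on`); `Φ = ∅` is the hypothesis. Step `Φ → insert m Φ`: apply the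
induction hypothesis to `(ε, ε')` and to the pair obtained by flipping BOTH signs at `m`
(`Function.update`; `m ∉ B`), and take half of the sum of the two expressions (norm `≤ δ`). Since
`D_{a↾Φᶜ} = U + a m • R m` with `U = D_{a↾(insert m Φ)ᶜ}` (`mulOp_add`, `mulOp_finset` or
coordinates), the half sum of `G (U ± a m • R m, U' ± a' m • R m)` is
`G (U, U') + (a m * a' m) • G (R m, R m)`, and the coefficients `a n * a' n`, `n ∈ Φ`, are the same
for both pairs.
Then `extract`: choose `ε, ε'` equal to `ε₀, ε₁` off `Φ`, `ε' n = true` on `Φ` and `ε n` the Boolean with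
sign `σ n`; and `ε⁻` with the opposite signs on `Φ`. The term `G (D_{a↾Φᶜ}, D_{a'↾Φᶜ})` is the same
for both, so half of the difference of the two expressions of the claim is
`∑ n ∈ Φ, σ n • G (R n, R n)`, of norm `≤ δ`.
-/

namespace Pool.Agent.UUB

open Filter Topology Set

variable {𝕜 : Type*} [RCLike 𝕜]

variable {W : Type*} [NormedAddCommGroup W] [NormedSpace 𝕜 W]
  [CompleteSpace W] {J : Type} (b : UnconditionalSchauderBasis J 𝕜 W)

private theorem off_split [DecidableEq J] (ε : J → Bool) (Φ : Finset J) (m : J) (hm : m ∉ Φ) :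
    mulOp b (fun j => if j ∈ Φ then 0 else sgn 𝕜 ε j) =
      mulOp b (fun j => if j ∈ insert m Φ then 0 else sgn 𝕜 ε j) + sgn 𝕜 ε m • R b m := by
  have h1 : Bdd (fun j => if j ∈ insert m Φ then (0 : 𝕜) else sgn 𝕜 ε j) := by
    refine ⟨1, fun j => ?_⟩
    by_cases hj : j ∈ insert m Φ
    · simp only [if_pos hj, norm_zero]; exact zero_le_one
    · simp only [if_neg hj, norm_sgn]; exact le_rfl
  have h2 : Bdd (fun j => if j ∈ ({m} : Finset J) then sgn 𝕜 ε j else (0 : 𝕜)) := by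
    refine ⟨1, fun j => ?_⟩
    by_cases hj : j ∈ ({m} : Finset J)
    · simp only [if_pos hj, norm_sgn]; exact le_rfl
    · simp only [if_neg hj, norm_zero]; exact zero_le_one
  have h3 := mulOp_finset b ({m} : Finset J) (sgn 𝕜 ε)
  rw [Finset.sum_singleton] at h3
  rw [← h3, ← mulOp_add b h1 h2]
  congr 1
  funext j
  by_cases hjm : j = m
  · subst hjm
    simp [hm]
  · by_cases hj : j ∈ Φ
    · simp [hj, hjm]
    · simp [hj, hjm]

private theorem off_update [DecidableEq J] (ε : J → Bool) (Φ : Finset J) (m : J) :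
    mulOp b (fun j => if j ∈ insert m Φ then 0 else sgn 𝕜 (Function.update ε m (!ε m)) j) =
      mulOp b (fun j => if j ∈ insert m Φ then 0 else sgn 𝕜 ε j) := by
  congr 1
  funext j
  by_cases hj : j ∈ insert m Φ
  · rw [if_pos hj, if_pos hj]
  · rw [if_neg hj, if_neg hj]
    have hjm : j ≠ m := by
      rintro rfl
      exact hj (Finset.mem_insert_self _ _)
    unfold sgn
    rw [Function.update_of_ne hjm]

private theorem sgn_flip [DecidableEq J] (ε : J → Bool) (m : J) :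
    sgn 𝕜 (Function.update ε m (!ε m)) m = -sgn 𝕜 ε m := by
  unfold sgn sg
  rw [Function.update_self]
  cases ε m <;> simp

private theorem sgn_flip_ne [DecidableEq J] (ε : J → Bool) (m n : J) (h : n ≠ m) :
    sgn 𝕜 (Function.update ε m (!ε m)) n = sgn 𝕜 ε n := by
  unfold sgn
  rw [Function.update_of_ne h]

private theorem half_norm {V : Type*} [NormedAddCommGroup V] [NormedSpace 𝕜 V] {E1 E2 T : V}
    {δ : ℝ} (h1 : ‖E1‖ ≤ δ) (h2 : ‖E2‖ ≤ δ) (h : E1 + E2 = (2 : 𝕜) • T) : ‖T‖ ≤ δ := by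
  have h3 : ‖E1 + E2‖ ≤ δ + δ := (norm_add_le _ _).trans (add_le_add h1 h2)
  rw [h, norm_smul, RCLike.norm_ofNat] at h3
  linarith

private theorem extract_aux [DecidableEq J] (X Y Z : W →L[𝕜] W) {δ : ℝ} (ε₀ ε₁ : J → Bool)
    (B : Finset J)
    (h : ∀ ε ε' : J → Bool, (∀ j ∈ B, ε j = ε₀ j) → (∀ j ∈ B, ε' j = ε₁ j) →
      ‖X * mulOp b (sgn 𝕜 ε) * Y * mulOp b (sgn 𝕜 ε') * Z‖ ≤ δ)
    (Φ : Finset J) : Disjoint Φ B → ∀ ε ε' : J → Bool, (∀ j ∈ B, ε j = ε₀ j) →
      (∀ j ∈ B, ε' j = ε₁ j) →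
      ‖X * mulOp b (fun j => if j ∈ Φ then 0 else sgn 𝕜 ε j) * Y *
          mulOp b (fun j => if j ∈ Φ then 0 else sgn 𝕜 ε' j) * Z +
        ∑ n ∈ Φ, (sgn 𝕜 ε n * sgn 𝕜 ε' n) • (X * R b n * Y * R b n * Z)‖ ≤ δ := by
  induction Φ using Finset.induction_on with
  | empty =>
    intro _ ε ε' h1 h2
    have := h ε ε' h1 h2
    simpa using this
  | insert m Φ hm ih =>
    intro hd ε ε' h1 h2
    have hd1 : Disjoint Φ B := Finset.disjoint_of_subset_left (Finset.subset_insert m Φ) hd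
    have hmB : m ∉ B := Finset.disjoint_left.mp hd (Finset.mem_insert_self m Φ)
    have hu : ∀ (η : J → Bool) (η₀ : J → Bool), (∀ j ∈ B, η j = η₀ j) →
        ∀ j ∈ B, Function.update η m (!η m) j = η₀ j := by
      intro η η₀ hη j hj
      have : j ≠ m := by
        rintro rfl
        exact hmB hj
      rw [Function.update_of_ne this]
      exact hη j hj
    have e1 := ih hd1 ε ε' h1 h2
    have e2 := ih hd1 (Function.update ε m (!ε m)) (Function.update ε' m (!ε' m))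
      (hu _ _ h1) (hu _ _ h2)
    refine half_norm (𝕜 := 𝕜) e1 e2 ?_
    have hs : ∑ n ∈ Φ, (sgn 𝕜 (Function.update ε m (!ε m)) n *
        sgn 𝕜 (Function.update ε' m (!ε' m)) n) • (X * R b n * Y * R b n * Z) =
        ∑ n ∈ Φ, (sgn 𝕜 ε n * sgn 𝕜 ε' n) • (X * R b n * Y * R b n * Z) := by
      refine Finset.sum_congr rfl fun n hn => ?_
      have : n ≠ m := by
        rintro rfl
        exact hm hn
      rw [sgn_flip_ne ε m n this, sgn_flip_ne ε' m n this]
    rw [hs, Finset.sum_insert hm, off_split b ε Φ m hm, off_split b ε' Φ m hm,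
      off_split b (Function.update ε m (!ε m)) Φ m hm,
      off_split b (Function.update ε' m (!ε' m)) Φ m hm, off_update b ε Φ m, off_update b ε' Φ m,
      sgn_flip, sgn_flip]
    simp only [mul_add, add_mul, smul_mul_assoc, mul_smul_comm, neg_smul, smul_add, smul_neg,
      neg_mul, mul_neg, smul_smul]
    module

theorem extract (X Y Z : W →L[𝕜] W) {δ : ℝ} (ε₀ ε₁ : J → Bool) (B : Finset J)
    (h : ∀ ε ε' : J → Bool, (∀ j ∈ B, ε j = ε₀ j) → (∀ j ∈ B, ε' j = ε₁ j) →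
      ‖X * mulOp b (sgn 𝕜 ε) * Y * mulOp b (sgn 𝕜 ε') * Z‖ ≤ δ)
    (Φ : Finset J) (hΦ : Disjoint Φ B) (σ : J → 𝕜) (hσ : ∀ j, σ j = 1 ∨ σ j = -1) :
    ‖∑ n ∈ Φ, σ n • (X * R b n * Y * R b n * Z)‖ ≤ δ := by
  classical
  set ε : J → Bool := fun j => if j ∈ Φ then decide (σ j = 1) else ε₀ j with hε
  set εm : J → Bool := fun j => if j ∈ Φ then !decide (σ j = 1) else ε₀ j with hεm
  set ε' : J → Bool := fun j => if j ∈ Φ then true else ε₁ j with hε'
  have hB : ∀ j ∈ B, j ∉ Φ := fun j hj hj2 => Finset.disjoint_left.mp hΦ hj2 hj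
  have a1 : ∀ j ∈ B, ε j = ε₀ j := fun j hj => by simp [hε, hB j hj]
  have a2 : ∀ j ∈ B, εm j = ε₀ j := fun j hj => by simp [hεm, hB j hj]
  have a3 : ∀ j ∈ B, ε' j = ε₁ j := fun j hj => by simp [hε', hB j hj]
  have e1 := extract_aux b X Y Z ε₀ ε₁ B h Φ hΦ ε ε' a1 a3
  have e2 := extract_aux b X Y Z ε₀ ε₁ B h Φ hΦ εm ε' a2 a3
  rw [← norm_neg] at e2
  refine half_norm (𝕜 := 𝕜) e1 e2 ?_
  have s1 : ∑ n ∈ Φ, (sgn 𝕜 ε n * sgn 𝕜 ε' n) • (X * R b n * Y * R b n * Z) =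
      ∑ n ∈ Φ, σ n • (X * R b n * Y * R b n * Z) := by
    refine Finset.sum_congr rfl fun n hn => ?_
    congr 1
    have h1 : sgn 𝕜 ε' n = 1 := by simp [sgn, sg, hε', hn]
    rw [h1, mul_one]
    rcases hσ n with h2 | h2
    · simp [sgn, sg, hε, hn, h2]
    · have h3 : ¬ ((-1 : 𝕜) = 1) := by
        intro h4
        have h5 : (2 : 𝕜) = 0 := by linear_combination -h4
        exact two_ne_zero h5
      simp [sgn, sg, hε, hn, h2, h3]
  have s2 : ∑ n ∈ Φ, (sgn 𝕜 εm n * sgn 𝕜 ε' n) • (X * R b n * Y * R b n * Z) =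
      -∑ n ∈ Φ, σ n • (X * R b n * Y * R b n * Z) := by
    rw [← Finset.sum_neg_distrib]
    refine Finset.sum_congr rfl fun n hn => ?_
    rw [← neg_smul]
    congr 1
    have h1 : sgn 𝕜 ε' n = 1 := by simp [sgn, sg, hε', hn]
    rw [h1, mul_one]
    rcases hσ n with h2 | h2
    · simp [sgn, sg, hεm, hn, h2]
    · have h3 : ¬ ((-1 : 𝕜) = 1) := by
        intro h4
        have h5 : (2 : 𝕜) = 0 := by linear_combination -h4
        exact two_ne_zero h5
      simp [sgn, sg, hεm, hn, h2, h3]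
  have s3 : (fun j => if j ∈ Φ then 0 else sgn 𝕜 εm j) =
      fun j => if j ∈ Φ then (0 : 𝕜) else sgn 𝕜 ε j := by
    funext j
    by_cases hj : j ∈ Φ
    · rw [if_pos hj, if_pos hj]
    · rw [if_neg hj, if_neg hj]
      simp [sgn, hε, hεm, hj]
  rw [s1, s2, s3]
  module

end Pool.Agent.UUB
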