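import Pool.Agent.UUB.BAI
import Pool.Agent.UUB.EXT

/-!
# SP1: first extraction

PROOF. Let `F : (J ⊕ J → Bool) → (W →L[𝕜] W)`, `F ε = P * D_{ε ∘ inl} * (1 - P) * D_{ε ∘ inr} * P`
(`D_ε = mulOp b (sgn 𝕜 ε)`). It is compact by `hP.2` and strongly continuous in `ε`
(`continuous_mulOp_sgn_comp` twice). `baire_tail` with `δ / 2` gives `ε₀`, `B`, `A₁`. Let `A` be the
union of `A₁` and of the two components of `B`. If `ε, ε'` agree with `ε₀ ∘ inl`, `ε₀ ∘ inr` on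
`A`, then `Sum.elim ε ε'` agrees with `ε₀` on `B`, so `‖S b Aᶜ * F (Sum.elim ε ε')‖ ≤ δ / 2`.
Apply `extract` with `X = S b Aᶜ * P`, `Y = 1 - P`, `Z = P`, `B := A`: for finite `Φ` disjoint from `A`
and signs `σ`, `‖∑ n ∈ Φ, σ n • (S b Aᶜ * P * R n * (1 - P) * R n * P)‖ ≤ δ / 2`. By `R_mul_mul_R` and
`R_mul_R`, `R n * (1 - P) * R n = (1 - dg b P n) • R n`. With `signs_to_scalars` (`C = 1`) applied to
`A n = (1 - dg b P n) • (S b Aᶜ * P * R n * P)`,
`‖S b Aᶜ * P * (∑ n ∈ Φ, (c n * (1 - dg b P n)) • R n) * P‖ ≤ δ` for all finite `Φ` disjoint from `A`,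
and for all finite `Φ` since `c = 0` on `A`. The multiplier `c n * (1 - dg b P n)` is bounded
(`‖dg b P n‖ ≤ K ‖P‖`, from `R_mul_mul_R`, `one_le_norm_R`: `‖dg b P n‖ ‖R n‖ ≤ ‖R n‖ ‖P‖ ‖R n‖`). By
`tendsto_mulOp_finset`, applied to each vector `w`, the bound passes to the limit:
`‖S b Aᶜ (P (mulOp .. (P w)))‖ ≤ δ ‖w‖`.
-/

namespace Pool.Agent.UUB

open Filter Topology Set

variable {𝕜 : Type*} [RCLike 𝕜] {W : Type*} [NormedAddCommGroup W] [NormedSpace 𝕜 W]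
  [CompleteSpace W] {J : Type} (b : UnconditionalSchauderBasis J 𝕜 W)

theorem norm_dg_le {K : ℝ} (hK : ∀ n, ‖R b n‖ ≤ K) (T : W →L[𝕜] W) (n : J) :
    ‖dg b T n‖ ≤ ‖R b n * T‖ ∧ ‖dg b T n‖ ≤ K * ‖T‖ := by
  have h1 : ‖dg b T n‖ * ‖R b n‖ ≤ ‖R b n * T‖ * ‖R b n‖ := by
    rw [← norm_smul, ← R_mul_mul_R b T n]
    exact norm_mul_le _ _
  have h2 : 0 < ‖R b n‖ := lt_of_lt_of_le one_pos (one_le_norm_R b n)
  have h3 : ‖dg b T n‖ ≤ ‖R b n * T‖ := le_of_mul_le_mul_right h1 h2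
  refine ⟨h3, h3.trans ((norm_mul_le _ _).trans ?_)⟩
  exact mul_le_mul_of_nonneg_right (hK n) (norm_nonneg _)

theorem bdd_dg (T : W →L[𝕜] W) : Bdd (dg b T) := by
  obtain ⟨K, _, hK⟩ := exists_norm_R_le b
  exact ⟨K * ‖T‖, fun j => (norm_dg_le b hK T j).2⟩

private theorem bdd_one_sub (T : W →L[𝕜] W) {c : J → 𝕜} (hc : ∀ j, ‖c j‖ ≤ 1) :
    Bdd (fun j => c j * (1 - dg b T j)) := by
  obtain ⟨C, hC⟩ := bdd_dg b T
  refine ⟨1 * (1 + C), fun j => ?_⟩
  rw [norm_mul]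
  have h1 : ‖1 - dg b T j‖ ≤ 1 + C := by
    refine (norm_sub_le _ _).trans ?_
    rw [norm_one]
    have := hC j
    linarith
  exact mul_le_mul (hc j) h1 (norm_nonneg _) zero_le_one

private theorem mid (P : W →L[𝕜] W) (n : J) :
    R b n * (1 - P) * R b n = (1 - dg b P n) • R b n := by
  rw [mul_sub, sub_mul, mul_one, R_mul_R, R_mul_mul_R, sub_smul, one_smul]

theorem first_extraction [Countable J] {P : W →L[𝕜] W} (hP : CompactCorner P) {δ : ℝ}
    (hδ : 0 < δ) :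
    ∃ A : Finset J, ∀ c : J → 𝕜, (∀ j, ‖c j‖ ≤ 1) → (∀ j ∈ A, c j = 0) →
      ‖S b ((A : Set J)ᶜ) * P * mulOp b (fun j => c j * (1 - dg b P j)) * P‖ ≤ δ := by
  classical
  obtain ⟨ε₀, B, A₁, hA⟩ := baire_tail b
    (fun ε : J ⊕ J → Bool => P * mulOp b (sgn 𝕜 (fun j => ε (Sum.inl j))) * (1 - P) *
      mulOp b (sgn 𝕜 (fun j => ε (Sum.inr j))) * P)
    (by
      intro w
      have h1 : Continuous fun ε : J ⊕ J → Bool =>
          mulOp b (sgn 𝕜 (fun j => ε (Sum.inr j))) (P w) :=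
        continuous_mulOp_sgn_comp b (by fun_prop) continuous_const
      have h2 : Continuous fun ε : J ⊕ J → Bool =>
          mulOp b (sgn 𝕜 (fun j => ε (Sum.inl j)))
            ((1 - P) (mulOp b (sgn 𝕜 (fun j => ε (Sum.inr j))) (P w))) :=
        continuous_mulOp_sgn_comp b (by fun_prop) ((1 - P).continuous.comp h1)
      exact P.continuous.comp h2)
    (fun ε => hP.2 _ _) (half_pos hδ)
  set A : Finset J := A₁ ∪ (B.toLeft ∪ B.toRight) with hAdef
  refine ⟨A, fun c hc hcA => ?_⟩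
  have hext : ∀ ε ε' : J → Bool, (∀ j ∈ A, ε j = ε₀ (Sum.inl j)) →
      (∀ j ∈ A, ε' j = ε₀ (Sum.inr j)) →
      ‖(S b ((A : Set J)ᶜ) * P) * mulOp b (sgn 𝕜 ε) * (1 - P) * mulOp b (sgn 𝕜 ε') * P‖ ≤
        δ / 2 := by
    intro ε ε' h1 h2
    have h3 := hA (Sum.elim ε ε') (by
      intro i hi
      rcases i with j | j
      · have : j ∈ A := by
          rw [hAdef]
          exact Finset.mem_union_right _ (Finset.mem_union_left _ (Finset.mem_toLeft.mpr hi))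
        exact h1 j this
      · have : j ∈ A := by
          rw [hAdef]
          exact Finset.mem_union_right _ (Finset.mem_union_right _ (Finset.mem_toRight.mpr hi))
        exact h2 j this) A Finset.subset_union_left
    simp only [Sum.elim_inl, Sum.elim_inr] at h3
    have h4 : (S b ((A : Set J)ᶜ) * P) * mulOp b (sgn 𝕜 ε) * (1 - P) * mulOp b (sgn 𝕜 ε') * P =
        S b ((A : Set J)ᶜ) * (P * mulOp b (sgn 𝕜 ε) * (1 - P) * mulOp b (sgn 𝕜 ε') * P) := by
      simp only [mul_assoc]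
    rw [h4]
    exact h3
  have hfin0 : ∀ Φ : Finset J, Disjoint Φ A → ‖∑ n ∈ Φ, c n • ((1 - dg b P n) •
      (S b ((A : Set J)ᶜ) * P * R b n * P))‖ ≤ δ := by
    intro Φ hΦ
    have h1 := signs_to_scalars Φ (fun n => (1 - dg b P n) •
      (S b ((A : Set J)ᶜ) * P * R b n * P)) (δ := δ / 2) (by
        intro σ hσ
        have h2 := extract b (S b ((A : Set J)ᶜ) * P) (1 - P) P _ _ A hext Φ hΦ σ hσ
        have h3 : ∑ n ∈ Φ, σ n • ((1 - dg b P n) • (S b ((A : Set J)ᶜ) * P * R b n * P)) =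
            ∑ n ∈ Φ, σ n • (S b ((A : Set J)ᶜ) * P * R b n * (1 - P) * R b n * P) := by
          refine Finset.sum_congr rfl fun n _ => ?_
          have h4 : S b ((A : Set J)ᶜ) * P * R b n * (1 - P) * R b n * P =
              S b ((A : Set J)ᶜ) * P * (R b n * (1 - P) * R b n) * P := by
            simp only [mul_assoc]
          rw [h4, mid, mul_smul_comm, smul_mul_assoc]
        rw [h3]
        exact h2) c (C := 1) zero_le_one (fun j _ => hc j)
    linarith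
  have hfin : ∀ Φ : Finset J, ‖S b ((A : Set J)ᶜ) * P *
      (∑ n ∈ Φ, (c n * (1 - dg b P n)) • R b n) * P‖ ≤ δ := by
    intro Φ
    have h1 : S b ((A : Set J)ᶜ) * P * (∑ n ∈ Φ, (c n * (1 - dg b P n)) • R b n) * P =
        ∑ n ∈ Φ \ A, c n • ((1 - dg b P n) • (S b ((A : Set J)ᶜ) * P * R b n * P)) := by
      rw [Finset.mul_sum, Finset.sum_mul]
      symm
      refine (Finset.sum_subset Finset.sdiff_subset ?_).trans (Finset.sum_congr rfl fun n _ => ?_)
      · intro n hn hn2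
        have : n ∈ A := by
          by_contra h
          exact hn2 (Finset.mem_sdiff.mpr ⟨hn, h⟩)
        rw [hcA n this, zero_smul]
      · rw [mul_smul_comm, smul_mul_assoc, smul_smul]
    rw [h1]
    exact hfin0 _ Finset.sdiff_disjoint
  refine ContinuousLinearMap.opNorm_le_bound _ hδ.le fun w => ?_
  have hlim := tendsto_mulOp_finset b (bdd_one_sub b P hc) (P w)
  have hlim2 : Tendsto (fun Φ : Finset J => ‖(S b ((A : Set J)ᶜ) * P)
      ((∑ j ∈ Φ, (c j * (1 - dg b P j)) • R b j) (P w))‖) atTop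
      (𝓝 ‖(S b ((A : Set J)ᶜ) * P) (mulOp b (fun j => c j * (1 - dg b P j)) (P w))‖) :=
    (((S b ((A : Set J)ᶜ) * P).continuous.tendsto _).comp hlim).norm
  refine le_of_tendsto hlim2 (Eventually.of_forall fun Φ => ?_)
  have h1 := (S b ((A : Set J)ᶜ) * P *
      (∑ n ∈ Φ, (c n * (1 - dg b P n)) • R b n) * P).le_opNorm w
  exact h1.trans (mul_le_mul_of_nonneg_right (hfin Φ) (norm_nonneg _))

end Pool.Agent.UUB
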