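import Pool.Agent.UUB.ALG
import Pool.Agent.UUB.SP1

/-!
# ETA: the diagonal entries of `E` are bounded below

PROOF. Let `n ∈ M`, `E = Eop P (S b M) H π = S b M * (P - π) * H * P`. By `R_mul_S_mem`,
`R n * E = R n * (P - π) * H * P = R n * H * P - R n * π * H * P` (`P * (H * P) = H * P`, `Frame.HP`), so
`R n * (E - P) = R n * ((H - 1) * P) - R n * π * H * P` and by linearity of `dg` and `norm_dg_le` (module SP1;
applied to the operator `(H - 1) * P - π * H * P`; note `dg b E n - dg b P n` is the entry of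
`R n * (E - P) * R n`, and the entry of `T₁` only depends on `R n * T₁`)
`‖dg b E n - dg b P n‖ ≤ ‖R n * ((H - 1) * P)‖ + ‖R n * π * H * P‖ ≤ K * (2 * ‖T‖) * ‖P‖
+ ‖R n * π‖ * 2 * ‖P‖` (`Frame.norm_H`). The first term is `≤ 1 / 8` by `hT'`; the second tends to `0`
along `cofinite` (`tendsto_R_compact` with the compact operator `π`,
`isCompactOperator_of_finiteDimensional`), so it is `≤ 1 / 8` off a finite set `A''`. Take
`A' = A ∪ A''`: for `n ∈ M`, `n ∉ A'`, `‖dg b E n‖ ≥ 1 / 2 - 1 / 8 - 1 / 8 = 1 / 4`.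
-/

namespace Pool.Agent.UUB

open Filter Topology Set

variable {𝕜 : Type*} [RCLike 𝕜] {W : Type*} [NormedAddCommGroup W] [NormedSpace 𝕜 W]
  [CompleteSpace W] {J : Type} (b : UnconditionalSchauderBasis J 𝕜 W)

theorem eta_lower {P T H π : W →L[𝕜] W} {M : Set J} (F : Frame P (S b M) T H π) {K : ℝ}
    (hK : ∀ n, ‖R b n‖ ≤ K) (hT : ‖T‖ ≤ 1 / 2) (hT' : 16 * K * ‖P‖ * ‖T‖ ≤ 1) (A : Finset J)
    (hA : ∀ n ∈ M, n ∉ A → 1 / 2 ≤ ‖dg b P n‖) :
    ∃ A' : Finset J, ∀ n ∈ M, n ∉ A' → 1 / 4 ≤ ‖dg b (Eop P (S b M) H π) n‖ := by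
  classical
  obtain ⟨hH, hH1⟩ := F.norm_H hT
  have hcpt := isCompactOperator_of_finiteDimensional F.fin
  have hlim := tendsto_R_compact b hcpt
  have hPn := norm_nonneg P
  have hev : ∀ᶠ n in cofinite, ‖R b n * π‖ < 1 / (16 * (‖P‖ + 1)) :=
    hlim.eventually_lt_const (by positivity)
  rw [eventually_cofinite] at hev
  refine ⟨A ∪ hev.toFinset, fun n hn hnA => ?_⟩
  rw [Finset.notMem_union, Set.Finite.mem_toFinset] at hnA
  obtain ⟨hnA1, hnA2⟩ := hnA
  have hsm : ‖R b n * π‖ < 1 / (16 * (‖P‖ + 1)) := by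
    by_contra hc
    exact hnA2 hc
  have hPHP : P * (H * P) = H * P := by
    rw [F.HP, ← mul_assoc, F.hP]
  have hRE : R b n * (Eop P (S b M) H π - P) =
      R b n * ((H - 1) * P) - R b n * π * (H * P) := by
    unfold Eop
    have h1 : R b n * (S b M * (P - π) * H * P) = R b n * (P * (H * P)) - R b n * π * (H * P) := by
      rw [show R b n * (S b M * (P - π) * H * P) = (R b n * S b M) * ((P - π) * (H * P)) by
        simp only [mul_assoc], R_mul_S_mem b hn, sub_mul, mul_sub, mul_assoc]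
    rw [mul_sub, h1, hPHP, sub_mul, one_mul, mul_sub]
    abel
  have hdg : dg b (Eop P (S b M) H π - P) n = dg b (Eop P (S b M) H π) n - dg b P n := by
    simp [dg]
  have hle : ‖dg b (Eop P (S b M) H π) n - dg b P n‖ ≤ 1 / 4 := by
    rw [← hdg]
    refine (norm_dg_le b hK _ n).1.trans ?_
    rw [hRE]
    refine (norm_sub_le _ _).trans ?_
    have h1 : ‖R b n * ((H - 1) * P)‖ ≤ 1 / 8 := by
      calc ‖R b n * ((H - 1) * P)‖ ≤ ‖R b n‖ * (‖H - 1‖ * ‖P‖) :=
            (norm_mul_le _ _).trans (mul_le_mul_of_nonneg_left (norm_mul_le _ _) (norm_nonneg _))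
        _ ≤ K * ((2 * ‖T‖) * ‖P‖) := by
            apply mul_le_mul (hK n) _ (by positivity) ((norm_nonneg _).trans (hK n))
            exact mul_le_mul_of_nonneg_right hH1 hPn
        _ ≤ 1 / 8 := by nlinarith
    have h2 : ‖R b n * π * (H * P)‖ ≤ 1 / 8 := by
      calc ‖R b n * π * (H * P)‖ ≤ ‖R b n * π‖ * (‖H‖ * ‖P‖) :=
            (norm_mul_le _ _).trans (mul_le_mul_of_nonneg_left (norm_mul_le _ _) (norm_nonneg _))
        _ ≤ 1 / (16 * (‖P‖ + 1)) * (2 * (‖P‖ + 1)) := by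
            apply mul_le_mul hsm.le _ (by positivity) (by positivity)
            have := norm_nonneg H
            nlinarith
        _ = 1 / 8 := by field_simp; norm_num
    linarith
  have h3 := hA n hn hnA1
  have h4 : ‖dg b P n‖ ≤ ‖dg b (Eop P (S b M) H π) n‖ +
      ‖dg b (Eop P (S b M) H π) n - dg b P n‖ := by
    have := norm_sub_le (dg b (Eop P (S b M) H π) n) (dg b (Eop P (S b M) H π) n - dg b P n)
    rwa [sub_sub_cancel] at this
  linarith

end Pool.Agent.UUB
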