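import Pool.Agent.UUB.KHA

/-!
# KHB: consequences for spaces of type `L_1`

PROOF of `avg_lower`. For each `ε`, `∑ i ∈ I, ‖∑ j, sg (ε j) * e i (f j)‖ = ∑ i ∈ I, ‖e i (∑ j, sg (ε j) • f j)‖
≤ C` by `he` and `hC`. Sum over the `2 ^ N` choices of `ε` and use `khintchine` for each `i`:
`2 ^ N ∑ i ∈ I, √(∑ j, ‖e i (f j)‖ ^ 2) ≤ 2 * 2 ^ N * C`.
PROOF of `avg_lower2`. Minkowski's inequality in the euclidean space `ℓ_2(ι)` (triangle inequality for the sum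
over `i ∈ I` of the vectors `(‖e i (f j)‖)_j` of `EuclideanSpace ℝ ι`):
`√(∑ j, (∑ i ∈ I, ‖e i (f j)‖) ^ 2) ≤ ∑ i ∈ I, √(∑ j, ‖e i (f j)‖ ^ 2) ≤ 2 C`. By `he'` (take a common finite
set `I` for the finitely many `j`; the sums increase with `I`), for every `η > 0` the left side is at least
`√(∑ j, (max (‖f j‖ - η) 0) ^ 2)`; let `η → 0`.
PROOF of `core`. For finite `I`, by Cauchy-Schwarz for the sum over `j` and `avg_lower`,
`∑ j, ‖∑ i ∈ I, e i (f j) * t j i‖ ≤ ∑ i ∈ I, ∑ j, ‖e i (f j)‖ ‖t j i‖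
≤ ∑ i ∈ I, √(∑ j, ‖e i (f j)‖ ^ 2) * B ≤ 2 B C`. Let `I → ∞` (`ha`, `le_of_tendsto`).
-/

namespace Pool.Agent.UUB

open Filter Topology Set

variable {𝕜 : Type*} [RCLike 𝕜] {F : Type*} [NormedAddCommGroup F] [NormedSpace 𝕜 F]
  {ι : Type*} [Fintype ι]

theorem avg_lower (e : ℕ → StrongDual 𝕜 F)
    (he : ∀ (I : Finset ℕ) (v : F), ∑ i ∈ I, ‖e i v‖ ≤ ‖v‖) (f : ι → F) {C : ℝ}
    (hC : ∀ ε : ι → Bool, ‖∑ j, sg 𝕜 (ε j) • f j‖ ≤ C) (I : Finset ℕ) :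
    ∑ i ∈ I, √(∑ j, ‖e i (f j)‖ ^ 2) ≤ 2 * C := by
  classical
  have h1 : ∀ i ∈ I, (2 : ℝ) ^ Fintype.card ι * √(∑ j, ‖e i (f j)‖ ^ 2) ≤
      2 * ∑ ε : ι → Bool, ‖e i (∑ j, sg 𝕜 (ε j) • f j)‖ := by
    intro i _
    refine (khintchine (𝕜 := 𝕜) (fun j => e i (f j))).trans (le_of_eq ?_)
    refine congrArg (fun z => 2 * z) (Finset.sum_congr rfl fun ε _ => ?_)
    rw [map_sum]
    refine congrArg norm (Finset.sum_congr rfl fun j _ => ?_)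
    rw [map_smul, smul_eq_mul]
  have h2 : (2 : ℝ) ^ Fintype.card ι * ∑ i ∈ I, √(∑ j, ‖e i (f j)‖ ^ 2) ≤
      (2 : ℝ) ^ Fintype.card ι * (2 * C) := by
    calc (2 : ℝ) ^ Fintype.card ι * ∑ i ∈ I, √(∑ j, ‖e i (f j)‖ ^ 2)
        = ∑ i ∈ I, (2 : ℝ) ^ Fintype.card ι * √(∑ j, ‖e i (f j)‖ ^ 2) := by
          rw [Finset.mul_sum]
      _ ≤ ∑ i ∈ I, 2 * ∑ ε : ι → Bool, ‖e i (∑ j, sg 𝕜 (ε j) • f j)‖ := Finset.sum_le_sum h1
      _ = 2 * ∑ ε : ι → Bool, ∑ i ∈ I, ‖e i (∑ j, sg 𝕜 (ε j) • f j)‖ := by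
          rw [← Finset.mul_sum, Finset.sum_comm]
      _ ≤ 2 * ∑ _ε : ι → Bool, C := by
          refine mul_le_mul_of_nonneg_left (Finset.sum_le_sum fun ε _ => ?_) (by norm_num)
          exact (he I _).trans (hC ε)
      _ = (2 : ℝ) ^ Fintype.card ι * (2 * C) := by
          rw [Finset.sum_const, Finset.card_univ, Fintype.card_fun, Fintype.card_bool,
            nsmul_eq_mul]
          push_cast
          ring
  exact le_of_mul_le_mul_left h2 (by positivity)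

theorem avg_lower2 (e : ℕ → StrongDual 𝕜 F)
    (he : ∀ (I : Finset ℕ) (v : F), ∑ i ∈ I, ‖e i v‖ ≤ ‖v‖)
    (he' : ∀ (v : F) (η : ℝ), 0 < η → ∃ I : Finset ℕ, ‖v‖ - η ≤ ∑ i ∈ I, ‖e i v‖)
    (f : ι → F) {C : ℝ} (hC : ∀ ε : ι → Bool, ‖∑ j, sg 𝕜 (ε j) • f j‖ ≤ C) :
    √(∑ j, ‖f j‖ ^ 2) ≤ 2 * C := by
  classical
  have h1 : ∀ I : Finset ℕ, √(∑ j, (∑ i ∈ I, ‖e i (f j)‖) ^ 2) ≤ 2 * C := by
    intro I
    refine le_trans ?_ (avg_lower e he f hC I)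
    have h3 := norm_sum_le I
      (fun i => (WithLp.toLp 2 (fun j : ι => ‖e i (f j)‖) : EuclideanSpace ℝ ι))
    simp only [EuclideanSpace.norm_eq] at h3
    have h4 : √(∑ j, (∑ i ∈ I, ‖e i (f j)‖) ^ 2) =
        √(∑ j, ‖(∑ i ∈ I, (WithLp.toLp 2 (fun j : ι => ‖e i (f j)‖) :
          EuclideanSpace ℝ ι)) j‖ ^ 2) := by
      refine congrArg Real.sqrt (Finset.sum_congr rfl fun j _ => ?_)
      rw [Real.norm_eq_abs, sq_abs]
      refine congrArg (fun z : ℝ => z ^ 2) ?_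
      rw [WithLp.ofLp_sum, Finset.sum_apply]
    rw [h4]
    refine h3.trans (le_of_eq (Finset.sum_congr rfl fun i _ => ?_))
    refine congrArg Real.sqrt (Finset.sum_congr rfl fun j _ => ?_)
    rw [Real.norm_eq_abs, sq_abs]
  have h2 : ∀ η : ℝ, 0 < η → √(∑ j, (max (‖f j‖ - η) 0) ^ 2) ≤ 2 * C := by
    intro η hη
    choose J hJ using fun j : ι => he' (f j) η hη
    refine le_trans ?_ (h1 (Finset.univ.biUnion J))
    refine Real.sqrt_le_sqrt (Finset.sum_le_sum fun j _ => ?_)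
    refine pow_le_pow_left₀ (le_max_right _ _) (max_le ((hJ j).trans ?_) ?_) 2
    · exact Finset.sum_le_sum_of_subset_of_nonneg
        (Finset.subset_biUnion_of_mem J (Finset.mem_univ j)) fun _ _ _ => norm_nonneg _
    · exact Finset.sum_nonneg fun _ _ => norm_nonneg _
  have h5 : Tendsto (fun η : ℝ => √(∑ j, (max (‖f j‖ - η) 0) ^ 2)) (𝓝[>] 0)
      (𝓝 (√(∑ j, (max (‖f j‖ - 0) 0) ^ 2))) := by
    have h6 : Continuous fun η : ℝ => √(∑ j, (max (‖f j‖ - η) 0) ^ 2) := by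
      refine Real.continuous_sqrt.comp (continuous_finsetSum _ fun j _ => ?_)
      exact ((continuous_const.sub continuous_id).max continuous_const).pow 2
    exact (h6.tendsto 0).mono_left nhdsWithin_le_nhds
  have h7 := le_of_tendsto h5 (eventually_mem_nhdsWithin.mono fun η hη => h2 η hη)
  refine le_trans (le_of_eq ?_) h7
  refine congrArg Real.sqrt (Finset.sum_congr rfl fun j _ => ?_)
  rw [sub_zero, max_eq_left (norm_nonneg _)]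

theorem core (e : ℕ → StrongDual 𝕜 F)
    (he : ∀ (I : Finset ℕ) (v : F), ∑ i ∈ I, ‖e i v‖ ≤ ‖v‖) (f : ι → F) {C : ℝ}
    (hC : ∀ ε : ι → Bool, ‖∑ j, sg 𝕜 (ε j) • f j‖ ≤ C) (t : ι → ℕ → 𝕜) {B : ℝ} (hB : 0 ≤ B)
    (ht : ∀ i, ∑ j, ‖t j i‖ ^ 2 ≤ B ^ 2) (a : ι → 𝕜)
    (ha : ∀ j, Tendsto (fun I : Finset ℕ => ∑ i ∈ I, e i (f j) * t j i) atTop (𝓝 (a j))) :
    ∑ j, ‖a j‖ ≤ 2 * B * C := by
  classical
  have h1 : ∀ I : Finset ℕ, ∑ j, ‖∑ i ∈ I, e i (f j) * t j i‖ ≤ 2 * B * C := by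
    intro I
    calc ∑ j, ‖∑ i ∈ I, e i (f j) * t j i‖
        ≤ ∑ j, ∑ i ∈ I, ‖e i (f j)‖ * ‖t j i‖ := by
          refine Finset.sum_le_sum fun j _ => (norm_sum_le _ _).trans (le_of_eq ?_)
          exact Finset.sum_congr rfl fun i _ => norm_mul _ _
      _ = ∑ i ∈ I, ∑ j, ‖e i (f j)‖ * ‖t j i‖ := Finset.sum_comm
      _ ≤ ∑ i ∈ I, √(∑ j, ‖e i (f j)‖ ^ 2) * B := by
          refine Finset.sum_le_sum fun i _ => ?_
          refine (Real.sum_mul_le_sqrt_mul_sqrt Finset.univ _ _).trans ?_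
          refine mul_le_mul_of_nonneg_left ?_ (Real.sqrt_nonneg _)
          rw [← Real.sqrt_sq hB]
          exact Real.sqrt_le_sqrt (ht i)
      _ = (∑ i ∈ I, √(∑ j, ‖e i (f j)‖ ^ 2)) * B := by rw [Finset.sum_mul]
      _ ≤ (2 * C) * B := mul_le_mul_of_nonneg_right (avg_lower e he f hC I) hB
      _ = 2 * B * C := by ring
  have h2 : Tendsto (fun I : Finset ℕ => ∑ j, ‖∑ i ∈ I, e i (f j) * t j i‖) atTop
      (𝓝 (∑ j, ‖a j‖)) := tendsto_finsetSum _ fun j _ => (ha j).norm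
  exact le_of_tendsto h2 (Eventually.of_forall h1)

end Pool.Agent.UUB
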