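import Pool.Agent.UUB.SGB
import Pool.Agent.UUB.KHB
import Pool.Agent.UUB.BPA
import Pool.Agent.UUB.INV

/-!
# ULA: uniqueness of the unconditional basis of `ℓ_1`

Let `u` be the unit vector basis (`exists_lp_basis 1`), `u.coord i f = f i`; `u.coord i` are the functionals `e i`
of `avg_lower`, `avg_lower2`, `core` (`l1_sum_le`, `l1_exists`), `F = ℓ_1`, `ι = Φ` (a finite subset of `J`
as a type; signs on `Φ` extended by `true`). `K` from `sign_bound b`, `c ≤ ‖b j‖ ≤ C`.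

PROOF of `l1_bound`. (a) Fix `i` and apply `avg_lower2` to `f j = b.coord j (u i) • b j`, `j ∈ Φ`, with the
constant `K` (part (2) of `sign_bound`, `‖u i‖ = 1`): `√(∑ ‖b.coord j (u i)‖ ^ 2 ‖b j‖ ^ 2) ≤ 2 K`,
so `∑_{j ∈ Φ} ‖b.coord j (u i)‖ ^ 2 ≤ (2 K / c) ^ 2` for all `i`.
(b) Apply `core` to `f j = a j • b j`, constant `K ‖∑_Φ a j • b j‖` (part (1) of `sign_bound`),
`t j i = b.coord j (u i)`, `B = 2 K / c`: `∑_{i ∈ I} (a j * (b j) i) * b.coord j (u i)
= a j * b.coord j (∑_{i ∈ I} (b j) i • u i) → a j * b.coord j (b j) = a j` (`u.expansion`, `b.ortho`).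
The conclusion is `∑_Φ ‖a j‖ ≤ 2 * (2 K / c) * K * ‖∑_Φ a j • b j‖`.
`hasUUB_l1`: `hasUUB_of_char` with `Q J a = Summable fun j => ‖a j‖`: if `∑ a j • x j` is summable, so is
`∑ ‖a j‖` by `l1_bound` and the Cauchy criterion (`summable_iff_vanishing_norm`); conversely absolute
convergence and `‖x j‖ ≤ C`. Existence etc. as in module ULB.
-/

namespace Pool.Agent.UUB

open Filter Topology Set

variable {𝕜 : Type*} [RCLike 𝕜]

private theorem ula_norm_sg (t : Bool) : ‖sg 𝕜 t‖ = 1 := by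
  cases t <;> simp [sg]

open Classical in
private theorem ula_theta {J : Type} (Φ : Finset J) (ε : Φ → Bool) :
    ∀ j : J, ‖(if h : j ∈ Φ then sg 𝕜 (ε ⟨j, h⟩) else (1 : 𝕜))‖ ≤ 1 := by
  intro j
  by_cases h : j ∈ Φ
  · simp [h, ula_norm_sg]
  · simp [h]

open Classical in
private theorem ula_sum {J : Type} {E : Type*} [NormedAddCommGroup E] [NormedSpace 𝕜 E]
    (Φ : Finset J) (ε : Φ → Bool) (α : J → 𝕜) (x : J → E) :
    ∑ j : Φ, sg 𝕜 (ε j) • (α j • x j) =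
      ∑ j ∈ Φ, ((if h : j ∈ Φ then sg 𝕜 (ε ⟨j, h⟩) else (1 : 𝕜)) * α j) • x j := by
  rw [← Finset.sum_coe_sort Φ
    (fun j => ((if h : j ∈ Φ then sg 𝕜 (ε ⟨j, h⟩) else (1 : 𝕜)) * α j) • x j)]
  apply Finset.sum_congr rfl
  intro j _
  simp [smul_smul]

theorem l1_bound {J : Type} (b : UnconditionalSchauderBasis J 𝕜 (lp (fun _ : ℕ => 𝕜) 1))
    (hs : SemiNormalized fun j => b j) :
    ∃ C : ℝ, 0 < C ∧ ∀ (Φ : Finset J) (a : J → 𝕜),
      ∑ j ∈ Φ, ‖a j‖ ≤ C * ‖∑ j ∈ Φ, a j • b j‖ := by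
  classical
  obtain ⟨u, hu1, hu2⟩ := exists_lp_basis (𝕜 := 𝕜) 1 (by simp)
  obtain ⟨K, hK1, hK⟩ := sign_bound b
  obtain ⟨c, C, hc, hcC⟩ := hs
  have hK0 : 0 ≤ K := by linarith
  have he : ∀ (I : Finset ℕ) (v : lp (fun _ : ℕ => 𝕜) 1),
      ∑ i ∈ I, ‖u.coord i v‖ ≤ ‖v‖ := by
    intro I v
    simp only [hu2]
    exact l1_sum_le I v
  have he' : ∀ (v : lp (fun _ : ℕ => 𝕜) 1) (η : ℝ), 0 < η →
      ∃ I : Finset ℕ, ‖v‖ - η ≤ ∑ i ∈ I, ‖u.coord i v‖ := by
    intro v η hη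
    simp only [hu2]
    exact l1_exists v hη
  have hnu : ∀ i, ‖u i‖ = 1 := by
    intro i
    rw [hu1]
    rw [lp.norm_single (by simp)]
    simp
  have hB0 : 0 ≤ 2 * K / c := by positivity
  -- (a)
  have ha : ∀ (Φ : Finset J) (i : ℕ), ∑ j : Φ, ‖b.coord j (u i)‖ ^ 2 ≤ (2 * K / c) ^ 2 := by
    intro Φ i
    have hC : ∀ ε : Φ → Bool,
        ‖∑ j : Φ, sg 𝕜 (ε j) • (b.coord j (u i) • b (j : J))‖ ≤ K := by
      intro ε
      rw [ula_sum Φ ε (fun j => b.coord j (u i)) (fun j => b j)]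
      have h2 := (hK Φ (fun j => if h : j ∈ Φ then sg 𝕜 (ε ⟨j, h⟩) else (1 : 𝕜))
        (ula_theta Φ ε)).2.1 (u i)
      rwa [hnu, mul_one] at h2
    have h3 := avg_lower2 (fun i => u.coord i) he he'
      (fun j : Φ => b.coord j (u i) • b (j : J)) hC
    have h4 : ∑ j : Φ, ‖b.coord j (u i) • b (j : J)‖ ^ 2 ≤ (2 * K) ^ 2 := by
      have := Real.sqrt_le_left (x := ∑ j : Φ, ‖b.coord j (u i) • b (j : J)‖ ^ 2)
        (y := 2 * K) (by positivity)
      exact this.1 h3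
    have h5 : ∑ j : Φ, c ^ 2 * ‖b.coord j (u i)‖ ^ 2 ≤
        ∑ j : Φ, ‖b.coord j (u i) • b (j : J)‖ ^ 2 := by
      apply Finset.sum_le_sum
      intro j _
      rw [norm_smul, mul_pow, mul_comm]
      have := (hcC j).1
      gcongr
    rw [← Finset.mul_sum] at h5
    rw [div_pow, le_div_iff₀ (by positivity)]
    linarith
  refine ⟨2 * (2 * K / c) * K, by positivity, ?_⟩
  intro Φ a
  have hC : ∀ ε : Φ → Bool, ‖∑ j : Φ, sg 𝕜 (ε j) • (a j • b (j : J))‖ ≤
      K * ‖∑ j ∈ Φ, a j • b j‖ := by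
    intro ε
    rw [ula_sum Φ ε a (fun j => b j)]
    exact (hK Φ (fun j => if h : j ∈ Φ then sg 𝕜 (ε ⟨j, h⟩) else (1 : 𝕜))
      (ula_theta Φ ε)).1 a
  have hlim : ∀ j : Φ, Tendsto (fun I : Finset ℕ => ∑ i ∈ I,
      (fun i => u.coord i) i ((fun j : Φ => a j • b (j : J)) j) *
        (fun (j : Φ) (i : ℕ) => b.coord j (u i)) j i) atTop (𝓝 (a j)) := by
    intro j
    have h1 := u.expansion (b (j : J))
    have h2 : HasSum (fun i => b.coord j (u.coord i (b (j : J)) • u i)) (b.coord j (b (j : J))) := by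
      have := (b.coord j).hasSum h1
      exact this
    have h3 : b.coord j (b (j : J)) = 1 := by
      rw [b.ortho]
      simp
    rw [h3] at h2
    have h4 := h2.mul_left (a j)
    rw [mul_one] at h4
    have h5 : Tendsto (fun I : Finset ℕ => ∑ i ∈ I, a j * b.coord j (u.coord i (b (j : J)) • u i))
        atTop (𝓝 (a j)) := by
      simpa [HasSum] using h4
    refine h5.congr ?_
    intro I
    apply Finset.sum_congr rfl
    intro i _
    simp only [map_smul, smul_eq_mul]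
    ring
  have h := core (fun i => u.coord i) he (fun j : Φ => a j • b (j : J)) hC
    (fun (j : Φ) (i : ℕ) => b.coord j (u i)) hB0 (ha Φ) (fun j => a j) hlim
  rw [Finset.sum_coe_sort Φ (fun j => ‖a j‖)] at h
  calc ∑ j ∈ Φ, ‖a j‖ ≤ _ := h
    _ = _ := by ring

theorem hasUUB_l1 : HasUUB 𝕜 (lp (fun _ : ℕ => 𝕜) 1) := by
  classical
  obtain ⟨u, hu1, hu2⟩ := exists_lp_basis (𝕜 := 𝕜) 1 (by simp)
  have hnu : ∀ i, ‖u i‖ = 1 := by
    intro i
    rw [hu1]
    rw [lp.norm_single (by simp)]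
    simp
  refine hasUUB_of_char (not_finite_of_basis u)
    ⟨fun j => u j, isUncBasis_of_schauder u, 1, 1, one_pos, fun j => ⟨(hnu j).ge, (hnu j).le⟩⟩
    (fun J a => Summable fun j => ‖a j‖) ?_ ?_
  · intro J I π a
    exact π.summable_iff (f := fun i => ‖a i‖)
  · intro J x hx hs a
    obtain ⟨b, hb⟩ := exists_schauder hx
    have hs' : SemiNormalized fun j => b j := by
      simpa only [hb] using hs
    constructor
    · intro hsum
      obtain ⟨C, hC, hbd⟩ := l1_bound b hs'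
      rw [summable_iff_vanishing_norm] at hsum ⊢
      intro ε hε
      obtain ⟨s, hs2⟩ := hsum (ε / C) (by positivity)
      refine ⟨s, fun t ht => ?_⟩
      have h1 := hs2 t ht
      have h2 := hbd t a
      simp only [hb] at h2
      rw [Real.norm_of_nonneg (Finset.sum_nonneg fun i _ => norm_nonneg _)]
      rw [lt_div_iff₀ hC] at h1
      calc _ ≤ _ := h2
        _ < ε := by linarith
    · intro hsum
      obtain ⟨c, C, hc, hcC⟩ := hs
      apply Summable.of_norm_bounded (g := fun j => C * ‖a j‖) (hsum.mul_left C)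
      intro j
      rw [norm_smul, mul_comm]
      have := (hcC j).2
      gcongr

end Pool.Agent.UUB
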