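import Pool.Agent.UUB.Defs

/-!
# KHA: Khintchine's inequality in `L_1` and the parallelogram identity

Write `X ε = ∑ i, sg (ε i) * x i`, `s = ∑ i, ‖x i‖ ^ 2`, `N = card ι`, and `E` for the average over the `2 ^ N`
sign choices.
Second moment (`parallelogram` below, for vectors of an inner product space): `E ‖X‖ ^ 2 = s`. Fourth
moment: `E ‖X‖ ^ 4 ≤ 3 s ^ 2`. Both by induction on `N` (e.g. for `Fin n → Bool` with `Fin.consEquiv`, then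
transport along `Fintype.equivFin`; or by induction over a finite set with sums over its powerset,
`Finset.sum_powerset_insert`): adding one more term `t * x` with an independent sign `t`,
`‖X + t x‖ ^ 2 = ‖X‖ ^ 2 + ‖x‖ ^ 2 + 2 t re (X * conj x)`, so, averaging over `t = ± 1`,
the second moment becomes `E ‖X‖ ^ 2 + ‖x‖ ^ 2`, and the fourth moment becomes
`E (‖X‖ ^ 2 + ‖x‖ ^ 2) ^ 2 + 4 E (re (X * conj x)) ^ 2 ≤ E ‖X‖ ^ 4 + 6 ‖x‖ ^ 2 E ‖X‖ ^ 2 + ‖x‖ ^ 4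
≤ 3 s ^ 2 + 6 s ‖x‖ ^ 2 + ‖x‖ ^ 4 ≤ 3 (s + ‖x‖ ^ 2) ^ 2`.
`khintchine`: if `s = 0` trivial. Let `r = √s`. For `t ≥ 0`: `t ≥ t ^ 2 - (4 / 27) * t ^ 4`, because
`t - t ^ 2 + (4 / 27) t ^ 4 = (4 / 27) t (t - 3 / 2) ^ 2 (t + 3)`. Apply it to `t = ‖X ε‖ / r` and average:
`E ‖X‖ / r ≥ 1 - (4 / 27) * 3 = 5 / 9 ≥ 1 / 2`.
-/

namespace Pool.Agent.UUB

open Filter Topology Set

variable {𝕜 : Type*} [RCLike 𝕜]

private def khaFlip {ι : Type*} [DecidableEq ι] (i : ι) (ε : ι → Bool) : ι → Bool :=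
  Function.update ε i (!ε i)

private theorem khaFlip_invol {ι : Type*} [DecidableEq ι] (i : ι) :
    Function.Involutive (khaFlip i) := by
  intro ε
  funext j
  unfold khaFlip
  by_cases h : j = i
  · subst h; simp
  · simp [Function.update_of_ne h]

private theorem kha_flip {ι : Type*} [Fintype ι] [DecidableEq ι] (i : ι)
    (F : (ι → Bool) → ℝ) :
    ∑ ε : ι → Bool, F ε = ∑ ε : ι → Bool, (F ε + F (khaFlip i ε)) / 2 := by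
  have h1 : ∑ ε : ι → Bool, F (khaFlip i ε) = ∑ ε : ι → Bool, F ε :=
    Equiv.sum_comp (khaFlip_invol i).toPerm F
  rw [← Finset.sum_div, Finset.sum_add_distrib, h1]
  ring

private theorem sg_not (t : Bool) : sg 𝕜 (!t) = - sg 𝕜 t := by
  cases t <;> simp [sg]

private theorem norm_sg' (t : Bool) : ‖sg 𝕜 t‖ = 1 := by
  cases t <;> simp [sg]

private theorem kha_sum_flip {E : Type*} [AddCommGroup E] [Module 𝕜 E]
    {ι : Type*} [DecidableEq ι] (f : ι → E) (s : Finset ι) (i : ι) (hi : i ∉ s) (ε : ι → Bool) :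
    ∑ j ∈ s, sg 𝕜 (khaFlip i ε j) • f j = ∑ j ∈ s, sg 𝕜 (ε j) • f j := by
  apply Finset.sum_congr rfl
  intro j hj
  have h : j ≠ i := fun h => hi (h ▸ hj)
  unfold khaFlip
  rw [Function.update_of_ne h]

private theorem kha_two {E : Type*} [NormedAddCommGroup E] [InnerProductSpace 𝕜 E]
    {ι : Type*} [Fintype ι] [DecidableEq ι] (f : ι → E) (s : Finset ι) :
    ∑ ε : ι → Bool, ‖∑ i ∈ s, sg 𝕜 (ε i) • f i‖ ^ 2 =
      2 ^ Fintype.card ι * ∑ i ∈ s, ‖f i‖ ^ 2 := by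
  induction s using Finset.induction_on with
  | empty => simp
  | insert i s hi ih =>
    rw [kha_flip i, Finset.sum_insert hi, mul_add, ← ih]
    have h1 : ∀ ε : ι → Bool, (‖∑ j ∈ insert i s, sg 𝕜 (ε j) • f j‖ ^ 2 +
        ‖∑ j ∈ insert i s, sg 𝕜 (khaFlip i ε j) • f j‖ ^ 2) / 2 =
        ‖f i‖ ^ 2 + ‖∑ j ∈ s, sg 𝕜 (ε j) • f j‖ ^ 2 := by
      intro ε
      rw [Finset.sum_insert hi, Finset.sum_insert hi, kha_sum_flip f s i hi ε]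
      have h2 : sg 𝕜 (khaFlip i ε i) = - sg 𝕜 (ε i) := by
        unfold khaFlip
        rw [Function.update_self, sg_not]
      rw [h2, neg_smul]
      set X := ∑ j ∈ s, sg 𝕜 (ε j) • f j
      set Y := sg 𝕜 (ε i) • f i with hY
      have h3 : ‖Y‖ = ‖f i‖ := by rw [hY, norm_smul, norm_sg', one_mul]
      have h4 := parallelogram_law_with_norm 𝕜 X Y
      have h5 : Y + X = X + Y := add_comm _ _
      have h6 : -Y + X = X - Y := by abel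
      rw [h5, h6, ← h3]
      nlinarith [h4]
    rw [Finset.sum_congr rfl fun ε _ => h1 ε, Finset.sum_add_distrib]
    congr 1
    rw [Finset.sum_const, Finset.card_univ, nsmul_eq_mul]
    simp

theorem parallelogram {E : Type*} [NormedAddCommGroup E] [InnerProductSpace 𝕜 E]
    {ι : Type*} [Fintype ι] [DecidableEq ι] (f : ι → E) :
    ∑ ε : ι → Bool, ‖∑ i, sg 𝕜 (ε i) • f i‖ ^ 2 = 2 ^ Fintype.card ι * ∑ i, ‖f i‖ ^ 2 :=
  kha_two f Finset.univ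

private theorem kha_four {ι : Type*} [Fintype ι] [DecidableEq ι] (x : ι → 𝕜) (s : Finset ι) :
    ∑ ε : ι → Bool, ‖∑ i ∈ s, sg 𝕜 (ε i) • x i‖ ^ 4 ≤
      3 * 2 ^ Fintype.card ι * (∑ i ∈ s, ‖x i‖ ^ 2) ^ 2 := by
  induction s using Finset.induction_on with
  | empty => simp
  | insert i s hi ih =>
    rw [kha_flip i, Finset.sum_insert hi]
    have h1 : ∀ ε : ι → Bool, (‖∑ j ∈ insert i s, sg 𝕜 (ε j) • x j‖ ^ 4 +
        ‖∑ j ∈ insert i s, sg 𝕜 (khaFlip i ε j) • x j‖ ^ 4) / 2 ≤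
        ‖x i‖ ^ 4 + 6 * ‖x i‖ ^ 2 * ‖∑ j ∈ s, sg 𝕜 (ε j) • x j‖ ^ 2 +
          ‖∑ j ∈ s, sg 𝕜 (ε j) • x j‖ ^ 4 := by
      intro ε
      rw [Finset.sum_insert hi, Finset.sum_insert hi, kha_sum_flip x s i hi ε]
      have h2 : sg 𝕜 (khaFlip i ε i) = - sg 𝕜 (ε i) := by
        unfold khaFlip
        rw [Function.update_self, sg_not]
      rw [h2, neg_smul]
      set X := ∑ j ∈ s, sg 𝕜 (ε j) • x j
      set Y := sg 𝕜 (ε i) • x i with hY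
      have h3 : ‖Y‖ = ‖x i‖ := by rw [hY, norm_smul, norm_sg', one_mul]
      have h4 := parallelogram_law_with_norm 𝕜 X Y
      have h5 : Y + X = X + Y := add_comm _ _
      have h6 : -Y + X = X - Y := by abel
      rw [h5, h6, ← h3]
      have h7 : ‖X + Y‖ ≤ ‖X‖ + ‖Y‖ := norm_add_le _ _
      have h8 : ‖X - Y‖ ≤ ‖X‖ + ‖Y‖ := norm_sub_le _ _
      have h9 : ‖X + Y‖ ^ 2 ≤ (‖X‖ + ‖Y‖) ^ 2 := by gcongr
      have h10 : ‖X - Y‖ ^ 2 ≤ (‖X‖ + ‖Y‖) ^ 2 := by gcongr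
      set p := ‖X + Y‖ ^ 2 with hp
      set q := ‖X - Y‖ ^ 2 with hq
      have hpq : p + q = 2 * (‖X‖ ^ 2 + ‖Y‖ ^ 2) := by rw [hp, hq]; nlinarith [h4]
      have e1 : ‖X + Y‖ ^ 4 = p ^ 2 := by rw [hp]; ring
      have e2 : ‖X - Y‖ ^ 4 = q ^ 2 := by rw [hq]; ring
      rw [e1, e2]
      -- `p, q ∈ a ± b`, `|b| ≤ 2 ‖X‖ ‖Y‖`
      have hb1 : p - (‖X‖ ^ 2 + ‖Y‖ ^ 2) ≤ 2 * ‖X‖ * ‖Y‖ := by nlinarith
      have hb2 : -(2 * ‖X‖ * ‖Y‖) ≤ p - (‖X‖ ^ 2 + ‖Y‖ ^ 2) := by nlinarith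
      have hb3 : (p - (‖X‖ ^ 2 + ‖Y‖ ^ 2)) ^ 2 ≤ (2 * ‖X‖ * ‖Y‖) ^ 2 := by
        apply sq_le_sq'
        · exact hb2
        · exact hb1
      have hq' : q = 2 * (‖X‖ ^ 2 + ‖Y‖ ^ 2) - p := by linarith
      rw [hq']
      nlinarith [hb3]
    have h2 := Finset.sum_le_sum fun ε (_ : ε ∈ Finset.univ) => h1 ε
    refine h2.trans ?_
    rw [Finset.sum_add_distrib, Finset.sum_add_distrib, ← Finset.mul_sum, kha_two]
    have h3 : ∑ _ε : ι → Bool, ‖x i‖ ^ 4 = 2 ^ Fintype.card ι * ‖x i‖ ^ 4 := by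
      rw [Finset.sum_const, Finset.card_univ, nsmul_eq_mul]
      simp
    rw [h3]
    set S := ∑ j ∈ s, ‖x j‖ ^ 2 with hS
    have hN : (0 : ℝ) ≤ 2 ^ Fintype.card ι := by positivity
    have h4 : (2 : ℝ) ^ Fintype.card ι * ‖x i‖ ^ 4 +
        6 * ‖x i‖ ^ 2 * (2 ^ Fintype.card ι * S) + 3 * 2 ^ Fintype.card ι * S ^ 2 =
        2 ^ Fintype.card ι * (‖x i‖ ^ 4 + 6 * ‖x i‖ ^ 2 * S + 3 * S ^ 2) := by ring
    have h5 : ‖x i‖ ^ 4 + 6 * ‖x i‖ ^ 2 * S + 3 * S ^ 2 ≤ 3 * (‖x i‖ ^ 2 + S) ^ 2 := by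
      nlinarith [sq_nonneg (‖x i‖ ^ 2)]
    have h6 := mul_le_mul_of_nonneg_left h5 hN
    linarith

theorem fourth_moment {ι : Type*} [Fintype ι] [DecidableEq ι] (x : ι → 𝕜) :
    ∑ ε : ι → Bool, ‖∑ i, sg 𝕜 (ε i) * x i‖ ^ 4 ≤
      3 * 2 ^ Fintype.card ι * (∑ i, ‖x i‖ ^ 2) ^ 2 := by
  simpa only [smul_eq_mul] using kha_four x Finset.univ

theorem khintchine {ι : Type*} [Fintype ι] [DecidableEq ι] (x : ι → 𝕜) :
    (2 : ℝ) ^ Fintype.card ι * √(∑ i, ‖x i‖ ^ 2) ≤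
      2 * ∑ ε : ι → Bool, ‖∑ i, sg 𝕜 (ε i) * x i‖ := by
  set s := ∑ i, ‖x i‖ ^ 2 with hs
  have hs0 : 0 ≤ s := Finset.sum_nonneg fun i _ => by positivity
  have hR : 0 ≤ 2 * ∑ ε : ι → Bool, ‖∑ i, sg 𝕜 (ε i) * x i‖ := by positivity
  rcases hs0.eq_or_lt with h0 | h0
  · rw [← h0]
    simpa using hR
  set r := √s with hr
  have hr0 : 0 < r := Real.sqrt_pos.2 h0
  have hr2 : r ^ 2 = s := Real.sq_sqrt hs0
  have h2 : ∑ ε : ι → Bool, ‖∑ i, sg 𝕜 (ε i) * x i‖ ^ 2 = 2 ^ Fintype.card ι * s := by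
    simpa only [smul_eq_mul] using parallelogram (𝕜 := 𝕜) x
  have h4 := fourth_moment x
  rw [← hs] at h4
  set N : ℝ := 2 ^ Fintype.card ι with hN
  have hN0 : 0 < N := by positivity
  -- pointwise: `r ^ 3 t ≥ r ^ 2 t ^ 2 - (4/27) t ^ 4`
  have h1 : ∀ ε : ι → Bool, r ^ 2 * ‖∑ i, sg 𝕜 (ε i) * x i‖ ^ 2 -
      4 / 27 * ‖∑ i, sg 𝕜 (ε i) * x i‖ ^ 4 ≤ r ^ 3 * ‖∑ i, sg 𝕜 (ε i) * x i‖ := by
    intro ε
    set t := ‖∑ i, sg 𝕜 (ε i) * x i‖ with ht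
    have ht0 : 0 ≤ t := norm_nonneg _
    have e : r ^ 3 * t - (r ^ 2 * t ^ 2 - 4 / 27 * t ^ 4) =
        4 / 27 * t * (t - 3 / 2 * r) ^ 2 * (t + 3 * r) := by ring
    have : 0 ≤ 4 / 27 * t * (t - 3 / 2 * r) ^ 2 * (t + 3 * r) := by positivity
    linarith
  have h3 := Finset.sum_le_sum fun ε (_ : ε ∈ Finset.univ) => h1 ε
  rw [Finset.sum_sub_distrib, ← Finset.mul_sum, ← Finset.mul_sum, ← Finset.mul_sum, h2] at h3
  set M := ∑ ε : ι → Bool, ‖∑ i, sg 𝕜 (ε i) * x i‖ with hM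
  have h5 : N * r ^ 4 - 4 / 27 * (3 * N * r ^ 4) ≤ r ^ 3 * M := by
    have e1 : s ^ 2 = r ^ 4 := by rw [← hr2]; ring
    have e2 : r ^ 2 * (N * s) = N * r ^ 4 := by rw [← hr2]; ring
    rw [e1] at h4
    rw [e2] at h3
    linarith
  have h6 : r ^ 3 * (N * r) ≤ r ^ 3 * (2 * M) := by
    have : 0 ≤ N * r ^ 4 := by positivity
    nlinarith
  exact le_of_mul_le_mul_left h6 (by positivity)

end Pool.Agent.UUB
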