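import Pool.Agent.UUB.SGB
import Pool.Agent.UUB.KHA
import Pool.Agent.UUB.BPA
import Pool.Agent.UUB.INV

/-!
# ULB: uniqueness of the unconditional basis of `ℓ_2`

PROOF of `hilbert_summable_iff`. `b` the Schauder basis of `exists_schauder`, `K` from `sign_bound`,
`c ≤ ‖x j‖ ≤ C`. For a finite set `Φ` and signs `ε : Φ → Bool` (extend by `true` off `Φ`), (1) of `sign_bound`
applied to `a` and to `fun j => sg (ε j) * a j` (the square of a sign is `1`) gives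
`K⁻¹ ‖v‖ ≤ ‖∑ j, sg (ε j) • a j • x j‖ ≤ K ‖v‖`, `v = ∑ j ∈ Φ, a j • x j`. With `parallelogram`
(`ι = Φ`, `Finset.sum_coe_sort`), after division by `2 ^ card`:
`c ^ 2 ∑_Φ ‖a j‖ ^ 2 ≤ ∑_Φ ‖a j • x j‖ ^ 2 ≤ K ^ 2 ‖v‖ ^ 2` and
`‖v‖ ^ 2 ≤ K ^ 2 ∑_Φ ‖a j • x j‖ ^ 2 ≤ K ^ 2 C ^ 2 ∑_Φ ‖a j‖ ^ 2`. By the Cauchy criterion
(`summable_iff_vanishing_norm`) `∑ a j • x j` is summable iff `∑ ‖a j‖ ^ 2` is.
`hasUUB_l2`: `hasUUB_of_char` with `Q J a = Summable fun j => ‖a j‖ ^ 2`; the space is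
a Hilbert space (`lp.instInnerProductSpace`); basis from `exists_lp_basis`
(`isUncBasis_of_schauder`; norms are `1`); `not_finite_of_basis`; `Equiv.summable_iff`.
-/

namespace Pool.Agent.UUB

open Filter Topology Set

variable {𝕜 : Type*} [RCLike 𝕜]

private theorem ulb_sg_mul (t : Bool) : sg 𝕜 t * sg 𝕜 t = 1 := by
  cases t <;> simp [sg]

private theorem ulb_sg_norm (t : Bool) : ‖sg 𝕜 t‖ = 1 := by
  cases t <;> simp [sg]

private theorem ulb_est {E : Type*} [NormedAddCommGroup E] [InnerProductSpace 𝕜 E]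
    [CompleteSpace E] {J : Type} (b : UnconditionalSchauderBasis J 𝕜 E) :
    ∃ K : ℝ, 1 ≤ K ∧ ∀ (Φ : Finset J) (a : J → 𝕜),
      ∑ j ∈ Φ, ‖a j • b j‖ ^ 2 ≤ K ^ 2 * ‖∑ j ∈ Φ, a j • b j‖ ^ 2 ∧
      ‖∑ j ∈ Φ, a j • b j‖ ^ 2 ≤ K ^ 2 * ∑ j ∈ Φ, ‖a j • b j‖ ^ 2 := by
  classical
  obtain ⟨K, hK1, hK⟩ := sign_bound b
  refine ⟨K, hK1, fun Φ a => ?_⟩
  have hK0 : 0 ≤ K := le_trans zero_le_one hK1
  set v : E := ∑ j ∈ Φ, a j • b j with hv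
  let θ : (Φ → Bool) → J → 𝕜 := fun ε j => if h : j ∈ Φ then sg 𝕜 (ε ⟨j, h⟩) else 1
  have hθ : ∀ ε j, ‖θ ε j‖ ≤ 1 := by
    intro ε j
    by_cases h : j ∈ Φ
    · simp only [θ, dif_pos h, ulb_sg_norm, le_refl]
    · simp only [θ, dif_neg h, norm_one, le_refl]
  have hV : ∀ ε : Φ → Bool, ∑ i : Φ, sg 𝕜 (ε i) • (a i • b i) = ∑ j ∈ Φ, (θ ε j * a j) • b j := by
    intro ε
    rw [← Finset.sum_coe_sort Φ (fun j => (θ ε j * a j) • b j)]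
    apply Finset.sum_congr rfl
    intro i _
    have h : θ ε (i : J) = sg 𝕜 (ε i) := by
      simp only [θ, dif_pos i.2]
    rw [h, smul_smul]
  have h1 : ∀ ε : Φ → Bool, ‖∑ i : Φ, sg 𝕜 (ε i) • (a i • b i)‖ ≤ K * ‖v‖ := by
    intro ε
    rw [hV]
    exact (hK Φ (θ ε) (hθ ε)).1 a
  have h2 : ∀ ε : Φ → Bool, ‖v‖ ≤ K * ‖∑ i : Φ, sg 𝕜 (ε i) • (a i • b i)‖ := by
    intro ε
    rw [hV]
    have h3 := (hK Φ (θ ε) (hθ ε)).1 (fun j => θ ε j * a j)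
    have h4 : ∑ j ∈ Φ, (θ ε j * (θ ε j * a j)) • b j = v := by
      rw [hv]
      apply Finset.sum_congr rfl
      intro j hj
      have h5 : θ ε j * θ ε j = 1 := by
        simp only [θ, dif_pos hj, ulb_sg_mul]
      rw [← mul_assoc, h5, one_mul]
    rw [h4] at h3
    exact h3
  have hpar := parallelogram (𝕜 := 𝕜) (fun i : Φ => a i • b i)
  have hsum : ∑ i : Φ, ‖a i • b i‖ ^ 2 = ∑ j ∈ Φ, ‖a j • b j‖ ^ 2 :=
    Finset.sum_coe_sort Φ (fun j => ‖a j • b j‖ ^ 2)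
  rw [hsum] at hpar
  have hcard : Fintype.card (Φ → Bool) = 2 ^ Fintype.card Φ := by
    rw [Fintype.card_fun, Fintype.card_bool]
  have hpos : (0 : ℝ) < 2 ^ Fintype.card Φ := by positivity
  constructor
  · have h3 : ∑ ε : Φ → Bool, ‖∑ i : Φ, sg 𝕜 (ε i) • (a i • b i)‖ ^ 2 ≤
        ∑ _ε : Φ → Bool, K ^ 2 * ‖v‖ ^ 2 := by
      apply Finset.sum_le_sum
      intro ε _
      rw [← mul_pow]
      exact pow_le_pow_left₀ (norm_nonneg _) (h1 ε) 2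
    rw [hpar, Finset.sum_const, Finset.card_univ, hcard, nsmul_eq_mul] at h3
    push_cast at h3
    exact le_of_mul_le_mul_left h3 hpos
  · have h3 : ∑ _ε : Φ → Bool, ‖v‖ ^ 2 ≤
        ∑ ε : Φ → Bool, K ^ 2 * ‖∑ i : Φ, sg 𝕜 (ε i) • (a i • b i)‖ ^ 2 := by
      apply Finset.sum_le_sum
      intro ε _
      rw [← mul_pow]
      exact pow_le_pow_left₀ (norm_nonneg _) (h2 ε) 2
    rw [← Finset.mul_sum, hpar, Finset.sum_const, Finset.card_univ, hcard, nsmul_eq_mul] at h3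
    push_cast at h3
    have h4 : (2 : ℝ) ^ Fintype.card Φ * ‖v‖ ^ 2 ≤
        2 ^ Fintype.card Φ * (K ^ 2 * ∑ j ∈ Φ, ‖a j • b j‖ ^ 2) := by
      linarith [h3]
    exact le_of_mul_le_mul_left h4 hpos

theorem hilbert_summable_iff {E : Type*} [NormedAddCommGroup E] [InnerProductSpace 𝕜 E]
    [CompleteSpace E] {J : Type} {x : J → E} (hx : IsUncBasis 𝕜 x) (hs : SemiNormalized x)
    (a : J → 𝕜) : (Summable fun j => a j • x j) ↔ (Summable fun j => ‖a j‖ ^ 2) := by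
  obtain ⟨b, hb⟩ := exists_schauder hx
  obtain ⟨K, hK1, hK⟩ := ulb_est b
  obtain ⟨c, C, hc, hcC⟩ := hs
  have hKpos : 0 < K := lt_of_lt_of_le zero_lt_one hK1
  simp only [hb] at hK
  by_cases hJ : Nonempty J
  swap
  · haveI : IsEmpty J := not_nonempty_iff.1 hJ
    exact ⟨fun _ => summable_empty, fun _ => summable_empty⟩
  obtain ⟨j₀⟩ := hJ
  have hC : 0 < C := lt_of_lt_of_le hc (le_trans (hcC j₀).1 (hcC j₀).2)
  have hlo : ∀ Φ : Finset J, c ^ 2 * ∑ j ∈ Φ, ‖a j‖ ^ 2 ≤ ∑ j ∈ Φ, ‖a j • x j‖ ^ 2 := by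
    intro Φ
    rw [Finset.mul_sum]
    apply Finset.sum_le_sum
    intro j _
    rw [norm_smul, mul_pow, mul_comm]
    exact mul_le_mul_of_nonneg_left (pow_le_pow_left₀ hc.le (hcC j).1 2) (sq_nonneg _)
  have hup : ∀ Φ : Finset J, ∑ j ∈ Φ, ‖a j • x j‖ ^ 2 ≤ C ^ 2 * ∑ j ∈ Φ, ‖a j‖ ^ 2 := by
    intro Φ
    rw [Finset.mul_sum]
    apply Finset.sum_le_sum
    intro j _
    rw [norm_smul, mul_pow, mul_comm (C ^ 2)]
    exact mul_le_mul_of_nonneg_left (pow_le_pow_left₀ (norm_nonneg _) (hcC j).2 2) (sq_nonneg _)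
  rw [summable_iff_vanishing_norm, summable_iff_vanishing_norm]
  constructor
  · intro h ε hε
    obtain ⟨s, hs⟩ := h (c / K * √ε) (by positivity)
    refine ⟨s, fun t ht => ?_⟩
    have h1 := hs t ht
    rw [Real.norm_of_nonneg (Finset.sum_nonneg fun i _ => sq_nonneg _)]
    have h2 := (hK t a).1
    have h3 : ‖∑ i ∈ t, a i • x i‖ ^ 2 < (c / K * √ε) ^ 2 :=
      pow_lt_pow_left₀ h1 (norm_nonneg _) two_ne_zero
    have h4 : (c / K * √ε) ^ 2 = c ^ 2 / K ^ 2 * ε := by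
      rw [mul_pow, Real.sq_sqrt hε.le, div_pow]
    rw [h4] at h3
    have h5 : c ^ 2 * ∑ j ∈ t, ‖a j‖ ^ 2 < c ^ 2 * ε := by
      calc c ^ 2 * ∑ j ∈ t, ‖a j‖ ^ 2 ≤ K ^ 2 * ‖∑ i ∈ t, a i • x i‖ ^ 2 := (hlo t).trans h2
        _ < K ^ 2 * (c ^ 2 / K ^ 2 * ε) := mul_lt_mul_of_pos_left h3 (by positivity)
        _ = c ^ 2 * ε := by field_simp
    exact lt_of_mul_lt_mul_left h5 (by positivity)
  · intro h ε hε
    obtain ⟨s, hs⟩ := h (ε ^ 2 / (K ^ 2 * C ^ 2)) (by positivity)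
    refine ⟨s, fun t ht => ?_⟩
    have h1 := hs t ht
    rw [Real.norm_of_nonneg (Finset.sum_nonneg fun i _ => sq_nonneg _)] at h1
    have h2 := (hK t a).2
    have h5 : ‖∑ i ∈ t, a i • x i‖ ^ 2 < ε ^ 2 := by
      calc ‖∑ i ∈ t, a i • x i‖ ^ 2 ≤ K ^ 2 * (C ^ 2 * ∑ j ∈ t, ‖a j‖ ^ 2) :=
            h2.trans (mul_le_mul_of_nonneg_left (hup t) (sq_nonneg _))
        _ < K ^ 2 * (C ^ 2 * (ε ^ 2 / (K ^ 2 * C ^ 2))) := by
            apply mul_lt_mul_of_pos_left _ (by positivity)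
            exact mul_lt_mul_of_pos_left h1 (by positivity)
        _ = ε ^ 2 := by field_simp
    exact lt_of_pow_lt_pow_left₀ 2 hε.le h5

theorem hasUUB_l2 : HasUUB 𝕜 (lp (fun _ : ℕ => 𝕜) 2) := by
  obtain ⟨b, hb, -⟩ := exists_lp_basis (𝕜 := 𝕜) 2 (by norm_num)
  refine hasUUB_of_char (not_finite_of_basis b)
    ⟨fun j => b j, isUncBasis_of_schauder b, 1, 1, one_pos, fun j => ?_⟩
    (fun J a => Summable fun j => ‖a j‖ ^ 2) ?_ ?_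
  · have h : ‖b j‖ = 1 := by
      rw [hb, lp.norm_single (by norm_num), norm_one]
    rw [h]
    exact ⟨le_rfl, le_rfl⟩
  · intro J I π a
    exact π.summable_iff (f := fun i => ‖a i‖ ^ 2)
  · intro J x hx hs a
    exact hilbert_summable_iff hx hs a

end Pool.Agent.UUB
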