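import Pool.Agent.UUB.SGB
import Pool.Agent.UUB.KHB
import Pool.Agent.UUB.BCD
import Pool.Agent.UUB.INV

/-!
# ULC: uniqueness of the unconditional basis of `c_0`

Let `u` be the unit vector basis (`exists_c0_basis`), `F = StrongDual 𝕜 c_0`, and `e i : F → 𝕜` the evaluation
`w ↦ w (u i)` (`NormedSpace.inclusionInDoubleDual` or `ContinuousLinearMap.apply`);
`c0_dual_sum_le`, `c0_dual_exists` are the hypotheses of `avg_lower`, `avg_lower2`, `core`. `K` from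
`sign_bound b`, `c ≤ ‖b j‖ ≤ C`, `ι = Φ` a finite subset of `J`.

PROOF of `c0_bound`. (a) Fix `i` and apply `avg_lower2` to `f j = (b j) i • b.coord j`, i.e. to the functional
`w = u.coord i`, `‖w‖ ≤ 1`, `w (b j) = (b j) i`, with the constant `K` (part (3) of `sign_bound`):
`√(∑_Φ ‖(b j) i‖ ^ 2 ‖b.coord j‖ ^ 2) ≤ 2 K`; `1 = b.coord j (b j) ≤ ‖b.coord j‖ C`, so
`∑_Φ ‖(b j) i‖ ^ 2 ≤ (2 K C) ^ 2` for all `i`.
(b) For any functional `w` apply `core` to `f j = w (b j) • b.coord j`, constant `K ‖w‖` (part (3)),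
`t j i = (b j) i`, `B = 2 K C`: `∑_{i ∈ I} w (b j) * b.coord j (u i) * (b j) i
= w (b j) * b.coord j (∑_{i ∈ I} (b j) i • u i) → w (b j)`. So
`∑_Φ ‖w (b j)‖ ≤ 4 K ^ 2 C ‖w‖`.
(c) Let `w` norm `v = ∑_Φ a j • b j` (`exists_dual_vector''`): `‖v‖ = w v ≤ ∑_Φ ‖a j‖ ‖w (b j)‖
≤ A * 4 K ^ 2 C`.
`hasUUB_c0`: `hasUUB_of_char` with `Q J a = Tendsto a cofinite (𝓝 0)`. If `∑ a j • x j` is summable its terms
tend to `0` along `cofinite` and `c ‖a j‖ ≤ ‖a j • x j‖`. Conversely, `c0_bound` and the Cauchy criterion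
(`summable_iff_vanishing_norm`): off a finite set `‖a j‖ ≤ η`. Existence etc. as in module ULB; for the
invariance use `Equiv` and `cofinite` (`Filter.Tendsto.comp`, injective maps tend to `cofinite`).
-/

namespace Pool.Agent.UUB

open Filter Topology Set

variable {𝕜 : Type*} [RCLike 𝕜]

section generic

variable {X : Type*} [NormedAddCommGroup X] [NormedSpace 𝕜 X]

private noncomputable def ulcE (u : ℕ → X) (i : ℕ) : StrongDual 𝕜 (StrongDual 𝕜 X) :=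
  NormedSpace.inclusionInDoubleDual 𝕜 X (u i)

private theorem ulcE_apply (u : ℕ → X) (i : ℕ) (w : StrongDual 𝕜 X) :
    ulcE u i w = w (u i) := rfl

private theorem ulc_lower2 (u : ℕ → X)
    (he : ∀ (I : Finset ℕ) (w : StrongDual 𝕜 X), ∑ i ∈ I, ‖w (u i)‖ ≤ ‖w‖)
    (he' : ∀ (w : StrongDual 𝕜 X) (η : ℝ), 0 < η → ∃ I : Finset ℕ, ‖w‖ - η ≤ ∑ i ∈ I, ‖w (u i)‖)
    {ι : Type*} [Fintype ι] (f : ι → StrongDual 𝕜 X) {C : ℝ}
    (hC : ∀ ε : ι → Bool, ‖∑ j, sg 𝕜 (ε j) • f j‖ ≤ C) :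
    √(∑ j, ‖f j‖ ^ 2) ≤ 2 * C :=
  avg_lower2 (F := StrongDual 𝕜 X) (ulcE u) he he' f hC

private theorem ulc_core (u : ℕ → X)
    (he : ∀ (I : Finset ℕ) (w : StrongDual 𝕜 X), ∑ i ∈ I, ‖w (u i)‖ ≤ ‖w‖)
    {ι : Type*} [Fintype ι] (f : ι → StrongDual 𝕜 X) {C : ℝ}
    (hC : ∀ ε : ι → Bool, ‖∑ j, sg 𝕜 (ε j) • f j‖ ≤ C) (t : ι → ℕ → 𝕜) {B : ℝ} (hB : 0 ≤ B)
    (ht : ∀ i, ∑ j, ‖t j i‖ ^ 2 ≤ B ^ 2) (a : ι → 𝕜)
    (ha : ∀ j, Tendsto (fun I : Finset ℕ => ∑ i ∈ I, f j (u i) * t j i) atTop (𝓝 (a j))) :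
    ∑ j, ‖a j‖ ≤ 2 * B * C :=
  core (F := StrongDual 𝕜 X) (ulcE u) he f hC t hB ht a ha

private theorem ulc_gen [CompleteSpace X] (u : UnconditionalSchauderBasis ℕ 𝕜 X)
    (hu1 : ∀ i, ‖u.coord i‖ ≤ 1)
    (he : ∀ (I : Finset ℕ) (w : StrongDual 𝕜 X), ∑ i ∈ I, ‖w (u i)‖ ≤ ‖w‖)
    (he' : ∀ (w : StrongDual 𝕜 X) (η : ℝ), 0 < η → ∃ I : Finset ℕ, ‖w‖ - η ≤ ∑ i ∈ I, ‖w (u i)‖)
    {J : Type} (b : UnconditionalSchauderBasis J 𝕜 X)
    (hs : SemiNormalized fun j => b j) :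
    ∃ C : ℝ, 0 < C ∧ ∀ (Φ : Finset J) (a : J → 𝕜) (A : ℝ), 0 ≤ A → (∀ j ∈ Φ, ‖a j‖ ≤ A) →
      ‖∑ j ∈ Φ, a j • b j‖ ≤ C * A := by
  classical
  obtain ⟨K, hK1, hK⟩ := sign_bound b
  obtain ⟨c, C, hc, hcC⟩ := hs
  set D : ℝ := max C 1 with hD
  have hD1 : 1 ≤ D := le_max_right _ _
  have hbD : ∀ j, ‖b j‖ ≤ D := fun j => (hcC j).2.trans (le_max_left _ _)
  have hcoord : ∀ j, 1 ≤ ‖b.coord j‖ * D := by
    intro j
    have h := (b.coord j).le_opNorm (b j)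
    have h0 : b.coord j (b j) = 1 := by
      rw [b.ortho]; simp
    rw [h0, norm_one] at h
    exact h.trans (mul_le_mul_of_nonneg_left (hbD j) (norm_nonneg _))
  have hsign : ∀ (Φ : Finset J) (w : StrongDual 𝕜 X) (ε : Φ → Bool),
      ‖∑ j : Φ, sg 𝕜 (ε j) • (w (b j) • b.coord j)‖ ≤ K * ‖w‖ := by
    intro Φ w ε
    let θ : J → 𝕜 := fun j => if h : j ∈ Φ then sg 𝕜 (ε ⟨j, h⟩) else 1
    have hθ : ∀ j, ‖θ j‖ ≤ 1 := by
      intro j
      by_cases h : j ∈ Φ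
      · simp only [θ, dif_pos h]
        unfold sg
        split_ifs <;> simp
      · simp only [θ, dif_neg h]
        simp
    have h3 := (hK Φ θ hθ).2.2 w
    have h4 : ∑ j : Φ, sg 𝕜 (ε j) • (w (b j) • b.coord j) = ∑ j ∈ Φ, (θ j * w (b j)) • b.coord j := by
      rw [← Finset.sum_coe_sort Φ (fun j => (θ j * w (b j)) • b.coord j)]
      refine Finset.sum_congr rfl fun j _ => ?_
      rw [smul_smul]
      have : θ (j : J) = sg 𝕜 (ε j) := by
        simp only [θ, dif_pos j.2]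
      rw [this]
    rw [h4]; exact h3
  -- (a)
  have hA : ∀ (Φ : Finset J) (i : ℕ), ∑ j : Φ, ‖u.coord i (b (j : J))‖ ^ 2 ≤ (2 * K * D) ^ 2 := by
    intro Φ i
    have h := ulc_lower2 (fun i => u i) he he' (fun j : Φ => u.coord i (b j) • b.coord j)
      (C := K * ‖u.coord i‖) (hsign Φ (u.coord i))
    have h5 : 2 * (K * ‖u.coord i‖) ≤ 2 * K := by
      have := hu1 i
      nlinarith
    have h6 : √(∑ j : Φ, ‖u.coord i (b j) • b.coord j‖ ^ 2) ≤ 2 * K := h.trans h5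
    rw [Real.sqrt_le_iff] at h6
    have h7 : ∑ j : Φ, ‖u.coord i (b (j : J))‖ ^ 2 ≤
        ∑ j : Φ, D ^ 2 * ‖u.coord i (b j) • b.coord j‖ ^ 2 := by
      refine Finset.sum_le_sum fun j _ => ?_
      rw [norm_smul, mul_pow, ← mul_assoc, mul_comm (D ^ 2), mul_assoc, ← mul_pow]
      have h8 : 1 ≤ (D * ‖b.coord (j : J)‖) ^ 2 := by
        have := hcoord (j : J)
        rw [mul_comm] at this
        exact one_le_pow₀ this
      nlinarith [sq_nonneg ‖u.coord i (b (j : J))‖]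
    rw [← Finset.mul_sum] at h7
    calc _ ≤ _ := h7
      _ ≤ D ^ 2 * (2 * K) ^ 2 := mul_le_mul_of_nonneg_left h6.2 (sq_nonneg _)
      _ = (2 * K * D) ^ 2 := by ring
  -- (b)
  have hB : ∀ (Φ : Finset J) (w : StrongDual 𝕜 X),
      ∑ j : Φ, ‖w (b j)‖ ≤ 2 * (2 * K * D) * (K * ‖w‖) := by
    intro Φ w
    refine ulc_core (fun i => u i) he (fun j : Φ => w (b j) • b.coord j) (hsign Φ w)
      (fun j i => u.coord i (b (j : J))) (by positivity) (hA Φ) (fun j => w (b j)) ?_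
    intro j
    have hx : HasSum (fun i => u.coord i (b j) • u i) (b (j : J)) := u.expansion (b j)
    have hx2 := (w (b j) • b.coord (j : J)).hasSum hx
    have hx3 : (w (b j) • b.coord (j : J)) (b j) = w (b j) := by
      rw [smul_apply, b.ortho]; simp
    rw [hx3] at hx2
    refine Tendsto.congr (fun I => ?_) hx2
    refine Finset.sum_congr rfl fun i _ => ?_
    simp only [map_smul, smul_eq_mul, smul_apply]
    ring
  refine ⟨2 * (2 * K * D) * K, by positivity, ?_⟩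
  intro Φ a A hA0 ha
  obtain ⟨g, hg1, hg2⟩ := exists_dual_vector'' 𝕜 (∑ j ∈ Φ, a j • b j)
  have h9 : ‖∑ j ∈ Φ, a j • b j‖ = ‖g (∑ j ∈ Φ, a j • b j)‖ := by
    rw [hg2]; simp
  rw [h9, map_sum]
  calc ‖∑ j ∈ Φ, g (a j • b j)‖ ≤ ∑ j ∈ Φ, ‖g (a j • b j)‖ := norm_sum_le _ _
    _ ≤ ∑ j ∈ Φ, A * ‖g (b j)‖ := by
        refine Finset.sum_le_sum fun j hj => ?_
        rw [map_smul, norm_smul]
        exact mul_le_mul_of_nonneg_right (ha j hj) (norm_nonneg _)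
    _ = A * ∑ j : Φ, ‖g (b j)‖ := by
        rw [← Finset.mul_sum, Finset.sum_coe_sort Φ (fun j => ‖g (b j)‖)]
    _ ≤ A * (2 * (2 * K * D) * (K * ‖g‖)) := mul_le_mul_of_nonneg_left (hB Φ g) hA0
    _ ≤ A * (2 * (2 * K * D) * (K * 1)) := by
        refine mul_le_mul_of_nonneg_left ?_ hA0
        refine mul_le_mul_of_nonneg_left ?_ (by positivity)
        exact mul_le_mul_of_nonneg_left hg1 (by positivity)
    _ = 2 * (2 * K * D) * K * A := by ring

end generic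

private theorem ulc_coord_norm (u : UnconditionalSchauderBasis ℕ 𝕜 (ZeroAtInftyContinuousMap ℕ 𝕜))
    (h2 : ∀ k f, u.coord k f = f k) (i : ℕ) : ‖u.coord i‖ ≤ 1 := by
  refine ContinuousLinearMap.opNorm_le_bound _ zero_le_one fun f => ?_
  rw [h2, one_mul]
  exact (c0_norm_le f (norm_nonneg f)).1 le_rfl i

theorem c0_bound {J : Type} (b : UnconditionalSchauderBasis J 𝕜 (ZeroAtInftyContinuousMap ℕ 𝕜))
    (hs : SemiNormalized fun j => b j) :
    ∃ C : ℝ, 0 < C ∧ ∀ (Φ : Finset J) (a : J → 𝕜) (A : ℝ), 0 ≤ A → (∀ j ∈ Φ, ‖a j‖ ≤ A) →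
      ‖∑ j ∈ Φ, a j • b j‖ ≤ C * A := by
  obtain ⟨u, h1, h2⟩ := exists_c0_basis (𝕜 := 𝕜)
  exact ulc_gen u (ulc_coord_norm u h2) (fun I w => c0_dual_sum_le u h1 I w)
    (fun w η hη => c0_dual_exists u h2 w hη) b hs

theorem hasUUB_c0 : HasUUB 𝕜 (ZeroAtInftyContinuousMap ℕ 𝕜) := by
  classical
  obtain ⟨u, h1, h2⟩ := exists_c0_basis (𝕜 := 𝕜)
  have hnorm : ∀ k, ‖u k‖ = 1 := by
    intro k
    apply le_antisymm
    · rw [c0_norm_le _ zero_le_one]
      intro n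
      rw [h1]
      split_ifs <;> simp
    · have h := (c0_norm_le (u k) (norm_nonneg _)).1 le_rfl k
      rw [h1] at h
      simpa using h
  refine hasUUB_of_char (not_finite_of_basis u)
    ⟨fun j => u j, isUncBasis_of_schauder u, 1, 1, zero_lt_one, fun j => ?_⟩
    (fun J a => Tendsto a cofinite (𝓝 0)) ?_ ?_
  · exact ⟨(hnorm j).ge, (hnorm j).le⟩
  · intro J I π a
    constructor
    · intro h
      have h3 := h.comp π.symm.injective.tendsto_cofinite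
      refine h3.congr fun i => ?_
      simp
    · intro h
      exact h.comp π.injective.tendsto_cofinite
  · intro J x hx hs a
    obtain ⟨b, hb⟩ := exists_schauder hx
    have hbs : SemiNormalized fun j => b j := by
      obtain ⟨c, C, hc, h⟩ := hs
      exact ⟨c, C, hc, fun j => by simpa only [hb] using h j⟩
    constructor
    · intro h
      obtain ⟨c, C, hc, hcC⟩ := hs
      have h3 := h.tendsto_cofinite_zero
      have h4 : Tendsto (fun j => c⁻¹ * ‖a j • x j‖) cofinite (𝓝 0) := by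
        have := (tendsto_norm_zero.comp h3).const_mul c⁻¹
        simpa using this
      refine squeeze_zero_norm (fun j => ?_) h4
      rw [norm_smul]
      have h5 := (hcC j).1
      rw [inv_mul_eq_div, le_div_iff₀ hc]
      exact mul_le_mul_of_nonneg_left h5 (norm_nonneg _)
    · intro h
      obtain ⟨C, hC, hbd⟩ := c0_bound b hbs
      rw [summable_iff_vanishing_norm]
      intro ε hε
      have hη : 0 < ε / (2 * C) := by positivity
      have h3 : ∀ᶠ j in cofinite, ‖a j‖ < ε / (2 * C) := by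
        have := (tendsto_norm_zero.comp h).eventually (gt_mem_nhds hη)
        exact this
      rw [Filter.eventually_cofinite] at h3
      refine ⟨h3.toFinset, fun t ht => ?_⟩
      have h4 : ∀ j ∈ t, ‖a j‖ ≤ ε / (2 * C) := by
        intro j hj
        by_contra hcon
        have h5 : j ∈ h3.toFinset := by
          rw [Set.Finite.mem_toFinset]
          exact fun hlt => hcon hlt.le
        exact (Finset.disjoint_left.1 ht) hj h5
      have h6 := hbd t a _ hη.le h4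
      simp only [hb] at h6
      calc _ ≤ _ := h6
        _ = ε / 2 := by field_simp
        _ < ε := by linarith

end Pool.Agent.UUB
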