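import Pool.Agent.UUB.TBB
import Pool.Agent.UUB.ULA
import Pool.Agent.UUB.ULB
import Pool.Agent.UUB.ULC
import Pool.Agent.UUB.BPB
import Pool.Agent.UUB.BCB

/-!
# FIN: assembly
-/

namespace Pool.Agent.UUB

open Filter Topology Set

variable {𝕜 : Type*} [RCLike 𝕜] {X : Type*} [NormedAddCommGroup X] [NormedSpace 𝕜 X]
  [CompleteSpace X] {Y : Type*} [NormedAddCommGroup Y] [NormedSpace 𝕜 Y] [CompleteSpace Y]

theorem sum_l1 (hX : HasUUB 𝕜 X) : HasUUB 𝕜 (X × lp (fun _ : ℕ => 𝕜) 1) := by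
  obtain ⟨b, h1, h2⟩ := exists_lp_basis (𝕜 := 𝕜) 1 ENNReal.one_ne_top
  exact theoremB_of b (lp_block 1 ENNReal.one_ne_top b h1 h2) hX hasUUB_l1

theorem sum_l2 (hX : HasUUB 𝕜 X) : HasUUB 𝕜 (X × lp (fun _ : ℕ => 𝕜) 2) := by
  obtain ⟨b, h1, h2⟩ := exists_lp_basis (𝕜 := 𝕜) 2 ENNReal.ofNat_ne_top
  exact theoremB_of b (lp_block 2 ENNReal.ofNat_ne_top b h1 h2) hX hasUUB_l2

theorem sum_c0 (hX : HasUUB 𝕜 X) : HasUUB 𝕜 (X × ZeroAtInftyContinuousMap ℕ 𝕜) := by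
  obtain ⟨b, h1, h2⟩ := exists_c0_basis (𝕜 := 𝕜)
  exact theoremB_of b (c0_block b h1 h2) hX hasUUB_c0

end Pool.Agent.UUB
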