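import Pool.Agent.UUB.ALG

/-!
# ISO: the two isomorphisms

Notation `p = P - π`, `E = Eop P Qd H π`, `Γ = Gop P Qd H π`; all rules are in ALG.

PROOF of `iso1`. (a) `ker E = {w | p H P w = 0}`: `E w = Qd p H P w` and `H P E w = p H P w`
(by `key`). Isomorphism `ker E ≃ ker P × range π`, `w ↦ ((1 - P) w, H P w)`: `H P w = P H P w =
p H P w + π H P w = π H P w` lies in `range π`. Inverse `(x, z) ↦ x + (1 - T) z`: it lies in `ker E` as
`p H P (x + (1 - T) z) = p H (1 - T) P z = p P z = p z = p π z = 0` (`P x = 0`, `z = π z`,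
`P (1 - T) = (1 - T) P`, `p π = 0`). Compositions: `(1 - P) w + (1 - T) H P w = w`;
`(1 - P) (x + (1 - T) z) = x + (1 - P) z - (1 - P) T z = x`, and `H P (x + (1 - T) z) = H (1 - T) P z
= P z = z`.
(b) `ker E ≃ ker Qd × range Γ`, `w ↦ ((1 - Qd) w, Γ w)`, inverse `(a, g) ↦ (1 - E) a + g`: it lies in
`ker E` (`E E = E`, `E Γ = 0`, `g = Γ g`). Compositions: `(1 - E) (1 - Qd) w + (1 - E) Qd w =
(1 - E) w = w`; `(1 - Qd) ((1 - E) a + g) = a` as `Qd a = 0`, `Qd E = E`, `Qd g = g`;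
`Γ ((1 - E) a + g) = Γ a - Γ E a + g = g` as `Γ a = Γ Qd a = 0`, `Γ E = 0`.

PROOF of `iso2`. `range Qd ≃ range E × range Γ`, `w ↦ (E w, Γ w)`, inverse `(e, g) ↦ e + g`
(`w = Qd w = E Qd w + (1 - E) Qd w`). `range p ≃ range E`, `x ↦ Qd x` (`E Qd x = Qd p (H P Qd p x) =
Qd p x = Qd x` for `x = p x`), inverse `e ↦ p H P e` (`Qd p H P e = E e = e`; `p H P Qd x = p x = x`).
`range P ≃ range p × range π`, `w ↦ (p w, π w)`, inverse `(x, z) ↦ x + z`. Hence
`range P × range Γ ≃ range p × range π × range Γ ≃ range E × range Γ × range π ≃ range Qd × range π`.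

To build a continuous linear equivalence use `ContinuousLinearEquiv.equivOfInverse` with
`ContinuousLinearMap.codRestrict` of the restrictions to the subspaces. The helper `mkIso` below
reduces everything to identities between vectors of `W`.
-/

namespace Pool.Agent.UUB

open Filter Topology Set

variable {𝕜 : Type*} [RCLike 𝕜] {W : Type*} [NormedAddCommGroup W] [NormedSpace 𝕜 W]

/-- Two subspaces `U` and `U₁ × U₂` are isomorphic if there are operators `f₁ f₂ g₁ g₂` of `W` with the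
evident properties. -/
theorem mkIso (U U₁ U₂ : Submodule 𝕜 W) (f₁ f₂ g₁ g₂ : W →L[𝕜] W) (h1 : ∀ w ∈ U, f₁ w ∈ U₁)
    (h2 : ∀ w ∈ U, f₂ w ∈ U₂) (h3 : ∀ x ∈ U₁, ∀ y ∈ U₂, g₁ x + g₂ y ∈ U)
    (h4 : ∀ w ∈ U, g₁ (f₁ w) + g₂ (f₂ w) = w) (h5 : ∀ x ∈ U₁, ∀ y ∈ U₂, f₁ (g₁ x + g₂ y) = x)
    (h6 : ∀ x ∈ U₁, ∀ y ∈ U₂, f₂ (g₁ x + g₂ y) = y) :
    Nonempty (U ≃L[𝕜] (U₁ × U₂)) := by
  refine ⟨ContinuousLinearEquiv.equivOfInverse
    (((f₁.comp U.subtypeL).codRestrict U₁ (fun w => h1 w w.2)).prod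
      ((f₂.comp U.subtypeL).codRestrict U₂ (fun w => h2 w w.2)))
    (((g₁.comp U₁.subtypeL).comp (ContinuousLinearMap.fst 𝕜 U₁ U₂) +
      (g₂.comp U₂.subtypeL).comp (ContinuousLinearMap.snd 𝕜 U₁ U₂)).codRestrict U
        (fun v => h3 v.1 v.1.2 v.2 v.2.2)) (fun w => ?_) (fun v => ?_)⟩
  · exact Subtype.ext (h4 w w.2)
  · exact Prod.ext (Subtype.ext (h5 v.1 v.1.2 v.2 v.2.2)) (Subtype.ext (h6 v.1 v.1.2 v.2 v.2.2))

namespace Frame

variable {P Qd T H π : W →L[𝕜] W} (F : Frame P Qd T H π)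

private theorem iso_ap {A B : W →L[𝕜] W} (h : A = B) (w : W) : A w = B w := by rw [h]

include F

private theorem iso_P (w : W) : P (P w) = P w := iso_ap F.hP w

private theorem iso_Q (w : W) : Qd (Qd w) = Qd w := iso_ap F.hQ w

private theorem iso_π (w : W) : π (π w) = π w := iso_ap F.hπ w

private theorem iso_Pπ (w : W) : P (π w) = π w := iso_ap F.Pπ w

private theorem iso_πP (w : W) : π (P w) = π w := iso_ap F.πP w

private theorem iso_PT (w : W) : P (T w) = T w := iso_ap F.PT w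

private theorem iso_TP (w : W) : T (P w) = T w := iso_ap F.TP w

private theorem iso_HT (w : W) : H (w - T w) = w := iso_ap F.HT w

private theorem iso_TH (w : W) : H w - T (H w) = w := iso_ap F.TH w

private theorem iso_HP (w : W) : H (P w) = P (H w) := iso_ap F.HP w

private theorem iso_key (w : W) : H (P (Qd (P w - π w))) = P w - π w := iso_ap F.key w

private theorem iso_E_def (w : W) : Eop P Qd H π w = Qd (P (H (P w)) - π (H (P w))) := rfl

private theorem iso_G_def (w : W) : Gop P Qd H π w = Qd w - Eop P Qd H π (Qd w) := rfl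

private theorem iso_EE (w : W) : Eop P Qd H π (Eop P Qd H π w) = Eop P Qd H π w := iso_ap F.E_idem w

private theorem iso_QE (w : W) : Qd (Eop P Qd H π w) = Eop P Qd H π w := iso_ap F.Q_E w

private theorem iso_GG (w : W) : Gop P Qd H π (Gop P Qd H π w) = Gop P Qd H π w := iso_ap F.G_idem w

private theorem iso_QG (w : W) : Qd (Gop P Qd H π w) = Gop P Qd H π w := iso_ap F.Q_G w

private theorem iso_GQ (w : W) : Gop P Qd H π (Qd w) = Gop P Qd H π w := iso_ap F.G_Q w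

private theorem iso_EG (w : W) : Eop P Qd H π (Gop P Qd H π w) = 0 := iso_ap F.E_G w

private theorem iso_GE (w : W) : Gop P Qd H π (Eop P Qd H π w) = 0 := iso_ap F.G_E w

private theorem iso_HPE (w : W) : H (P (Eop P Qd H π w)) = P (H (P w)) - π (H (P w)) :=
  F.iso_key (H (P w))

private theorem iso_a : Nonempty (Kr (Eop P Qd H π) ≃L[𝕜] (Kr P × Rg π)) := by
  have hz : ∀ z ∈ Rg π, π z = z := by
    rintro _ ⟨z, rfl⟩
    exact F.iso_π z
  have hPz : ∀ z ∈ Rg π, P z = z := by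
    rintro _ ⟨z, rfl⟩
    exact F.iso_Pπ z
  have hx : ∀ x ∈ Kr P, P x = 0 := fun x hx => hx
  have hT : ∀ z, P z = z → P (z - T z) = z - T z := fun z h => by
    rw [map_sub, F.iso_PT, h]
  have hH : ∀ x ∈ Kr P, ∀ z ∈ Rg π, H (P (x + (z - T z))) = z := fun x hx' z hz' => by
    rw [map_add, hx x hx', zero_add, hT z (hPz z hz'), F.iso_HT]
  refine mkIso (Kr (Eop P Qd H π)) (Kr P) (Rg π) (1 - P) (H * P) 1 (1 - T) (fun w _ => ?_)
    (fun w hw => ?_) (fun x hx' z hz' => ?_) (fun w _ => ?_) (fun x hx' z hz' => ?_) (fun x hx' z hz' => ?_)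
  · show P (w - P w) = 0
    rw [map_sub, F.iso_P, sub_self]
  · refine ⟨H (P w), ?_⟩
    show π (H (P w)) = H (P w)
    have h1 : P (H (P w)) - π (H (P w)) = 0 := by
      rw [← F.iso_HPE]
      have hw' : Eop P Qd H π w = 0 := hw
      rw [hw', map_zero, map_zero]
    have h2 : P (H (P w)) = H (P w) := by
      rw [← F.iso_HP, F.iso_P]
    rw [h2] at h1
    exact (sub_eq_zero.1 h1).symm
  · show Eop P Qd H π (x + (z - T z)) = 0
    rw [F.iso_E_def, hH x hx' z hz', hPz z hz', hz z hz', sub_self, map_zero]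
  · show (w - P w) + (H (P w) - T (H (P w))) = w
    rw [F.iso_TH]
    abel
  · show (x + (z - T z)) - P (x + (z - T z)) = x
    rw [map_add, hx x hx', hT z (hPz z hz')]
    abel
  · exact hH x hx' z hz'

private theorem iso_b : Nonempty (Kr (Eop P Qd H π) ≃L[𝕜] (Kr Qd × Rg (Gop P Qd H π))) := by
  refine mkIso (Kr (Eop P Qd H π)) (Kr Qd) (Rg (Gop P Qd H π)) (1 - Qd) (Gop P Qd H π) (1 - Eop P Qd H π) 1
    (fun w _ => ?_) (fun w _ => ⟨w, rfl⟩) (fun a ha g hg => ?_) (fun w hw => ?_) (fun a ha g hg => ?_)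
    (fun a ha g hg => ?_)
  · show Qd (w - Qd w) = 0
    rw [map_sub, F.iso_Q, sub_self]
  · obtain ⟨g, rfl⟩ := hg
    show Eop P Qd H π ((a - Eop P Qd H π a) + Gop P Qd H π g) = 0
    rw [map_add, map_sub, F.iso_EE, F.iso_EG, sub_self, add_zero]
  · have hw' : Eop P Qd H π w = 0 := hw
    show ((w - Qd w) - Eop P Qd H π (w - Qd w)) + Gop P Qd H π w = w
    rw [F.iso_G_def, map_sub, hw']
    abel
  · obtain ⟨g, rfl⟩ := hg
    have ha' : Qd a = 0 := ha
    show ((a - Eop P Qd H π a) + Gop P Qd H π g) - Qd ((a - Eop P Qd H π a) + Gop P Qd H π g) = a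
    rw [map_add, map_sub, F.iso_QE, F.iso_QG, ha']
    abel
  · obtain ⟨g, rfl⟩ := hg
    have ha' : Qd a = 0 := ha
    show Gop P Qd H π ((a - Eop P Qd H π a) + Gop P Qd H π g) = Gop P Qd H π g
    rw [map_add, map_sub, F.iso_GE, F.iso_GG, ← F.iso_GQ a, ha', map_zero]
    abel

private theorem iso_c : Nonempty (Rg Qd ≃L[𝕜] (Rg (Eop P Qd H π) × Rg (Gop P Qd H π))) := by
  refine mkIso (Rg Qd) (Rg (Eop P Qd H π)) (Rg (Gop P Qd H π)) (Eop P Qd H π) (Gop P Qd H π) 1 1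
    (fun w _ => ⟨w, rfl⟩) (fun w _ => ⟨w, rfl⟩) (fun e he g hg => ?_) (fun w hw => ?_) (fun e he g hg => ?_)
    (fun e he g hg => ?_)
  · obtain ⟨e, rfl⟩ := he
    obtain ⟨g, rfl⟩ := hg
    refine ⟨Eop P Qd H π e + Gop P Qd H π g, ?_⟩
    show Qd (Eop P Qd H π e + Gop P Qd H π g) = Eop P Qd H π e + Gop P Qd H π g
    rw [map_add, F.iso_QE, F.iso_QG]
  · obtain ⟨w, rfl⟩ := hw
    show Eop P Qd H π (Qd w) + Gop P Qd H π (Qd w) = Qd w
    rw [F.iso_G_def, F.iso_Q]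
    abel
  · obtain ⟨e, rfl⟩ := he
    obtain ⟨g, rfl⟩ := hg
    show Eop P Qd H π (Eop P Qd H π e + Gop P Qd H π g) = Eop P Qd H π e
    rw [map_add, F.iso_EE, F.iso_EG, add_zero]
  · obtain ⟨e, rfl⟩ := he
    obtain ⟨g, rfl⟩ := hg
    show Gop P Qd H π (Eop P Qd H π e + Gop P Qd H π g) = Gop P Qd H π g
    rw [map_add, F.iso_GE, F.iso_GG, zero_add]

private theorem iso_d : Nonempty (Rg P ≃L[𝕜] (Rg (Eop P Qd H π) × Rg π)) := by
  have pp : ∀ w, P (P w - π w) - π (P w - π w) = P w - π w := fun w => by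
    rw [map_sub, map_sub, F.iso_P, F.iso_Pπ, F.iso_πP, F.iso_π, sub_self, sub_zero]
  have Pp : ∀ w, P (P w - π w) = P w - π w := fun w => by
    rw [map_sub, F.iso_P, F.iso_Pπ]
  have πp : ∀ w, π (P w - π w) = 0 := fun w => by
    rw [map_sub, F.iso_πP, F.iso_π, sub_self]
  have E2 : ∀ w, Eop P Qd H π (Qd (P w - π w)) = Qd (P w - π w) := fun w => by
    rw [F.iso_E_def, F.iso_key, pp]
  refine mkIso (Rg P) (Rg (Eop P Qd H π)) (Rg π) (Qd * (P - π)) π ((P - π) * H * P) 1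
    (fun w _ => ⟨Qd (P w - π w), E2 w⟩) (fun w _ => ⟨w, rfl⟩) (fun e he z hz => ?_) (fun w hw => ?_)
    (fun e he z hz => ?_) (fun e he z hz => ?_)
  · obtain ⟨z, rfl⟩ := hz
    refine ⟨(P (H (P e)) - π (H (P e))) + π z, ?_⟩
    show P ((P (H (P e)) - π (H (P e))) + π z) = (P (H (P e)) - π (H (P e))) + π z
    rw [map_add, Pp, F.iso_Pπ]
  · obtain ⟨w, rfl⟩ := hw
    show (P (H (P (Qd (P (P w) - π (P w))))) - π (H (P (Qd (P (P w) - π (P w)))))) + π (P w) = P w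
    rw [F.iso_key, pp, F.iso_P]
    abel
  · obtain ⟨e, rfl⟩ := he
    obtain ⟨z, rfl⟩ := hz
    have h1 : ∀ x, P (P (H (P x)) - π (H (P x)) + π z) - π (P (H (P x)) - π (H (P x)) + π z) =
        P (H (P x)) - π (H (P x)) := fun x => by
      rw [map_add, map_add, Pp, πp, F.iso_Pπ, F.iso_π]
      abel
    show Qd (P ((P (H (P (Eop P Qd H π e))) - π (H (P (Eop P Qd H π e)))) + π z) -
      π ((P (H (P (Eop P Qd H π e))) - π (H (P (Eop P Qd H π e)))) + π z)) = Eop P Qd H π e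
    rw [h1, ← F.iso_E_def, F.iso_EE]
  · obtain ⟨z, rfl⟩ := hz
    show π ((P (H (P e)) - π (H (P e))) + π z) = π z
    rw [map_add, πp, F.iso_π, zero_add]

theorem iso1 : Nonempty ((Kr P × Rg π) ≃L[𝕜] (Kr Qd × Rg (Gop P Qd H π))) := by
  obtain ⟨a⟩ := F.iso_a
  obtain ⟨b⟩ := F.iso_b
  exact ⟨a.symm.trans b⟩

theorem iso2 : Nonempty ((Rg P × Rg (Gop P Qd H π)) ≃L[𝕜] (Rg Qd × Rg π)) := by
  obtain ⟨c⟩ := F.iso_c
  obtain ⟨d⟩ := F.iso_d
  have e1 := d.prodCongr (ContinuousLinearEquiv.refl 𝕜 (Rg (Gop P Qd H π)))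
  have e2 := c.prodCongr (ContinuousLinearEquiv.refl 𝕜 (Rg π))
  have e3 : (((Rg (Eop P Qd H π)) × (Rg π)) × (Rg (Gop P Qd H π))) ≃L[𝕜]
      (((Rg (Eop P Qd H π)) × (Rg (Gop P Qd H π))) × (Rg π)) :=
    ((ContinuousLinearEquiv.prodAssoc 𝕜 _ _ _).trans
      ((ContinuousLinearEquiv.refl 𝕜 _).prodCongr (ContinuousLinearEquiv.prodComm 𝕜 _ _))).trans
        (ContinuousLinearEquiv.prodAssoc 𝕜 _ _ _).symm
  exact ⟨(e1.trans e3).trans e2.symm⟩

end Frame

end Pool.Agent.UUB
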