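import Pool.Agent.UUB.Defs

/-!
# MU1: existence of the diagonal operators

PROOF. Let `C₀ ≥ 1` bound `‖b.proj A‖` for all finite `A` (`b.exists_norm_proj_le`). For a finite set `A`,
a vector `w`, and `c` with `‖c j‖ ≤ C` on `J`:  `‖∑ j ∈ A, (c j * b.coord j w) • b j‖ ≤ 4 C C₀ ‖w‖`.
Indeed let `φ` be a functional of norm `≤ 1` norming the sum (`exists_dual_vector`), and
`z j = φ (b.coord j w • b j)`. The sum is mapped to `∑ c j z j`, of modulus `≤ C ∑_A ‖z j‖
≤ C ∑_A (|re z j| + |im z j|)`, and each of the four sums over the indices where `re z j ≥ 0`, `re z j < 0`,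
`im z j ≥ 0`, `im z j < 0` is the real or imaginary part of `± φ (b.proj A' w)` for a subset `A' ⊆ A`,
so it is at most `C₀ ‖w‖`.
The same estimate applied to the finite sets disjoint from a large finite set `A₀` (replace `w` by
`w - b.proj A₀ w`, which has the same coordinates off `A₀` and zero coordinates on `A₀`; it tends to `0`)
shows that the family `(c j * b.coord j w) • b j` satisfies the Cauchy criterion
(`summable_iff_vanishing_norm`), so it is summable (`W` complete). Define `D w` as its sum; linear,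
`‖D w‖ ≤ 4 C C₀ ‖w‖` (`LinearMap.mkContinuous`), and `b.coord j (D w) = c j * b.coord j w` by continuity
of `b.coord j` and `b.ortho`. Take `K = 4 C₀`.
-/

namespace Pool.Agent.UUB

open Filter Topology Set

variable {𝕜 : Type*} [RCLike 𝕜] {W : Type*} [NormedAddCommGroup W] [NormedSpace 𝕜 W]
  [CompleteSpace W] {J : Type}

private theorem mu1_real (A : Finset J) (r : J → ℝ) (M : ℝ)
    (h : ∀ A' ⊆ A, |∑ j ∈ A', r j| ≤ M) : ∑ j ∈ A, |r j| ≤ 2 * M := by
  classical
  have h1 : ∑ j ∈ A, |r j| = ∑ j ∈ A.filter (fun j => 0 ≤ r j), |r j| +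
      ∑ j ∈ A.filter (fun j => ¬ 0 ≤ r j), |r j| :=
    (Finset.sum_filter_add_sum_filter_not A _ _).symm
  have h2 : ∑ j ∈ A.filter (fun j => 0 ≤ r j), |r j| = ∑ j ∈ A.filter (fun j => 0 ≤ r j), r j :=
    Finset.sum_congr rfl fun j hj => abs_of_nonneg (Finset.mem_filter.mp hj).2
  have h3 : ∑ j ∈ A.filter (fun j => ¬ 0 ≤ r j), |r j| =
      -∑ j ∈ A.filter (fun j => ¬ 0 ≤ r j), r j := by
    rw [← Finset.sum_neg_distrib]
    exact Finset.sum_congr rfl fun j hj => abs_of_neg (not_le.mp (Finset.mem_filter.mp hj).2)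
  have h4 := h _ (Finset.filter_subset (fun j => 0 ≤ r j) A)
  have h5 := h _ (Finset.filter_subset (fun j => ¬ 0 ≤ r j) A)
  rw [h1, h2, h3]
  have h6 := (abs_le.mp h4).2
  have h7 := (abs_le.mp h5).1
  linarith

private theorem mu1_scalar (A : Finset J) (z c : J → 𝕜) (C M : ℝ) (hC : 0 ≤ C)
    (hc : ∀ j, ‖c j‖ ≤ C) (h : ∀ A' ⊆ A, ‖∑ j ∈ A', z j‖ ≤ M) :
    ‖∑ j ∈ A, c j * z j‖ ≤ 4 * C * M := by
  have hre : ∑ j ∈ A, |RCLike.re (z j)| ≤ 2 * M := by
    apply mu1_real
    intro A' hA'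
    rw [← map_sum]
    exact (RCLike.abs_re_le_norm _).trans (h A' hA')
  have him : ∑ j ∈ A, |RCLike.im (z j)| ≤ 2 * M := by
    apply mu1_real
    intro A' hA'
    rw [← map_sum]
    exact (RCLike.abs_im_le_norm _).trans (h A' hA')
  have hz : ∑ j ∈ A, ‖z j‖ ≤ 4 * M := by
    calc ∑ j ∈ A, ‖z j‖ ≤ ∑ j ∈ A, (|RCLike.re (z j)| + |RCLike.im (z j)|) := by
          apply Finset.sum_le_sum
          intro j _
          calc ‖z j‖ = ‖(RCLike.re (z j) : 𝕜) + (RCLike.im (z j) : 𝕜) * RCLike.I‖ := by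
                rw [RCLike.re_add_im]
            _ ≤ ‖(RCLike.re (z j) : 𝕜)‖ + ‖(RCLike.im (z j) : 𝕜) * RCLike.I‖ := norm_add_le _ _
            _ ≤ |RCLike.re (z j)| + |RCLike.im (z j)| := by
                rw [RCLike.norm_ofReal, norm_mul, RCLike.norm_ofReal]
                have hI : ‖(RCLike.I : 𝕜)‖ ≤ 1 := by
                  rw [RCLike.norm_I]
                  split_ifs <;> norm_num
                have := mul_le_mul_of_nonneg_left hI (abs_nonneg (RCLike.im (z j)))
                linarith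
      _ = ∑ j ∈ A, |RCLike.re (z j)| + ∑ j ∈ A, |RCLike.im (z j)| := Finset.sum_add_distrib
      _ ≤ 4 * M := by linarith
  calc ‖∑ j ∈ A, c j * z j‖ ≤ ∑ j ∈ A, ‖c j * z j‖ := norm_sum_le _ _
    _ ≤ ∑ j ∈ A, C * ‖z j‖ := by
        apply Finset.sum_le_sum
        intro j _
        rw [norm_mul]
        exact mul_le_mul_of_nonneg_right (hc j) (norm_nonneg _)
    _ = C * ∑ j ∈ A, ‖z j‖ := by rw [Finset.mul_sum]
    _ ≤ C * (4 * M) := mul_le_mul_of_nonneg_left hz hC
    _ = 4 * C * M := by ring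

omit [CompleteSpace W] in
private theorem mu1_fin (b : UnconditionalSchauderBasis J 𝕜 W) (c : J → 𝕜) (C : ℝ) (hC : 0 ≤ C)
    (hc : ∀ j, ‖c j‖ ≤ C) (w : W) (A : Finset J) (M : ℝ)
    (h : ∀ A' ⊆ A, ‖∑ j ∈ A', b.coord j w • b j‖ ≤ M) :
    ‖∑ j ∈ A, (c j * b.coord j w) • b j‖ ≤ 4 * C * M := by
  obtain ⟨g, hg1, hg2⟩ := exists_dual_vector'' 𝕜 (∑ j ∈ A, (c j * b.coord j w) • b j)
  have h1 : ‖∑ j ∈ A, (c j * b.coord j w) • b j‖ =
      ‖∑ j ∈ A, c j * g (b.coord j w • b j)‖ := by
    have h2 : g (∑ j ∈ A, (c j * b.coord j w) • b j) = ∑ j ∈ A, c j * g (b.coord j w • b j) := by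
      rw [map_sum]
      apply Finset.sum_congr rfl
      intro j _
      rw [mul_smul, map_smul, smul_eq_mul]
    rw [← h2, hg2, RCLike.norm_ofReal, abs_of_nonneg (norm_nonneg _)]
  rw [h1]
  apply mu1_scalar A _ c C M hC hc
  intro A' hA'
  rw [← map_sum]
  calc ‖g (∑ j ∈ A', b.coord j w • b j)‖ ≤ ‖g‖ * ‖∑ j ∈ A', b.coord j w • b j‖ :=
        g.le_opNorm _
    _ ≤ 1 * M := mul_le_mul hg1 (h A' hA') (norm_nonneg _) zero_le_one
    _ = M := one_mul M

private theorem mu1_summable (b : UnconditionalSchauderBasis J 𝕜 W) (c : J → 𝕜) (C : ℝ)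
    (hC : 0 ≤ C) (hc : ∀ j, ‖c j‖ ≤ C) (w : W) :
    Summable (fun j => (c j * b.coord j w) • b j) := by
  rw [summable_iff_vanishing_norm]
  intro ε hε
  have hpos : 0 < ε / (4 * C + 1) := by positivity
  obtain ⟨A₀, hA₀⟩ := summable_iff_vanishing_norm.mp (b.expansion w).summable _ hpos
  refine ⟨A₀, fun A hA => ?_⟩
  have h1 := mu1_fin b c C hC hc w A (ε / (4 * C + 1)) (fun A' hA' =>
    (hA₀ A' (Finset.disjoint_of_subset_left hA' hA)).le)
  refine h1.trans_lt ?_
  rw [mul_div_assoc', div_lt_iff₀ (by positivity)]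
  nlinarith

theorem exists_mul_bound (b : UnconditionalSchauderBasis J 𝕜 W) :
    ∃ K : ℝ, 1 ≤ K ∧ ∀ (c : J → 𝕜) (C : ℝ), 0 ≤ C → (∀ j, ‖c j‖ ≤ C) →
      ∃ D : W →L[𝕜] W, ‖D‖ ≤ K * C ∧ (∀ w j, b.coord j (D w) = c j * b.coord j w) ∧
        ∀ w, HasSum (fun j => (c j * b.coord j w) • b j) (D w) := by
  obtain ⟨C₀, hC₀⟩ := b.exists_norm_proj_le
  refine ⟨4 * max C₀ 1, ?_, ?_⟩
  · have := le_max_right C₀ 1
    linarith
  intro c C hC hc
  have hsum := mu1_summable b c C hC hc
  let L : W →ₗ[𝕜] W :=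
    { toFun := fun w => ∑' j, (c j * b.coord j w) • b j
      map_add' := by
        intro v w
        rw [← (hsum v).tsum_add (hsum w)]
        apply tsum_congr
        intro j
        rw [map_add, mul_add, add_smul]
      map_smul' := by
        intro r w
        rw [RingHom.id_apply, ← (hsum w).tsum_const_smul r]
        apply tsum_congr
        intro j
        rw [map_smul, smul_eq_mul, smul_smul]
        congr 1
        ring }
  have hL : ∀ w, HasSum (fun j => (c j * b.coord j w) • b j) (L w) := fun w => (hsum w).hasSum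
  have hbound : ∀ w, ‖L w‖ ≤ 4 * max C₀ 1 * C * ‖w‖ := by
    intro w
    refine le_of_tendsto (hL w).norm (Filter.Eventually.of_forall fun A => ?_)
    have h1 := mu1_fin b c C hC hc w A (max C₀ 1 * ‖w‖) (fun A' _ => by
      have h2 := (b.proj A').le_opNorm w
      rw [GeneralSchauderBasis.proj_apply] at h2
      exact h2.trans (mul_le_mul_of_nonneg_right ((hC₀ A').trans (le_max_left _ _))
        (norm_nonneg _)))
    calc ‖∑ j ∈ A, (c j * b.coord j w) • b j‖ ≤ 4 * C * (max C₀ 1 * ‖w‖) := h1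
      _ = 4 * max C₀ 1 * C * ‖w‖ := by ring
  refine ⟨L.mkContinuous (4 * max C₀ 1 * C) hbound, ?_, ?_, ?_⟩
  · exact L.mkContinuous_norm_le (by positivity) hbound
  · intro w j
    rw [LinearMap.mkContinuous_apply]
    have h1 := (hL w).mapL (b.coord j)
    have h2 : HasSum (fun i => b.coord j ((c i * b.coord i w) • b i)) (c j * b.coord j w) := by
      classical
      have h3 : (fun i => b.coord j ((c i * b.coord i w) • b i)) =
          fun i => if i = j then c j * b.coord j w else 0 := by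
        funext i
        rw [map_smul, b.ortho, smul_eq_mul, Pi.single_apply]
        by_cases hij : i = j
        · subst hij
          simp
        · rw [if_neg hij, if_neg (fun h => hij h.symm), mul_zero]
      rw [h3]
      exact hasSum_ite_eq j _
    exact h1.unique h2
  · intro w
    rw [LinearMap.mkContinuous_apply]
    exact hL w

end Pool.Agent.UUB
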