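import Pool.Agent.UUB.MUB

/-!
# MU2: rules for the diagonal operators, second part

Everything follows from MUB and `ext_coord` (a vector is determined by its coordinates): both sides have the
same coordinates. `b.ortho`, `Pi.single_apply`. `R b n` is `(b.coord n).smulRight (b n)`. Norms: `R b n` maps the
nonzero vector `b n` to itself, so `1 ≤ ‖R b n‖`; `R b n = mulOp b (indicator of {n})` gives the upper bound
(`exists_norm_mulOp_le` with `C = 1`). The range of `S b A`, `A` finite, is contained in the span of finitely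
many vectors.
-/

namespace Pool.Agent.UUB

open Filter Topology Set

variable {𝕜 : Type*} [RCLike 𝕜] {W : Type*} [NormedAddCommGroup W] [NormedSpace 𝕜 W]
  [CompleteSpace W] {J : Type} (b : UnconditionalSchauderBasis J 𝕜 W)

omit [CompleteSpace W] in
private theorem mu2_same (n : J) : b.coord n (b n) = 1 := by
  classical
  rw [b.ortho]
  simp

omit [CompleteSpace W] in
private theorem mu2_ne {m n : J} (h : m ≠ n) : b.coord m (b n) = 0 := by
  classical
  rw [b.ortho]
  simp [Pi.single_apply, h]

private theorem mu2_ext {T U : W →L[𝕜] W} (h : ∀ w j, b.coord j (T w) = b.coord j (U w)) :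
    T = U :=
  ContinuousLinearMap.ext fun w => ext_coord b (h w)

open Classical in
private theorem mu2_coord_S (M : Set J) (w : W) (j : J) :
    b.coord j (S b M w) = (if j ∈ M then 1 else 0) * b.coord j w := by
  unfold S
  rw [coord_mulOp b (bdd_indicator M)]
  congr 1

omit [CompleteSpace W] in
open Classical in
private theorem mu2_coord_R (n : J) (w : W) (j : J) :
    b.coord j (R b n w) = (if j = n then 1 else 0) * b.coord j w := by
  unfold R
  rw [ContinuousLinearMap.smulRight_apply, map_smul, smul_eq_mul]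
  by_cases h : j = n
  · subst h
    rw [mu2_same]
    simp
  · rw [mu2_ne b h]
    simp [h]

/-- finite sums of rank one projections -/
theorem mulOp_finset (Φ : Finset J) [DecidableEq J] (c : J → 𝕜) :
    mulOp b (fun j => if j ∈ Φ then c j else 0) = ∑ j ∈ Φ, c j • R b j := by
  have hb : Bdd (fun j => if j ∈ Φ then c j else 0) := by
    refine ⟨∑ j ∈ Φ, ‖c j‖, fun j => ?_⟩
    by_cases h : j ∈ Φ
    · simp only [h, if_true]
      exact Finset.single_le_sum (f := fun j => ‖c j‖) (fun i _ => norm_nonneg _) h
    · simp only [h, if_false, norm_zero]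
      exact Finset.sum_nonneg fun i _ => norm_nonneg _
  refine mu2_ext b fun w j => ?_
  rw [coord_mulOp b hb, ContinuousLinearMap.sum_apply, map_sum]
  have h1 : ∀ i ∈ Φ, b.coord j ((c i • R b i) w) = if j = i then c i * b.coord j w else 0 := by
    intro i _
    rw [ContinuousLinearMap.smul_apply, map_smul, mu2_coord_R, smul_eq_mul]
    by_cases h : j = i
    · simp [h]
    · simp [h]
  rw [Finset.sum_congr rfl h1, Finset.sum_ite_eq]
  by_cases h : j ∈ Φ
  · simp [h]
  · simp [h]

theorem S_finset (A : Finset J) : S b (A : Set J) = ∑ j ∈ A, R b j := by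
  classical
  have h := mulOp_finset b A (fun _ => (1 : 𝕜))
  simp only [one_smul] at h
  rw [← h]
  unfold S
  congr 1
  funext j
  by_cases hj : j ∈ A
  · simp [hj]
  · simp [hj]

theorem S_mul_S (M N : Set J) : S b M * S b N = S b (M ∩ N) := by
  classical
  refine mu2_ext b fun w j => ?_
  rw [ContinuousLinearMap.mul_apply, mu2_coord_S, mu2_coord_S, mu2_coord_S]
  by_cases h1 : j ∈ M
  · by_cases h2 : j ∈ N
    · simp [h1, h2]
    · simp [h1, h2]
  · simp [h1]

theorem S_idem (M : Set J) : S b M * S b M = S b M := by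
  rw [S_mul_S, Set.inter_self]

theorem S_compl (M : Set J) : S b Mᶜ = 1 - S b M := by
  classical
  refine mu2_ext b fun w j => ?_
  rw [mu2_coord_S, ContinuousLinearMap.sub_apply, ContinuousLinearMap.one_apply, map_sub,
    mu2_coord_S]
  by_cases h1 : j ∈ M
  · simp [h1]
  · simp [h1]

theorem coord_S_mem {M : Set J} {n : J} (h : n ∈ M) (w : W) :
    b.coord n (S b M w) = b.coord n w := by
  classical
  rw [mu2_coord_S]
  simp [h]

theorem coord_S_notMem {M : Set J} {n : J} (h : n ∉ M) (w : W) : b.coord n (S b M w) = 0 := by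
  classical
  rw [mu2_coord_S]
  simp [h]

theorem S_basis_mem {M : Set J} {n : J} (h : n ∈ M) : S b M (b n) = b n := by
  classical
  refine ext_coord b fun j => ?_
  rw [mu2_coord_S]
  by_cases h1 : j = n
  · subst h1
    simp [h]
  · rw [mu2_ne b h1]
    simp

theorem S_basis_notMem {M : Set J} {n : J} (h : n ∉ M) : S b M (b n) = 0 := by
  classical
  refine ext_coord b fun j => ?_
  rw [mu2_coord_S, map_zero]
  by_cases h1 : j = n
  · subst h1
    simp [h]
  · rw [mu2_ne b h1]
    simp

theorem mulOp_comm_S {c : J → 𝕜} (hc : Bdd c) (M : Set J) :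
    mulOp b c * S b M = S b M * mulOp b c := by
  classical
  refine mu2_ext b fun w j => ?_
  rw [ContinuousLinearMap.mul_apply, ContinuousLinearMap.mul_apply, coord_mulOp b hc,
    mu2_coord_S, mu2_coord_S, coord_mulOp b hc]
  ring

theorem R_apply (n : J) (w : W) : R b n w = b.coord n w • b n := rfl

theorem R_mul_mul_R (T : W →L[𝕜] W) (n : J) : R b n * T * R b n = dg b T n • R b n := by
  ext w
  rw [ContinuousLinearMap.mul_apply, ContinuousLinearMap.mul_apply, ContinuousLinearMap.smul_apply,
    R_apply, R_apply, map_smul, map_smul, smul_smul, smul_eq_mul]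
  unfold dg
  rw [mul_comm]

theorem R_mul_R (n : J) : R b n * R b n = R b n := by
  ext w
  rw [ContinuousLinearMap.mul_apply, R_apply, R_apply, map_smul, mu2_same, smul_eq_mul, mul_one]

theorem R_mul_S_mem {M : Set J} {n : J} (h : n ∈ M) : R b n * S b M = R b n := by
  ext w
  rw [ContinuousLinearMap.mul_apply, R_apply, R_apply, coord_S_mem b h]

theorem R_mul_S_notMem {M : Set J} {n : J} (h : n ∉ M) : R b n * S b M = 0 := by
  ext w
  rw [ContinuousLinearMap.mul_apply, R_apply, coord_S_notMem b h, zero_smul]
  rfl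

theorem one_le_norm_R (n : J) : 1 ≤ ‖R b n‖ := by
  have hb : b n ≠ 0 := by
    intro h
    have := mu2_same b n
    rw [h, map_zero] at this
    exact zero_ne_one this
  have h1 : R b n (b n) = b n := by rw [R_apply, mu2_same, one_smul]
  have h2 := (R b n).le_opNorm (b n)
  rw [h1] at h2
  have h3 : 0 < ‖b n‖ := norm_pos_iff.mpr hb
  exact le_of_mul_le_mul_right (by linarith) h3

theorem exists_norm_R_le : ∃ K : ℝ, 1 ≤ K ∧ ∀ n, ‖R b n‖ ≤ K := by
  classical
  obtain ⟨K, hK1, hK⟩ := exists_norm_mulOp_le b
  refine ⟨K, hK1, fun n => ?_⟩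
  have h := mulOp_finset b {n} (fun _ => (1 : 𝕜))
  rw [Finset.sum_singleton, one_smul] at h
  rw [← h]
  have := hK (fun j => if j ∈ ({n} : Finset J) then (1 : 𝕜) else 0) 1 zero_le_one (fun j => by
    split_ifs <;> simp)
  linarith

theorem finiteDimensional_S_finset (A : Finset J) :
    FiniteDimensional 𝕜 (Rg (S b (A : Set J))) := by
  classical
  have hle : Rg (S b (A : Set J)) ≤ Submodule.span 𝕜 (b '' (A : Set J)) := by
    rintro _ ⟨w, rfl⟩
    rw [S_finset]
    simp only [ContinuousLinearMap.coe_coe, ContinuousLinearMap.sum_apply]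
    exact Submodule.sum_mem _ fun i hi => Submodule.smul_mem _ _
      (Submodule.subset_span ⟨i, hi, rfl⟩)
  have hfin : FiniteDimensional 𝕜 (Submodule.span 𝕜 (b '' (A : Set J))) :=
    FiniteDimensional.span_of_finite 𝕜 (A.finite_toSet.image _)
  exact Submodule.finiteDimensional_of_le hle

theorem norm_sgn (ε : J → Bool) (j : J) : ‖sgn 𝕜 ε j‖ = 1 := by
  unfold sgn sg
  split_ifs <;> simp

end Pool.Agent.UUB
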