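import Pool.Agent.UUB.MU1

/-!
# MUB: rules for the diagonal operators, first part

All rules follow from `exists_mul_bound` and from `ext_coord` (a vector is determined by its
coordinates, `b.expansion` and `HasSum.unique`): both sides have the same coordinates.
`mulOp b c` is the chosen operator as soon as one exists, i.e. for every bounded `c`.
-/

namespace Pool.Agent.UUB

open Filter Topology Set

variable {𝕜 : Type*} [RCLike 𝕜] {W : Type*} [NormedAddCommGroup W] [NormedSpace 𝕜 W]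
  [CompleteSpace W] {J : Type} (b : UnconditionalSchauderBasis J 𝕜 W)

omit [CompleteSpace W] in
theorem ext_coord {v w : W} (h : ∀ j, b.coord j v = b.coord j w) : v = w := by
  have h1 := b.expansion v
  have h2 := b.expansion w
  have h3 : (fun i => b.coord i v • b i) = fun i => b.coord i w • b i := by
    funext i
    rw [h i]
  rw [h3] at h1
  exact h1.unique h2

theorem Bdd.mul {c d : J → 𝕜} (hc : Bdd c) (hd : Bdd d) : Bdd fun j => c j * d j := by
  obtain ⟨C, hC⟩ := hc
  obtain ⟨D, hD⟩ := hd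
  refine ⟨C * D, fun j => ?_⟩
  rw [norm_mul]
  exact mul_le_mul (hC j) (hD j) (norm_nonneg _) ((norm_nonneg _).trans (hC j))

theorem Bdd.add {c d : J → 𝕜} (hc : Bdd c) (hd : Bdd d) : Bdd fun j => c j + d j := by
  obtain ⟨C, hC⟩ := hc
  obtain ⟨D, hD⟩ := hd
  exact ⟨C + D, fun j => (norm_add_le _ _).trans (add_le_add (hC j) (hD j))⟩

theorem bdd_indicator (M : Set J) : Bdd (M.indicator fun _ => (1 : 𝕜)) := by
  classical
  refine ⟨1, fun j => ?_⟩
  rw [Set.indicator_apply]
  split_ifs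
  · rw [norm_one]
  · rw [norm_zero]
    exact zero_le_one

theorem bdd_sgn (ε : J → Bool) : Bdd (sgn 𝕜 ε) := by
  refine ⟨1, fun j => ?_⟩
  unfold sgn sg
  split_ifs
  · rw [norm_one]
  · rw [norm_neg, norm_one]

private theorem mub_exists {c : J → 𝕜} (hc : Bdd c) :
    ∃ D : W →L[𝕜] W, ∀ w j, b.coord j (D w) = c j * b.coord j w := by
  obtain ⟨C, hC⟩ := hc
  obtain ⟨K, -, hK⟩ := exists_mul_bound b
  obtain ⟨D, -, hD, -⟩ := hK c (max C 0) (le_max_right _ _) fun j => (hC j).trans (le_max_left _ _)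
  exact ⟨D, hD⟩

theorem coord_mulOp {c : J → 𝕜} (hc : Bdd c) (w : W) (j : J) :
    b.coord j (mulOp b c w) = c j * b.coord j w := by
  have h := mub_exists b hc
  unfold mulOp
  rw [dif_pos h]
  exact h.choose_spec w j

private theorem mub_eq {c : J → 𝕜} (hc : Bdd c) {D : W →L[𝕜] W}
    (hD : ∀ w j, b.coord j (D w) = c j * b.coord j w) : mulOp b c = D := by
  apply ContinuousLinearMap.ext
  intro w
  apply ext_coord b
  intro j
  rw [coord_mulOp b hc, hD]

theorem hasSum_mulOp {c : J → 𝕜} (hc : Bdd c) (w : W) :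
    HasSum (fun j => (c j * b.coord j w) • b j) (mulOp b c w) := by
  have h := b.expansion (mulOp b c w)
  have h3 : (fun i => b.coord i (mulOp b c w) • b i) = fun j => (c j * b.coord j w) • b j := by
    funext i
    rw [coord_mulOp b hc]
  rw [h3] at h
  exact h

theorem exists_norm_mulOp_le :
    ∃ K : ℝ, 1 ≤ K ∧ ∀ (c : J → 𝕜) (C : ℝ), 0 ≤ C → (∀ j, ‖c j‖ ≤ C) → ‖mulOp b c‖ ≤ K * C := by
  obtain ⟨K, hK1, hK⟩ := exists_mul_bound b
  refine ⟨K, hK1, fun c C hC hc => ?_⟩
  obtain ⟨D, hD1, hD2, -⟩ := hK c C hC hc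
  rw [mub_eq b ⟨C, hc⟩ hD2]
  exact hD1

theorem mulOp_basis {c : J → 𝕜} (hc : Bdd c) (n : J) : mulOp b c (b n) = c n • b n := by
  classical
  apply ext_coord b
  intro j
  rw [coord_mulOp b hc, map_smul, smul_eq_mul, b.ortho, Pi.single_apply]
  by_cases h : j = n
  · rw [h]
  · rw [if_neg h, mul_zero, mul_zero]

theorem mulOp_mul {c d : J → 𝕜} (hc : Bdd c) (hd : Bdd d) :
    mulOp b (fun j => c j * d j) = mulOp b c * mulOp b d := by
  apply mub_eq b (hc.mul hd)
  intro w j
  rw [mul_apply_eq_comp, coord_mulOp b hc, coord_mulOp b hd, mul_assoc]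

theorem mulOp_add {c d : J → 𝕜} (hc : Bdd c) (hd : Bdd d) :
    mulOp b (fun j => c j + d j) = mulOp b c + mulOp b d := by
  apply mub_eq b (hc.add hd)
  intro w j
  rw [add_apply, map_add, coord_mulOp b hc, coord_mulOp b hd, add_mul]

theorem mulOp_smul (r : 𝕜) {c : J → 𝕜} (hc : Bdd c) :
    mulOp b (fun j => r * c j) = r • mulOp b c := by
  have hr : Bdd (fun _ : J => r) := ⟨‖r‖, fun _ => le_rfl⟩
  apply mub_eq b (hr.mul hc)
  intro w j
  rw [smul_apply, map_smul, smul_eq_mul, coord_mulOp b hc, mul_assoc]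

theorem mulOp_one : mulOp b (fun _ => (1 : 𝕜)) = 1 := by
  apply mub_eq b ⟨1, fun _ => by rw [norm_one]⟩
  intro w j
  rw [one_apply_eq_self, one_mul]

end Pool.Agent.UUB
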