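import Pool.Agent.UUB.MU2

/-!
# SGB: changing the coefficients of finite sums

All three bounds come from `exists_norm_mulOp_le` with the same `K`. For a finite set `Φ` and `θ` with
`‖θ j‖ ≤ 1` let `D = mulOp b (fun j => if j ∈ Φ then θ j else 0) = ∑ j ∈ Φ, θ j • R b j` (`mulOp_finset`),
`‖D‖ ≤ K`.
(1) `D (∑ j ∈ Φ, a j • b j) = ∑ j ∈ Φ, (θ j * a j) • b j`.
(2) `D v = ∑ j ∈ Φ, (θ j * b.coord j v) • b j`.
(3) `w ∘ D = ∑ j ∈ Φ, (θ j * w (b j)) • b.coord j`.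
-/

namespace Pool.Agent.UUB

open Filter Topology Set

variable {𝕜 : Type*} [RCLike 𝕜] {W : Type*} [NormedAddCommGroup W] [NormedSpace 𝕜 W]
  [CompleteSpace W] {J : Type} (b : UnconditionalSchauderBasis J 𝕜 W)

theorem sign_bound : ∃ K : ℝ, 1 ≤ K ∧ ∀ (Φ : Finset J) (θ : J → 𝕜), (∀ j, ‖θ j‖ ≤ 1) →
    (∀ a : J → 𝕜, ‖∑ j ∈ Φ, (θ j * a j) • b j‖ ≤ K * ‖∑ j ∈ Φ, a j • b j‖) ∧
    (∀ v : W, ‖∑ j ∈ Φ, (θ j * b.coord j v) • b j‖ ≤ K * ‖v‖) ∧
    (∀ w : StrongDual 𝕜 W, ‖∑ j ∈ Φ, (θ j * w (b j)) • b.coord j‖ ≤ K * ‖w‖) := by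
  classical
  obtain ⟨K, hK1, hK⟩ := exists_norm_mulOp_le b
  refine ⟨K, hK1, fun Φ θ hθ => ?_⟩
  have hD : ‖∑ j ∈ Φ, θ j • R b j‖ ≤ K := by
    rw [← mulOp_finset b Φ θ]
    have h := hK (fun j => if j ∈ Φ then θ j else 0) 1 zero_le_one (fun j => by
      by_cases hj : j ∈ Φ
      · simp only [hj, if_true]
        exact hθ j
      · simp only [hj, if_false, norm_zero]
        exact zero_le_one)
    linarith
  have hDv : ∀ v : W, (∑ j ∈ Φ, θ j • R b j) v = ∑ j ∈ Φ, (θ j * b.coord j v) • b j := by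
    intro v
    rw [ContinuousLinearMap.sum_apply]
    refine Finset.sum_congr rfl fun j _ => ?_
    rw [ContinuousLinearMap.smul_apply, R_apply, smul_smul]
  have h2 : ∀ v : W, ‖∑ j ∈ Φ, (θ j * b.coord j v) • b j‖ ≤ K * ‖v‖ := by
    intro v
    rw [← hDv v]
    exact ((∑ j ∈ Φ, θ j • R b j).le_opNorm v).trans
      (mul_le_mul_of_nonneg_right hD (norm_nonneg _))
  refine ⟨fun a => ?_, h2, fun w => ?_⟩
  · have h3 := h2 (∑ j ∈ Φ, a j • b j)
    have h4 : ∀ j ∈ Φ, b.coord j (∑ i ∈ Φ, a i • b i) = a j := by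
      intro j hj
      rw [map_sum, Finset.sum_eq_single j]
      · rw [map_smul, b.ortho]
        simp
      · intro i _ hi
        rw [map_smul, b.ortho]
        simp [Pi.single_apply, hi.symm]
      · intro h
        exact absurd hj h
    have h5 : (∑ j ∈ Φ, (θ j * b.coord j (∑ i ∈ Φ, a i • b i)) • b j) =
        ∑ j ∈ Φ, (θ j * a j) • b j :=
      Finset.sum_congr rfl fun j hj => by rw [h4 j hj]
    rw [h5] at h3
    exact h3
  · have h6 : (∑ j ∈ Φ, (θ j * w (b j)) • b.coord j) =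
        w.comp (∑ j ∈ Φ, θ j • R b j) := by
      ext v
      rw [ContinuousLinearMap.comp_apply, hDv v, map_sum, ContinuousLinearMap.sum_apply]
      refine Finset.sum_congr rfl fun j _ => ?_
      rw [map_smul, ContinuousLinearMap.smul_apply, smul_eq_mul, smul_eq_mul]
      ring
    rw [h6]
    refine (ContinuousLinearMap.opNorm_comp_le _ _).trans ?_
    rw [mul_comm]
    exact mul_le_mul_of_nonneg_right hD (norm_nonneg _)

end Pool.Agent.UUB
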