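import Pool.Agent.UUB.ALG

/-!
# SPA: compactness of `E A Γ B E`

PROOF. `E = Qd * (P - π) * H * P`, and `P - π = P * (P - π) = (P - π) * P`. So
`E * A * Γ * B * E = (Qd * (P - π) * H) * [P * A * Γ * B * Qd * P] * ((P - π) * H * P)`
(`E = Qd * P * ((P - π) * H * P)`). The bracket is compact: `Γ = P * Γ + (1 - P) * Γ`;
`P * A * (1 - P) * (Γ * B * Qd) * P` is compact by `hcc.2`, and `P * A * (P * Γ) * B * Qd * P` has finite
dimensional range (`Frame.finite_PG`), so it is compact
(`isCompactOperator_of_finiteDimensional`). Compact operators are stable under sums and under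
composition with bounded operators (`IsCompactOperator.add`, `.comp_clm`, `.clm_comp`).
-/

namespace Pool.Agent.UUB

open Filter Topology Set

variable {𝕜 : Type*} [RCLike 𝕜] {W : Type*} [NormedAddCommGroup W] [NormedSpace 𝕜 W]

/-- finite rank is stable under composition on both sides -/
theorem finiteDimensional_mul {T : W →L[𝕜] W} (hT : FiniteDimensional 𝕜 (Rg T))
    (A B : W →L[𝕜] W) : FiniteDimensional 𝕜 (Rg (A * T * B)) := by
  have hle : Rg (A * T * B) ≤ (Rg T).map A.toLinearMap := by
    rintro w ⟨v, rfl⟩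
    exact ⟨T (B v), ⟨B v, rfl⟩, rfl⟩
  exact Submodule.finiteDimensional_of_le hle

theorem finiteDimensional_add {T T' : W →L[𝕜] W} (hT : FiniteDimensional 𝕜 (Rg T))
    (hT' : FiniteDimensional 𝕜 (Rg T')) : FiniteDimensional 𝕜 (Rg (T + T')) := by
  have hle : Rg (T + T') ≤ Rg T ⊔ Rg T' := by
    rintro w ⟨v, rfl⟩
    exact Submodule.add_mem_sup ⟨v, rfl⟩ ⟨v, rfl⟩
  exact Submodule.finiteDimensional_of_le hle

theorem finiteDimensional_neg {T : W →L[𝕜] W} (hT : FiniteDimensional 𝕜 (Rg T)) :
    FiniteDimensional 𝕜 (Rg (-T)) := by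
  have hle : Rg (-T) ≤ Rg T := by
    rintro w ⟨v, rfl⟩
    exact ⟨-v, by simp⟩
  exact Submodule.finiteDimensional_of_le hle

theorem compact_EAGBE {P Qd T H π : W →L[𝕜] W} (F : Frame P Qd T H π) (hcc : CompactCorner P)
    (A B : W →L[𝕜] W) :
    IsCompactOperator (Eop P Qd H π * A * Gop P Qd H π * B * Eop P Qd H π : W →L[𝕜] W) := by
  set G := Gop P Qd H π with hG
  have hPp : P * (P - π) = P - π := by rw [mul_sub, F.hP, F.Pπ]
  have hE : Eop P Qd H π = Qd * P * ((P - π) * H * P) := by
    unfold Eop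
    calc Qd * (P - π) * H * P = Qd * (P * (P - π)) * H * P := by rw [hPp]
      _ = Qd * P * ((P - π) * H * P) := by simp only [mul_assoc]
  have hbr : IsCompactOperator (P * A * G * B * Qd * P : W →L[𝕜] W) := by
    have h1 : IsCompactOperator ((P * A) * (P * G) * (B * Qd * P) : W →L[𝕜] W) :=
      isCompactOperator_of_finiteDimensional (finiteDimensional_mul F.finite_PG (P * A) (B * Qd * P))
    have h2 := hcc.2 A (G * B * Qd)
    have e : (P * A * G * B * Qd * P : W →L[𝕜] W) =
        (P * A) * (P * G) * (B * Qd * P) + P * A * (1 - P) * (G * B * Qd) * P := by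
      noncomm_ring
    rw [e]
    exact h1.add h2
  have e2 : (Eop P Qd H π * A * G * B * Eop P Qd H π : W →L[𝕜] W) =
      (Qd * (P - π) * H) * (P * A * G * B * Qd * P) * ((P - π) * H * P) := by
    calc (Eop P Qd H π * A * G * B * Eop P Qd H π : W →L[𝕜] W)
        = (Qd * (P - π) * H * P) * A * G * B * (Qd * P * ((P - π) * H * P)) := by
          rw [← hE]; rfl
      _ = _ := by simp only [mul_assoc]
  rw [e2]
  exact (hbr.clm_comp (Qd * (P - π) * H)).comp_clm ((P - π) * H * P)

end Pool.Agent.UUB
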