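import Pool.Agent.UUB.BAI
import Pool.Agent.UUB.EXT
import Pool.Agent.UUB.SP1

/-!
# SPB: the double extraction

Here `E` and `Γ` are arbitrary operators with `Γ * Γ = Γ` such that all `E * A * Γ * B * E` are compact.

PROOF. For sign functions put `D_i = mulOp b (sgn 𝕜 (ε i))`, `ε : Fin 4 → J → Bool`, i.e. `I = Fin 4 × J`.
Let `F ε = Γ * D_0 * E * D_1 * Γ * D_2 * E * D_3 * Γ`: compact (the middle `E * D_1 * Γ * D_2 * E` is), strongly
continuous (`continuous_mulOp_sgn_comp` four times). `baire_tail` with `δ₀ = 1 / 128` gives `ε₀, B, A₁`;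
let `A` be the union of `A₁`, of `A'` and of the four components of `B` (`B.image Prod.snd`). For
`ε 0, ε 1, ε 2, ε 3` agreeing with the base on `A`, `‖S b Aᶜ * F ε‖ ≤ δ₀`.
First extraction, `ε 2, ε 3` fixed (agreeing with the base on `A`): `extract` with `X = S b Aᶜ * Γ`, `Y = E`,
`Z = Γ * D_2 * E * D_3 * Γ`; then `signs_to_scalars` with `c n = (dg b E n)⁻¹` (`‖c n‖ ≤ 4` for
`n ∈ M`, `n ∉ A`) and `R n * E * R n = dg b E n • R n`: for finite `Φ ⊆ M` disjoint from `A`,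
`‖S b Aᶜ * Γ * S b Φ * Γ * D_2 * E * D_3 * Γ‖ ≤ 8 δ₀` (`S_finset`).
Second extraction: `extract` with `X = S b Aᶜ * Γ * S b Φ * Γ`, `Y = E`, `Z = Γ`, and
`signs_to_scalars` as before (`Φ' ⊆ M` disjoint from `A`):
`‖S b Aᶜ * Γ * S b Φ * Γ * S b Φ' * Γ‖ ≤ 64 δ₀ = 1 / 2`.
Pass to the limit, first `Φ' = Ψ ∩ (M \ A)` with `Ψ → atTop`, then `Φ`, on each vector:
`S b (Ψ ∩ (M \ A)) w → S b (M \ A) w` (`tendsto_mulOp_finset` with `c` the indicator of `M \ A`).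
-/

namespace Pool.Agent.UUB

open Filter Topology Set

variable {𝕜 : Type*} [RCLike 𝕜] {W : Type*} [NormedAddCommGroup W] [NormedSpace 𝕜 W]
  [CompleteSpace W] {J : Type} (b : UnconditionalSchauderBasis J 𝕜 W)

theorem spb_step (X Y Z : W →L[𝕜] W) {δ : ℝ} (ε₀ ε₁ : J → Bool) (A : Finset J)
    (h : ∀ ε ε' : J → Bool, (∀ j ∈ A, ε j = ε₀ j) → (∀ j ∈ A, ε' j = ε₁ j) →
      ‖X * mulOp b (sgn 𝕜 ε) * Y * mulOp b (sgn 𝕜 ε') * Z‖ ≤ δ)
    (Φ : Finset J) (hΦ : Disjoint Φ A) (hη : ∀ n ∈ Φ, 1 / 4 ≤ ‖dg b Y n‖) :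
    ‖X * S b (Φ : Set J) * Z‖ ≤ 8 * δ := by
  have h1 := fun σ hσ => extract b X Y Z ε₀ ε₁ A h Φ hΦ σ hσ
  have h2 := signs_to_scalars Φ (fun n => X * R b n * Y * R b n * Z) h1
    (fun n => (dg b Y n)⁻¹) (C := 4) (by norm_num) (by
      intro n hn
      have := hη n hn
      rw [norm_inv]
      rw [inv_le_comm₀ (by linarith) (by norm_num)]
      linarith)
  have h3 : ∑ n ∈ Φ, (dg b Y n)⁻¹ • (X * R b n * Y * R b n * Z) = X * S b (Φ : Set J) * Z := by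
    rw [S_finset, Finset.mul_sum, Finset.sum_mul]
    refine Finset.sum_congr rfl fun n hn => ?_
    have hne : dg b Y n ≠ 0 := by
      intro h0
      have := hη n hn
      rw [h0, norm_zero] at this
      linarith
    have h4 : X * R b n * Y * R b n * Z = dg b Y n • (X * R b n * Z) := by
      have : X * R b n * Y * R b n * Z = X * (R b n * Y * R b n) * Z := by
        simp only [mul_assoc]
      rw [this, R_mul_mul_R, mul_smul_comm, smul_mul_assoc]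
    rw [h4, smul_smul, inv_mul_cancel₀ hne, one_smul]
  rw [h3] at h2
  linarith

theorem spb_limit (X Z : W →L[𝕜] W) {δ : ℝ} (hδ : 0 ≤ δ) (N : Set J)
    (h : ∀ Φ : Finset J, (Φ : Set J) ⊆ N → ‖X * S b (Φ : Set J) * Z‖ ≤ δ) :
    ‖X * S b N * Z‖ ≤ δ := by
  classical
  refine ContinuousLinearMap.opNorm_le_bound _ hδ fun w => ?_
  have h1 : Tendsto (fun Φ : Finset J => (∑ j ∈ Φ, (N.indicator (fun _ => (1 : 𝕜)) j) • R b j) (Z w))
      atTop (𝓝 (S b N (Z w))) := tendsto_mulOp_finset b (bdd_indicator N) (Z w)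
  have h2 : Tendsto (fun Φ : Finset J => ‖X ((∑ j ∈ Φ,
      (N.indicator (fun _ => (1 : 𝕜)) j) • R b j) (Z w))‖)
      atTop (𝓝 ‖X (S b N (Z w))‖) := (X.continuous.continuousAt.tendsto.comp h1).norm
  refine le_of_tendsto h2 (Eventually.of_forall fun Φ => ?_)
  have h3 : ∑ j ∈ Φ, (N.indicator (fun _ => (1 : 𝕜)) j) • R b j
      = S b ((Φ.filter (· ∈ N) : Finset J) : Set J) := by
    rw [S_finset, Finset.sum_filter]
    refine Finset.sum_congr rfl fun j _ => ?_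
    by_cases hj : j ∈ N
    · simp [hj]
    · simp [hj]
  rw [h3]
  have h4 := h (Φ.filter (· ∈ N)) (by
    intro j hj
    simp only [Finset.coe_filter, Set.mem_ofPred_eq] at hj
    exact hj.2)
  exact (ContinuousLinearMap.le_opNorm (X * S b ((Φ.filter (· ∈ N) : Finset J) : Set J) * Z) w).trans
    (mul_le_mul_of_nonneg_right h4 (norm_nonneg w))

theorem double_extraction [Countable J] {E Γ : W →L[𝕜] W}
    (hc : ∀ A B : W →L[𝕜] W, IsCompactOperator (E * A * Γ * B * E : W →L[𝕜] W)) (M : Set J)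
    (A' : Finset J) (hη : ∀ n ∈ M, n ∉ A' → 1 / 4 ≤ ‖dg b E n‖) :
    ∃ A : Finset J, A' ⊆ A ∧
      ‖S b ((A : Set J)ᶜ) * Γ * S b (M \ (A : Set J)) * Γ * S b (M \ (A : Set J)) * Γ‖ ≤ 1 / 2 := by
  classical
  have he : ∀ i : Fin 4, Continuous fun (ε : Fin 4 × J → Bool) (j : J) => ε (i, j) := fun i =>
    continuous_pi fun j => continuous_apply (i, j)
  obtain ⟨ε₀, B, A₁, hB⟩ := baire_tail b (I := Fin 4 × J)
    (fun ε => Γ * mulOp b (sgn 𝕜 fun j => ε (0, j)) * E * mulOp b (sgn 𝕜 fun j => ε (1, j)) * Γ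
      * mulOp b (sgn 𝕜 fun j => ε (2, j)) * E * mulOp b (sgn 𝕜 fun j => ε (3, j)) * Γ)
    (by
      intro w
      have h3 := continuous_mulOp_sgn_comp b (he 3) (v := fun _ => Γ w) continuous_const
      have h2 := continuous_mulOp_sgn_comp b (he 2) (E.continuous.comp h3)
      have h1 := continuous_mulOp_sgn_comp b (he 1) (Γ.continuous.comp h2)
      have h0 := continuous_mulOp_sgn_comp b (he 0) (E.continuous.comp h1)
      exact Γ.continuous.comp h0)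
    (by
      intro ε
      have h1 := hc (mulOp b (sgn 𝕜 fun j => ε (1, j))) (mulOp b (sgn 𝕜 fun j => ε (2, j)))
      have h2 := (h1.clm_comp (Γ * mulOp b (sgn 𝕜 fun j => ε (0, j)))).comp_clm
        (mulOp b (sgn 𝕜 fun j => ε (3, j)) * Γ)
      exact h2)
    (δ := 1 / 128) (by norm_num)
  set A : Finset J := A₁ ∪ A' ∪ B.image Prod.snd with hA
  have hA1 : A₁ ⊆ A := fun j hj => by
    rw [hA]
    exact Finset.mem_union_left _ (Finset.mem_union_left _ hj)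
  have hA2 : A' ⊆ A := fun j hj => by
    rw [hA]
    exact Finset.mem_union_left _ (Finset.mem_union_right _ hj)
  have hA3 : ∀ p ∈ B, p.2 ∈ A := fun p hp => by
    rw [hA]
    exact Finset.mem_union_right _ (Finset.mem_image_of_mem _ hp)
  refine ⟨A, hA2, ?_⟩
  have h0 : ∀ θ0 θ1 θ2 θ3 : J → Bool, (∀ j ∈ A, θ0 j = ε₀ (0, j)) → (∀ j ∈ A, θ1 j = ε₀ (1, j)) →
      (∀ j ∈ A, θ2 j = ε₀ (2, j)) → (∀ j ∈ A, θ3 j = ε₀ (3, j)) →
      ‖S b ((A : Set J)ᶜ) * Γ * mulOp b (sgn 𝕜 θ0) * E * mulOp b (sgn 𝕜 θ1)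
        * (Γ * mulOp b (sgn 𝕜 θ2) * E * mulOp b (sgn 𝕜 θ3) * Γ)‖ ≤ 1 / 128 := by
    intro θ0 θ1 θ2 θ3 g0 g1 g2 g3
    have h := hB (fun p => ![θ0 p.2, θ1 p.2, θ2 p.2, θ3 p.2] p.1) (by
      rintro ⟨i, j⟩ hp
      have hj := hA3 _ hp
      fin_cases i
      · exact g0 j hj
      · exact g1 j hj
      · exact g2 j hj
      · exact g3 j hj) A hA1
    have e : S b ((A : Set J)ᶜ) * Γ * mulOp b (sgn 𝕜 θ0) * E * mulOp b (sgn 𝕜 θ1)
        * (Γ * mulOp b (sgn 𝕜 θ2) * E * mulOp b (sgn 𝕜 θ3) * Γ)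
        = S b ((A : Set J)ᶜ) * (Γ * mulOp b (sgn 𝕜 θ0) * E * mulOp b (sgn 𝕜 θ1) * Γ
          * mulOp b (sgn 𝕜 θ2) * E * mulOp b (sgn 𝕜 θ3) * Γ) := by
      simp only [mul_assoc]
    rw [e]
    exact h
  have hηA : ∀ Φ : Finset J, (Φ : Set J) ⊆ M \ (A : Set J) → ∀ n ∈ Φ, 1 / 4 ≤ ‖dg b E n‖ := by
    intro Φ hΦ n hn
    have := hΦ (Finset.mem_coe.2 hn)
    exact hη n this.1 fun h => this.2 (Finset.mem_coe.2 (hA2 h))
  have hdis : ∀ Φ : Finset J, (Φ : Set J) ⊆ M \ (A : Set J) → Disjoint Φ A := by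
    intro Φ hΦ
    rw [Finset.disjoint_left]
    intro n hn hnA
    exact (hΦ (Finset.mem_coe.2 hn)).2 (Finset.mem_coe.2 hnA)
  have h1 : ∀ θ2 θ3 : J → Bool, (∀ j ∈ A, θ2 j = ε₀ (2, j)) → (∀ j ∈ A, θ3 j = ε₀ (3, j)) →
      ∀ Φ : Finset J, (Φ : Set J) ⊆ M \ (A : Set J) →
      ‖S b ((A : Set J)ᶜ) * Γ * S b (Φ : Set J) *
        (Γ * mulOp b (sgn 𝕜 θ2) * E * mulOp b (sgn 𝕜 θ3) * Γ)‖ ≤ 8 * (1 / 128) := by
    intro θ2 θ3 g2 g3 Φ hΦ
    exact spb_step b (S b ((A : Set J)ᶜ) * Γ) E _ (fun j => ε₀ (0, j)) (fun j => ε₀ (1, j)) A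
      (fun ε ε' g0 g1 => h0 ε ε' θ2 θ3 g0 g1 g2 g3) Φ (hdis Φ hΦ) (hηA Φ hΦ)
  have h2 : ∀ Φ Φ' : Finset J, (Φ : Set J) ⊆ M \ (A : Set J) → (Φ' : Set J) ⊆ M \ (A : Set J) →
      ‖S b ((A : Set J)ᶜ) * Γ * S b (Φ : Set J) * Γ * S b (Φ' : Set J) * Γ‖ ≤ 1 / 2 := by
    intro Φ Φ' hΦ hΦ'
    have := spb_step b (S b ((A : Set J)ᶜ) * Γ * S b (Φ : Set J) * Γ) E Γ
      (fun j => ε₀ (2, j)) (fun j => ε₀ (3, j)) A (δ := 8 * (1 / 128)) (fun ε ε' g2 g3 => by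
        have h := h1 ε ε' g2 g3 Φ hΦ
        have e : S b ((A : Set J)ᶜ) * Γ * S b (Φ : Set J) * Γ * mulOp b (sgn 𝕜 ε) * E
            * mulOp b (sgn 𝕜 ε') * Γ = S b ((A : Set J)ᶜ) * Γ * S b (Φ : Set J) *
            (Γ * mulOp b (sgn 𝕜 ε) * E * mulOp b (sgn 𝕜 ε') * Γ) := by
          simp only [mul_assoc]
        rw [e]
        exact h) Φ' (hdis Φ' hΦ') (hηA Φ' hΦ')
    linarith
  have h3 : ∀ Φ : Finset J, (Φ : Set J) ⊆ M \ (A : Set J) →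
      ‖S b ((A : Set J)ᶜ) * Γ * S b (Φ : Set J) * (Γ * S b (M \ (A : Set J)) * Γ)‖ ≤ 1 / 2 := by
    intro Φ hΦ
    have h := spb_limit b (S b ((A : Set J)ᶜ) * Γ * S b (Φ : Set J) * Γ) Γ (δ := 1 / 2)
      (by norm_num) (M \ (A : Set J)) (fun Φ' hΦ' => h2 Φ Φ' hΦ hΦ')
    have e : S b ((A : Set J)ᶜ) * Γ * S b (Φ : Set J) * (Γ * S b (M \ (A : Set J)) * Γ)
        = S b ((A : Set J)ᶜ) * Γ * S b (Φ : Set J) * Γ * S b (M \ (A : Set J)) * Γ := by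
      simp only [mul_assoc]
    rw [e]
    exact h
  have h4 := spb_limit b (S b ((A : Set J)ᶜ) * Γ) (Γ * S b (M \ (A : Set J)) * Γ) (δ := 1 / 2)
    (by norm_num) (M \ (A : Set J)) h3
  have e : S b ((A : Set J)ᶜ) * Γ * S b (M \ (A : Set J)) * Γ * S b (M \ (A : Set J)) * Γ
      = S b ((A : Set J)ᶜ) * Γ * S b (M \ (A : Set J)) * (Γ * S b (M \ (A : Set J)) * Γ) := by
    simp only [mul_assoc]
  rw [e]
  exact h4

end Pool.Agent.UUB
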