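import Pool.Agent.UUB.SPA
import Pool.Agent.UUB.SPB

/-!
# SPC: `Γ` has finite rank

PROOF of `finite_of_small`: `G * G = G`, `G = Θ + Fr` with `‖Θ‖ < 1`, `Fr` of finite rank. If `w ∈ Rg G` and
`Fr w = 0` then `w = G w = Θ w`, `‖w‖ ≤ ‖Θ‖ ‖w‖`, so `w = 0`. So `Fr` is injective on `Rg G` and
maps it into the finite dimensional `Rg Fr`: `Rg G` is finite dimensional
(`FiniteDimensional.of_injective` or similar).

PROOF of `Gamma_finite`. Write `G = Gop P (S b M) H π`, `E = Eop P (S b M) H π`. By `compact_EAGBE` the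
hypothesis of `double_extraction` holds; get `A`. As `G = G * S b M * G` (`Frame.G_Q`, `G_idem`) and
`S b M = S b (M \ A) + S b (M ∩ A)`, with `G₁ = G * S b (M \ A) * G` we have
`G = G₁ + G * S b (M ∩ A) * G = G₁ + (finite rank)`; so `G₁ * G₁ = G * S b (M \ A) * G * S b (M \ A) * G`
differs from `G * G = G` by a finite rank operator, and `S b Aᶜ * (G₁ * G₁) = G₁ * G₁ - S b A * (G₁ * G₁)`
also differs from `G` by a finite rank operator. So `G = Θ + (finite rank)` with
`Θ = S b Aᶜ * G * S b (M \ A) * G * S b (M \ A) * G`, `‖Θ‖ ≤ 1 / 2`. Apply `finite_of_small`.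
(`M ∩ A` is a finite set: `S b (M ∩ A)` has finite rank, e.g. `S b (M ∩ A) = S b M * S b A`.)
-/

namespace Pool.Agent.UUB

open Filter Topology Set

variable {𝕜 : Type*} [RCLike 𝕜] {W : Type*} [NormedAddCommGroup W] [NormedSpace 𝕜 W]

theorem finite_of_small {G Θ Fr : W →L[𝕜] W} (hG : G * G = G) (h : G = Θ + Fr) (hΘ : ‖Θ‖ < 1)
    (hFr : FiniteDimensional 𝕜 (Rg Fr)) : FiniteDimensional 𝕜 (Rg G) := by
  let f : Rg G →ₗ[𝕜] Rg Fr := (Fr.toLinearMap.domRestrict (Rg G)).codRestrict (Rg Fr)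
    (fun w => ⟨w, rfl⟩)
  refine FiniteDimensional.of_injective f ?_
  rw [injective_iff_map_eq_zero]
  rintro ⟨w, v, rfl⟩ hw
  have h1 : Fr (G v) = 0 := congrArg Subtype.val hw
  have h2 : G (G v) = G v := by
    rw [← ContinuousLinearMap.mul_apply, hG]
  have h3 : G (G v) = Θ (G v) + Fr (G v) := by
    conv_lhs => rw [h]
    rw [ContinuousLinearMap.add_apply]
    simp only [← h]
  rw [h2, h1, add_zero] at h3
  have h4 : ‖G v‖ ≤ ‖Θ‖ * ‖G v‖ := by
    conv_lhs => rw [h3]
    exact Θ.le_opNorm _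
  have h5 : ‖G v‖ = 0 := by
    have := norm_nonneg (G v)
    nlinarith
  apply Subtype.ext
  exact norm_eq_zero.1 h5

theorem Gamma_finite [CompleteSpace W] {J : Type} [Countable J]
    (b : UnconditionalSchauderBasis J 𝕜 W) {P T H π : W →L[𝕜] W} {M : Set J}
    (F : Frame P (S b M) T H π) (hcc : CompactCorner P) (A' : Finset J)
    (hη : ∀ n ∈ M, n ∉ A' → 1 / 4 ≤ ‖dg b (Eop P (S b M) H π) n‖) :
    FiniteDimensional 𝕜 (Rg (Gop P (S b M) H π)) := by
  obtain ⟨A, -, hA⟩ := double_extraction b (E := Eop P (S b M) H π) (Γ := Gop P (S b M) H π)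
    (fun A B => compact_EAGBE F hcc A B) M A' hη
  set G := Gop P (S b M) H π with hGdef
  have hGG : G * G = G := F.G_idem
  have hGQ : G * S b M = G := F.G_Q
  set D := S b (M \ (A : Set J)) with hD
  have hSM : S b M = D + S b M * S b (A : Set J) := by
    have h1 : D = S b M * (1 - S b (A : Set J)) := by
      rw [← S_compl, S_mul_S, hD, diff_eq]
    rw [h1, mul_sub, mul_one]; abel
  have hSA := finiteDimensional_S_finset b A
  set G1 := G * D * G with hG1
  set K1 := G * S b M * S b (A : Set J) * G with hK1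
  have e1 : G = G1 + K1 := by
    calc G = G * S b M * G := by rw [hGQ, hGG]
      _ = G * (D + S b M * S b (A : Set J)) * G := by rw [← hSM]
      _ = G1 + K1 := by rw [hG1, hK1]; noncomm_ring
  have e2 : G1 * G1 = G * D * G * D * G := by
    calc G1 * G1 = G * D * (G * G) * D * G := by rw [hG1]; noncomm_ring
      _ = _ := by rw [hGG]
  have e3 : G1 * G1 = S b ((A : Set J)ᶜ) * (G1 * G1) + S b (A : Set J) * (G1 * G1) := by
    rw [S_compl]; noncomm_ring
  have e4 : G = S b ((A : Set J)ᶜ) * G * D * G * D * G +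
      (1 * S b (A : Set J) * (G1 * G1) + (G1 * G * S b M * S b (A : Set J) * G +
        (G * S b M * S b (A : Set J) * (G * G1) + K1 * G * S b M * S b (A : Set J) * G))) := by
    have e5 : S b ((A : Set J)ᶜ) * G * D * G * D * G = S b ((A : Set J)ᶜ) * (G1 * G1) := by
      rw [e2]; noncomm_ring
    rw [e5]
    have e6 : G = G1 * G1 + (G1 * K1 + (K1 * G1 + K1 * K1)) := by
      calc G = G * G := hGG.symm
        _ = (G1 + K1) * (G1 + K1) := by rw [← e1]
        _ = _ := by noncomm_ring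
    have e7 : G1 * K1 = G1 * G * S b M * S b (A : Set J) * G := by rw [hK1]; noncomm_ring
    have e8 : K1 * G1 = G * S b M * S b (A : Set J) * (G * G1) := by rw [hK1]; noncomm_ring
    have e9 : K1 * K1 = K1 * G * S b M * S b (A : Set J) * G := by
      conv_lhs => rw [hK1]
      conv_rhs => rw [hK1]
      noncomm_ring
    rw [one_mul, ← e7, ← e8, ← e9]
    calc G = G1 * G1 + (G1 * K1 + (K1 * G1 + K1 * K1)) := e6
      _ = (S b ((A : Set J)ᶜ) * (G1 * G1) + S b (A : Set J) * (G1 * G1)) +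
          (G1 * K1 + (K1 * G1 + K1 * K1)) := by rw [← e3]
      _ = _ := by rw [add_assoc]
  refine finite_of_small hGG e4 (lt_of_le_of_lt hA (by norm_num)) ?_
  refine finiteDimensional_add (finiteDimensional_mul hSA _ _)
    (finiteDimensional_add (finiteDimensional_mul hSA _ _)
      (finiteDimensional_add (finiteDimensional_mul hSA _ _) (finiteDimensional_mul hSA _ _)))

end Pool.Agent.UUB
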