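import Pool.Agent.UUB.DEC
import Pool.Agent.UUB.ETA
import Pool.Agent.UUB.SPC
import Pool.Agent.UUB.ISO
import Pool.Agent.UUB.ALX
import Pool.Agent.UUB.CAN
import Pool.Agent.UUB.ADJ

/-!
# SPL: the splitting theorem

PROOF. Let `K ≥ 1` bound `‖R b n‖` (`exists_norm_R_le`). Choose `δ > 0` with `δ ≤ 1 / 2` and
`16 * K * ‖P‖ * δ ≤ 1`; `corner_decomp` gives `A, T, R'`. Put `N = N0 b P A`, `M = Nᶜ`, `Qd = S b M`, so that
`1 - Qd = S b N` (`S_compl`); `exists_frame` gives `H, π` and a `Frame P Qd T H π`. By `half_le_dg` and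
`eta_lower` there is `A'`, and `Gamma_finite` says that `Γ = Gop ..` has finite rank. Let
`r = finrank (Rg π)`, `g = finrank (Rg Γ)`; with `finite_model`, `iso1` and `iso2` read
`(1) Kr P × 𝕜^r ≃ Kr Qd × 𝕜^g` and `(2) Rg P × 𝕜^g ≃ Rg Qd × 𝕜^r`; `Kr Qd = Rg (S b Mᶜ)` (`kr_S`).
Case `r ≤ g`, `k = g - r`: `cancel` applied to (2) reversed gives `Rg (S b M) ≃ Rg P × 𝕜^k` and to (1)
`Kr P ≃ Rg (S b Mᶜ) × 𝕜^k`. By `exists_sub` there is `Φ ⊆ M` with `k` elements. Put `M' = M \ Φ`: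
`Rg (S b M) ≃ Rg (S b M') × 𝕜^k` (`move`), so `Rg (S b M') ≃ Rg P` (`cancel_eq`); `M'ᶜ = Mᶜ ∪ Φ`, so
`Rg (S b M'ᶜ) ≃ Rg (S b Mᶜ) × 𝕜^k ≃ Kr P` (`move`).
Case `g ≤ r`, `k = r - g`: `Rg P ≃ Rg (S b M) × 𝕜^k` and `Rg (S b Mᶜ) ≃ Kr P × 𝕜^k`; `exists_sub` gives
`Φ ⊆ Mᶜ` with `k` elements; `M' = M ∪ Φ`; symmetric.
-/

namespace Pool.Agent.UUB

open Filter Topology Set

variable {𝕜 : Type*} [RCLike 𝕜] {W : Type*} [NormedAddCommGroup W] [NormedSpace 𝕜 W]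
  [CompleteSpace W] {J : Type} (b : UnconditionalSchauderBasis J 𝕜 W)

theorem spl_aux (M : Set J) {k : ℕ} {A : Type*} [NormedAddCommGroup A] [NormedSpace 𝕜 A]
    {B : Type*} [NormedAddCommGroup B] [NormedSpace 𝕜 B]
    (e1 : Rg (S b M) ≃L[𝕜] (A × (Fin k → 𝕜))) (e2 : B ≃L[𝕜] (Rg (S b Mᶜ) × (Fin k → 𝕜))) :
    ∃ M' : Set J, Nonempty (Rg (S b M') ≃L[𝕜] A) ∧ Nonempty (Rg (S b M'ᶜ) ≃L[𝕜] B) := by
  obtain ⟨Φ, hΦ, hcard⟩ := exists_sub b M e1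
  refine ⟨M \ Φ, ?_, ?_⟩
  · have h1 := move b (M \ (Φ : Set J)) Φ disjoint_sdiff_left
    rw [sdiff_union_of_subset hΦ, hcard] at h1
    obtain ⟨f⟩ := h1
    exact cancel_eq (f.symm.trans e1)
  · have h1 := move b Mᶜ Φ (disjoint_compl_left_iff_subset.2 hΦ)
    rw [hcard] at h1
    have h2 : (M \ (Φ : Set J))ᶜ = Mᶜ ∪ Φ := by
      rw [Set.sdiff_eq, compl_inter, compl_compl]
    rw [h2]
    obtain ⟨f⟩ := h1
    exact ⟨f.trans e2.symm⟩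

theorem splitting [Countable J] {P : W →L[𝕜] W} (hP : CompactCorner P) :
    ∃ M : Set J, Nonempty (Rg (S b M) ≃L[𝕜] Rg P) ∧ Nonempty (Rg (S b Mᶜ) ≃L[𝕜] Kr P) := by
  obtain ⟨K, hK1, hK⟩ := exists_norm_R_le b
  have hPn := norm_nonneg P
  set δ : ℝ := min (1 / 2) (1 / (16 * K * (‖P‖ + 1))) with hδ
  have hδ0 : 0 < δ := by
    rw [hδ]; apply lt_min (by norm_num); positivity
  obtain ⟨A, T, R', hdec, hT, hPT, hTP, hPR, hRP, hfin⟩ := corner_decomp b hP hδ0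
  have hT2 : ‖T‖ ≤ 1 / 2 := hT.trans (min_le_left _ _)
  have hT3 : 16 * K * ‖P‖ * ‖T‖ ≤ 1 := by
    have h1 : ‖T‖ ≤ 1 / (16 * K * (‖P‖ + 1)) := hT.trans (min_le_right _ _)
    rw [le_div_iff₀ (by positivity)] at h1
    have h2 := norm_nonneg T
    have h3 : 0 ≤ 16 * K * ‖T‖ := by positivity
    nlinarith
  set M : Set J := (N0 b P A)ᶜ with hM
  have h1Q : P * (1 - S b M) * P = T + R' := by
    rw [hM, S_compl, sub_sub_cancel, hdec]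
  obtain ⟨H, π, F⟩ := exists_frame hP.1 (S_idem b M) h1Q hT2 hPT hTP hPR hRP hfin
  obtain ⟨A', hA'⟩ := eta_lower b F hK hT2 hT3 A (fun n hn hnA => half_le_dg b hn hnA)
  have hG := Gamma_finite b F hP A' hA'
  have hπ := F.fin
  obtain ⟨i1⟩ := F.iso1
  obtain ⟨i2⟩ := F.iso2
  obtain ⟨m1⟩ := finite_model (𝕜 := 𝕜) (Rg π)
  obtain ⟨m2⟩ := finite_model (𝕜 := 𝕜) (Rg (Gop P (S b M) H π))
  generalize Module.finrank 𝕜 (Rg π) = r at m1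
  generalize Module.finrank 𝕜 (Rg (Gop P (S b M) H π)) = g at m2
  let U1 : (Kr P × (Fin r → 𝕜)) ≃L[𝕜] (Kr (S b M) × (Fin g → 𝕜)) :=
    (((ContinuousLinearEquiv.refl 𝕜 (Kr P)).prodCongr m1.symm).trans i1).trans
      ((ContinuousLinearEquiv.refl 𝕜 (Kr (S b M))).prodCongr m2)
  let U2 : (Rg P × (Fin g → 𝕜)) ≃L[𝕜] (Rg (S b M) × (Fin r → 𝕜)) :=
    (((ContinuousLinearEquiv.refl 𝕜 (Rg P)).prodCongr m2.symm).trans i2).trans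
      ((ContinuousLinearEquiv.refl 𝕜 (Rg (S b M))).prodCongr m1)
  rcases le_total r g with hrg | hrg
  · obtain ⟨e1⟩ := cancel hrg U2.symm
    obtain ⟨e2⟩ := cancel hrg U1
    rw [kr_S b M] at e2
    exact spl_aux b M e1 e2
  · obtain ⟨e1⟩ := cancel hrg U1.symm
    obtain ⟨e2⟩ := cancel hrg U2
    rw [kr_S b M] at e1
    rw [← compl_compl M] at e2
    obtain ⟨M', h1, h2⟩ := spl_aux b Mᶜ e1 e2
    refine ⟨M'ᶜ, h2, ?_⟩
    rwa [compl_compl]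

end Pool.Agent.UUB
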