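import Pool.Agent.UUB.ADJ
import Pool.Agent.UUB.INV

/-!
# SUB: the part of a basis indexed by `M` is a basis of the range of `S b M`

* `mem_Rg_S`: `b j = S b M (b j)` for `j ∈ M` (`S_basis_mem`).
* `sub_basis`: for `v ∈ Rg (S b M)`, `v = S b M v`, the coordinates off `M` vanish, and the series
  `∑ coord j v • b j` over `J` restricts to `M` (`Function.Injective.hasSum_iff` for `Subtype.val`, or
  `hasSum_subtype_iff_of_support_subset`); sums in the subspace and in `W` correspond
  (`Subtype.val`-embedding; `HasSum.map`, `hasSum_subtype...`; the inclusion `Submodule.subtypeL` is an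
  isometry, hence inducing: `Topology.IsInducing.hasSum_iff`). Uniqueness: apply `b.coord i`.
* `sub_semi`, `sub_summable`: restriction and the inducing inclusion; in `sub_summable` the limit in `W` of
  a family supported in the range of `S b M` lies in the range, which is closed (it is the kernel of
  `1 - S b M`).
* `summable_split`: `W` is complete; `summable_subtype_and_compl` or `Summable.subtype` and
  `Summable.add_compl`.
-/

namespace Pool.Agent.UUB

open Filter Topology Set

variable {𝕜 : Type*} [RCLike 𝕜] {W : Type*} [NormedAddCommGroup W] [NormedSpace 𝕜 W]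
  [CompleteSpace W] {J : Type} (b : UnconditionalSchauderBasis J 𝕜 W)

theorem mem_Rg_S (M : Set J) (j : M) : b j ∈ Rg (S b M) :=
  ⟨b j, S_basis_mem b j.2⟩

/-- the part of the basis indexed by `M`, as vectors of the range of `S b M` -/
noncomputable def part (M : Set J) (j : M) : Rg (S b M) := ⟨b j, mem_Rg_S b M j⟩

private theorem SUB_fix (M : Set J) {v : W} (hv : v ∈ Rg (S b M)) : S b M v = v := by
  obtain ⟨w, rfl⟩ := hv
  have h := S_idem b M
  have h2 := congrArg (fun T : W →L[𝕜] W => T w) h
  simpa using h2

private theorem SUB_hasSum (M : Set J) (a : M → 𝕜) (v : Rg (S b M)) :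
    HasSum (fun j => a j • part b M j) v ↔ HasSum (fun j : M => a j • b (j : J)) (v : W) := by
  have hind : Topology.IsInducing ((Rg (S b M)).subtypeL : Rg (S b M) →L[𝕜] W) :=
    Topology.IsInducing.subtypeVal
  have h := hind.hasSum_iff (L := SummationFilter.unconditional M) (fun j => a j • part b M j) v
  rw [← h]
  rfl

omit [CompleteSpace W] in
private theorem SUB_coord (M : Set J) (a : M → 𝕜) {v : W}
    (h : HasSum (fun j : M => a j • b (j : J)) v) (i : M) : a i = b.coord i v := by
  classical
  have h1 := h.mapL (b.coord i)
  have h2 : HasSum (fun j : M => b.coord i (a j • b (j : J))) (a i) := by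
    have h3 : (fun j : M => b.coord i (a j • b (j : J))) i = a i := by
      simp [b.ortho]
    rw [← h3]
    apply hasSum_single
    intro j hj
    have hj' : (j : J) ≠ (i : J) := fun h => hj (Subtype.ext h)
    simp [b.ortho, hj'.symm]
  exact h2.unique h1

theorem sub_basis [Countable J] (M : Set J) : IsUncBasis 𝕜 (part b M) := by
  refine ⟨inferInstance, fun v => ?_⟩
  have hv : S b M (v : W) = v := SUB_fix b M v.2
  refine ⟨fun j : M => b.coord (j : J) (v : W), ?_, ?_⟩
  · change HasSum (fun j : M => b.coord (j : J) (v : W) • part b M j) v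
    rw [SUB_hasSum]
    have h1 := b.expansion (v : W)
    have h2 : Function.support (fun j => b.coord j (v : W) • b j) ⊆ M := by
      intro j hj
      by_contra hjM
      apply hj
      have h3 : b.coord j (v : W) = 0 := by
        rw [← hv]
        exact coord_S_notMem b hjM _
      simp [h3]
    exact (hasSum_subtype_iff_of_support_subset h2).2 h1
  · intro a ha
    funext i
    exact SUB_coord b M a ((SUB_hasSum b M a v).1 ha) i

theorem sub_semi (hs : SemiNormalized fun j => b j) (M : Set J) : SemiNormalized (part b M) := by
  obtain ⟨c, C, hc, h⟩ := hs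
  exact ⟨c, C, hc, fun j => h j⟩

theorem sub_summable (M : Set J) (a : M → 𝕜) :
    (Summable fun j : M => a j • part b M j) ↔ (Summable fun j : M => a j • b (j : J)) := by
  constructor
  · rintro ⟨v, hv⟩
    exact ⟨v, (SUB_hasSum b M a v).1 hv⟩
  · rintro ⟨s, hs⟩
    have h1 := hs.mapL (S b M)
    have h2 : (fun j : M => S b M (a j • b (j : J))) = fun j : M => a j • b (j : J) := by
      funext j
      rw [map_smul, S_basis_mem b j.2]
    rw [h2] at h1
    have h3 : S b M s = s := h1.unique hs
    exact ⟨⟨s, ⟨s, h3⟩⟩, (SUB_hasSum b M a ⟨s, ⟨s, h3⟩⟩).2 hs⟩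

theorem summable_split (M : Set J) (a : J → 𝕜) :
    (Summable fun j => a j • b j) ↔
      (Summable fun j : M => a (j : J) • b (j : J)) ∧
        (Summable fun j : (Mᶜ : Set J) => a (j : J) • b (j : J)) :=
  (summable_subtype_and_compl (f := fun j => a j • b j) (s := M)).symm

end Pool.Agent.UUB
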