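import Pool.Agent.UUB.UAB
import Pool.Agent.UUB.DIB
import Pool.Agent.UUB.ABS

/-!
# TBB: Theorem B for a block space

PROOF. If all compositions `Y → X → Y` are compact, use `theoremA`. Otherwise there are `T : Y → X`,
`U : X → Y` with `U ∘ T` not compact; `dichotomy` gives `U₁, V₁ : Y → Y` with
`V₁ ∘ U ∘ T ∘ U₁ = 1`. With `j = T ∘ U₁`, `q = V₁ ∘ U`, `q ∘ j = 1`, and `absorb` with `square`
gives `X × Y ≃ X`; use `HasUUB.congr`.
-/

namespace Pool.Agent.UUB

open Filter Topology Set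

variable {𝕜 : Type*} [RCLike 𝕜] {X : Type*} [NormedAddCommGroup X] [NormedSpace 𝕜 X]
  {Y : Type*} [NormedAddCommGroup Y] [NormedSpace 𝕜 Y]

theorem theoremB_of [CompleteSpace X] [CompleteSpace Y] (b : UnconditionalSchauderBasis ℕ 𝕜 Y)
    (hb : BlockBasis b) (hX : HasUUB 𝕜 X) (hY : HasUUB 𝕜 Y) : HasUUB 𝕜 (X × Y) := by
  by_cases hc : ∀ (T : Y →L[𝕜] X) (U : X →L[𝕜] Y), IsCompactOperator (U.comp T)
  · exact theoremA hX hY hc
  · push Not at hc
    obtain ⟨T, U, hTU⟩ := hc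
    obtain ⟨U₁, V₁, h1⟩ := dichotomy b hb hTU
    obtain ⟨e⟩ := absorb (square b hb) (T.comp U₁) (V₁.comp U) (by
      ext y
      have h2 := congrArg (fun L : Y →L[𝕜] Y => L y) h1
      simpa using h2)
    exact hX.congr e.symm

end Pool.Agent.UUB
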