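import Pool.Agent.UUB.SPL

/-!
# UAA: the projection of a direct sum

* `sndP` is the projection `(x, y) ↦ (0, y)` of `X × Y`. `corner`: `sndP * A * (1 - sndP) * B * sndP`
  equals `inr ∘ (snd ∘ A ∘ inl) ∘ (fst ∘ B ∘ inr) ∘ snd`, compact by hypothesis
  (`1 - sndP = inl ∘ fst`; `IsCompactOperator.comp_clm`, `.clm_comp`).
* `rgEquiv : Rg sndP ≃ Y`, `krEquiv : Kr sndP ≃ X` are clear
  (`ContinuousLinearEquiv.equivOfInverse`, restrictions of `snd`, `inr`, `fst`, `inl`).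
* `splitX`: `splitting b (corner hc)` and the two equivalences.
-/

namespace Pool.Agent.UUB

open Filter Topology Set

variable {𝕜 : Type*} [RCLike 𝕜] {X : Type*} [NormedAddCommGroup X] [NormedSpace 𝕜 X]
  {Y : Type*} [NormedAddCommGroup Y] [NormedSpace 𝕜 Y]

/-- the projection `(x, y) ↦ (0, y)` -/
noncomputable def sndP (𝕜 : Type*) [RCLike 𝕜] (X : Type*) [NormedAddCommGroup X]
    [NormedSpace 𝕜 X] (Y : Type*) [NormedAddCommGroup Y] [NormedSpace 𝕜 Y] :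
    (X × Y) →L[𝕜] (X × Y) :=
  (ContinuousLinearMap.inr 𝕜 X Y).comp (ContinuousLinearMap.snd 𝕜 X Y)

theorem corner (hc : ∀ (T : Y →L[𝕜] X) (U : X →L[𝕜] Y), IsCompactOperator (U.comp T)) :
    CompactCorner (sndP 𝕜 X Y) := by
  refine ⟨?_, fun A B => ?_⟩
  · ext w <;> simp [sndP]
  · have h := hc (((ContinuousLinearMap.fst 𝕜 X Y).comp B).comp (ContinuousLinearMap.inr 𝕜 X Y))
      (((ContinuousLinearMap.snd 𝕜 X Y).comp A).comp (ContinuousLinearMap.inl 𝕜 X Y))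
    have h2 := (h.comp_clm (ContinuousLinearMap.snd 𝕜 X Y)).clm_comp
      (ContinuousLinearMap.inr 𝕜 X Y)
    have e : ((sndP 𝕜 X Y * A * (1 - sndP 𝕜 X Y) * B * sndP 𝕜 X Y : (X × Y) →L[𝕜] (X × Y)) :
        X × Y → X × Y) = (ContinuousLinearMap.inr 𝕜 X Y) ∘
        (((((ContinuousLinearMap.snd 𝕜 X Y).comp A).comp (ContinuousLinearMap.inl 𝕜 X Y)).comp
          (((ContinuousLinearMap.fst 𝕜 X Y).comp B).comp (ContinuousLinearMap.inr 𝕜 X Y))) ∘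
          (ContinuousLinearMap.snd 𝕜 X Y)) := by
      funext w
      have e1 : (1 - sndP 𝕜 X Y) (B (sndP 𝕜 X Y w)) = ((B (0, w.2)).1, 0) := by
        ext <;> simp [sndP]
      simp only [ContinuousLinearMap.mul_apply, Function.comp_apply,
        ContinuousLinearMap.comp_apply]
      rw [e1]
      simp [sndP]
    rw [e]
    exact h2

theorem rgEquiv : Nonempty (Rg (sndP 𝕜 X Y) ≃L[𝕜] Y) := by
  refine ⟨ContinuousLinearEquiv.equivOfInverse
    ((ContinuousLinearMap.snd 𝕜 X Y).comp (Submodule.subtypeL (Rg (sndP 𝕜 X Y))))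
    ((ContinuousLinearMap.inr 𝕜 X Y).codRestrict (Rg (sndP 𝕜 X Y)) (fun y => ⟨(0, y), ?_⟩)) ?_ ?_⟩
  · simp [sndP]
  · rintro ⟨w, v, hv⟩
    have hv' : w = (0, v.2) := by rw [← hv]; simp [sndP]
    apply Subtype.ext
    simp [hv']
  · intro y
    simp

theorem krEquiv : Nonempty (Kr (sndP 𝕜 X Y) ≃L[𝕜] X) := by
  refine ⟨ContinuousLinearEquiv.equivOfInverse
    ((ContinuousLinearMap.fst 𝕜 X Y).comp (Submodule.subtypeL (Kr (sndP 𝕜 X Y))))
    ((ContinuousLinearMap.inl 𝕜 X Y).codRestrict (Kr (sndP 𝕜 X Y)) (fun x => ?_)) ?_ ?_⟩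
  · simp [sndP]
  · rintro ⟨w, hw⟩
    have hw' : w.2 = 0 := by
      have := congrArg Prod.snd (LinearMap.mem_ker.mp hw)
      simpa [sndP] using this
    apply Subtype.ext
    simp [← hw']
  · intro y
    simp

theorem splitX [CompleteSpace X] [CompleteSpace Y]
    (hc : ∀ (T : Y →L[𝕜] X) (U : X →L[𝕜] Y), IsCompactOperator (U.comp T)) {J : Type} [Countable J]
    (b : UnconditionalSchauderBasis J 𝕜 (X × Y)) :
    ∃ M : Set J, Nonempty (Rg (S b M) ≃L[𝕜] Y) ∧ Nonempty (Rg (S b Mᶜ) ≃L[𝕜] X) := by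
  obtain ⟨M, ⟨e1⟩, ⟨e2⟩⟩ := splitting b (corner hc)
  obtain ⟨r⟩ := rgEquiv (𝕜 := 𝕜) (X := X) (Y := Y)
  obtain ⟨k⟩ := krEquiv (𝕜 := 𝕜) (X := X) (Y := Y)
  exact ⟨M, ⟨e1.trans r⟩, ⟨e2.trans k⟩⟩

end Pool.Agent.UUB
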