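import Pool.Agent.UUB.UAA
import Pool.Agent.UUB.SUB
import Pool.Agent.UUB.PRB

/-!
# UAB: Theorem A

`glue`. PROOF. Let `e : Rg (S b M) ≃ Y`, `e' : Rg (S b' M') ≃ Y`, `f, f'` the same for the complements and `X`.
By `sub_basis`, `sub_semi`, `IsUncBasis.map`, `SemiNormalized.map` the families
`fun j : M => e (part b M j)` and `fun i : M' => e' (part b' M' i)` are semi-normalized unconditional
bases of `Y`, and similarly for the complements and `X`. Uniqueness in `Y` and `X` (`hY.2`, `hX.2`)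
gives bijections `π₁ : M ≃ M'`, `π₂ : Mᶜ ≃ M'ᶜ`; glue them to `π : J ≃ I` (`Equiv.Set.sumCompl`,
`Equiv.sumCongr`). For `a : J → 𝕜`: `Summable (a j • b j)` iff both restrictions are summable
(`summable_split`), iff both families `a j • e (part ..)`, `a j • f (part ..)` are
(`sub_summable`, `summable_map_iff`), iff (by `PermEquiv`) the corresponding families for `b'` are, iff
`Summable (a j • b' (π j))` (reindex by `π`: `Equiv.summable_iff`, and `summable_split` for `b'` and
`a ∘ π.symm`; on `M'` the family `a (π.symm i)` reindexed by `π₁` is `a j`, `j ∈ M`).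
`theoremA`: existence of a basis: `prod_basis`, `semi_prod`; uniqueness: `exists_schauder`
(`X × Y` is complete), `splitX` twice, `glue` (the index sets are countable by `IsUncBasis`).
-/

namespace Pool.Agent.UUB

open Filter Topology Set

variable {𝕜 : Type*} [RCLike 𝕜] {X : Type*} [NormedAddCommGroup X] [NormedSpace 𝕜 X]
  {Y : Type*} [NormedAddCommGroup Y] [NormedSpace 𝕜 Y]

private theorem side {W : Type*} [NormedAddCommGroup W] [NormedSpace 𝕜 W] [CompleteSpace W]
    {J I : Type} (b : UnconditionalSchauderBasis J 𝕜 W) (b' : UnconditionalSchauderBasis I 𝕜 W)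
    (M : Set J) (M' : Set I) (e : Rg (S b M) ≃L[𝕜] Y) (e' : Rg (S b' M') ≃L[𝕜] Y)
    (π₁ : M ≃ M')
    (h : ∀ a : M → 𝕜, (Summable fun j => a j • e (part b M j)) ↔
      (Summable fun j => a j • e' (part b' M' (π₁ j)))) (a : M → 𝕜) :
    (Summable fun j : M => a j • b (j : J)) ↔
      (Summable fun i : M' => a (π₁.symm i) • b' (i : I)) := by
  rw [← sub_summable b M a, ← summable_map_iff e (part b M) a, h a,
    ← sub_summable b' M' (fun i => a (π₁.symm i)),
    ← summable_map_iff e' (part b' M') (fun i => a (π₁.symm i)),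
    ← π₁.summable_iff (f := fun i : M' => a (π₁.symm i) • e' (part b' M' i))]
  refine iff_of_eq (congrArg (fun g => Summable g) (funext fun j => ?_))
  show _ = a (π₁.symm (π₁ j)) • e' (part b' M' (π₁ j))
  rw [Equiv.symm_apply_apply]

theorem glue {W : Type*} [NormedAddCommGroup W] [NormedSpace 𝕜 W] [CompleteSpace W]
    (hX : HasUUB 𝕜 X) (hY : HasUUB 𝕜 Y) {J I : Type} [Countable J] [Countable I]
    (b : UnconditionalSchauderBasis J 𝕜 W) (b' : UnconditionalSchauderBasis I 𝕜 W)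
    (hb : SemiNormalized fun j => b j) (hb' : SemiNormalized fun i => b' i)
    (M : Set J) (M' : Set I) (e : Rg (S b M) ≃L[𝕜] Y) (e' : Rg (S b' M') ≃L[𝕜] Y)
    (f : Rg (S b Mᶜ) ≃L[𝕜] X) (f' : Rg (S b' M'ᶜ) ≃L[𝕜] X) :
    PermEquiv 𝕜 (fun j => b j) (fun i => b' i) := by
  classical
  obtain ⟨π₁, h₁⟩ := hY.2 M M' _ _ ((sub_basis b M).map e) ((sub_semi b hb M).map e)
    ((sub_basis b' M').map e') ((sub_semi b' hb' M').map e')
  obtain ⟨π₂, h₂⟩ := hX.2 (Mᶜ : Set J) (M'ᶜ : Set I) _ _ ((sub_basis b Mᶜ).map f)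
    ((sub_semi b hb Mᶜ).map f) ((sub_basis b' M'ᶜ).map f') ((sub_semi b' hb' M'ᶜ).map f')
  let π : J ≃ I := (Equiv.Set.sumCompl M).symm.trans
    ((Equiv.sumCongr π₁ π₂).trans (Equiv.Set.sumCompl M'))
  have k₁ : ∀ i : M', π.symm (i : I) = ((π₁.symm i : M) : J) := by
    intro i
    rw [Equiv.symm_apply_eq]
    show _ = (Equiv.Set.sumCompl M') ((Equiv.sumCongr π₁ π₂)
      ((Equiv.Set.sumCompl M).symm ((π₁.symm i : M) : J)))
    rw [Equiv.Set.sumCompl_symm_apply]
    show _ = (Equiv.Set.sumCompl M') (Sum.inl (π₁ (π₁.symm i)))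
    rw [Equiv.apply_symm_apply, Equiv.Set.sumCompl_apply_inl]
  have k₂ : ∀ i : (M'ᶜ : Set I), π.symm (i : I) = ((π₂.symm i : (Mᶜ : Set J)) : J) := by
    intro i
    rw [Equiv.symm_apply_eq]
    show _ = (Equiv.Set.sumCompl M') ((Equiv.sumCongr π₁ π₂)
      ((Equiv.Set.sumCompl M).symm ((π₂.symm i : (Mᶜ : Set J)) : J)))
    rw [Equiv.Set.sumCompl_symm_apply_compl]
    show _ = (Equiv.Set.sumCompl M') (Sum.inr (π₂ (π₂.symm i)))
    rw [Equiv.apply_symm_apply, Equiv.Set.sumCompl_apply_inr]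
  refine ⟨π, fun a => ?_⟩
  show (Summable fun j => a j • b j) ↔ (Summable fun j => a j • b' (π j))
  have h3 : (Summable fun j => a j • b' (π j)) ↔
      (Summable fun i => a (π.symm i) • b' i) := by
    rw [← π.summable_iff (f := fun i => a (π.symm i) • b' i)]
    refine iff_of_eq (congrArg (fun g => Summable g) (funext fun j => ?_))
    show _ = a (π.symm (π j)) • b' (π j)
    rw [Equiv.symm_apply_apply]
  rw [h3, summable_split b M a, summable_split b' M' (fun i => a (π.symm i)),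
    side b b' M M' e e' π₁ h₁ (fun j => a j), side b b' Mᶜ M'ᶜ f f' π₂ h₂ (fun j => a j)]
  simp only [k₁, k₂]

theorem theoremA [CompleteSpace X] [CompleteSpace Y] (hX : HasUUB 𝕜 X) (hY : HasUUB 𝕜 Y)
    (hc : ∀ (T : Y →L[𝕜] X) (U : X →L[𝕜] Y), IsCompactOperator (U.comp T)) :
    HasUUB 𝕜 (X × Y) := by
  refine ⟨?_, ?_⟩
  · obtain ⟨J, x, hx, hxs⟩ := hX.1
    obtain ⟨I, y, hy, hys⟩ := hY.1
    exact ⟨J ⊕ I, _, prod_basis hx hy, semi_prod hxs hys⟩
  · intro J I x y hx hxs hy hys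
    obtain ⟨b, hb⟩ := exists_schauder hx
    obtain ⟨b', hb'⟩ := exists_schauder hy
    have : Countable J := hx.1
    have : Countable I := hy.1
    obtain ⟨M, ⟨e⟩, ⟨f⟩⟩ := splitX hc b
    obtain ⟨M', ⟨e'⟩, ⟨f'⟩⟩ := splitX hc b'
    have hx' : x = fun j => b j := funext fun j => (hb j).symm
    have hy' : y = fun j => b' j := funext fun j => (hb' j).symm
    subst hx' hy'
    exact glue hX hY b b' hxs hys M M' e e' f f'

end Pool.Agent.UUB
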